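import Pool.Agent.Mg.F954c34a.G6d8a92

section
set_option linter.all false

open MeasureTheory Set
open scoped InnerProductSpace ComplexConjugate

noncomputable section

namespace Pool.Agent.MP_954c34_an.Rank

open Pool.Agent.MP_954c34_an.Sharp

section Abstract

variable {X Y : Type} [NormedAddCommGroup X] [InnerProductSpace ℂ X] [CompleteSpace X]
  [NormedAddCommGroup Y] [InnerProductSpace ℂ Y] [CompleteSpace Y]

/-- `K = J* J`. -/
def IsGram (J : X →L[ℂ] Y) (K : X →L[ℂ] X) : Prop := ∀ x y, ⟪x, K y⟫_ℂ = ⟪J x, J y⟫_ℂ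

def Coer (c : ℝ) (P : X →L[ℂ] X) : Prop := ∀ x, c * ‖x‖ ^ 2 ≤ (⟪x, P x⟫_ℂ).re

/-- The difference quotient `r (1 - U)`. -/
def dq (r : ℝ) (U : X →L[ℂ] X) : X →L[ℂ] X := (r : ℂ) • (1 - U)

lemma dq_apply (r : ℝ) (U : X →L[ℂ] X) (x : X) : dq r U x = (r : ℂ) • (x - U x) := rfl

lemma commute_star {U S : X →L[ℂ] X} (hU : U ∈ unitary (X →L[ℂ] X)) (h : Commute U S) :
    Commute (star U) S := by
  have h1 := Unitary.mul_star_self_of_mem hU
  have h2 := Unitary.star_mul_self_of_mem hU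
  calc star U * S = star U * S * (U * star U) := by rw [h1, mul_one]
    _ = star U * (S * U) * star U := by simp only [mul_assoc]
    _ = star U * U * (S * star U) := by rw [← h.eq]; simp only [mul_assoc]
    _ = S * star U := by rw [h2, one_mul]

lemma IsGram.norm_sq {J : X →L[ℂ] Y} {K : X →L[ℂ] X} (hK : IsGram J K) (x : X) :
    ‖J x‖ ^ 2 = (⟪x, K x⟫_ℂ).re := by
  rw [hK]
  exact (inner_self_eq_norm_sq (𝕜 := ℂ) _).symm

lemma IsGram.sa {J : X →L[ℂ] Y} {K : X →L[ℂ] X} (hK : IsGram J K) : IsSelfAdjoint K := by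
  rw [ContinuousLinearMap.isSelfAdjoint_iff_isSymmetric]
  intro x y
  change ⟪K x, y⟫_ℂ = ⟪x, K y⟫_ℂ
  rw [← inner_conj_symm, hK, hK, inner_conj_symm]

lemma IsGram.norm_unitary {J : X →L[ℂ] Y} {K U : X →L[ℂ] X} (hK : IsGram J K)
    (hU : U ∈ unitary (X →L[ℂ] X)) (h : Commute U K) (x : X) : ‖J (U x)‖ = ‖J x‖ := by
  rw [← sq_eq_sq₀ (norm_nonneg _) (norm_nonneg _), hK.norm_sq, hK.norm_sq,
    ← ContinuousLinearMap.mul_apply, ← h.eq, ContinuousLinearMap.mul_apply,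
    ContinuousLinearMap.inner_map_map_of_mem_unitary hU]

lemma IsGram.accretive {J : X →L[ℂ] Y} {K U : X →L[ℂ] X} (hK : IsGram J K)
    (hU : U ∈ unitary (X →L[ℂ] X)) (h : Commute U K) {r : ℝ} (hr : 0 ≤ r) (x : X) :
    0 ≤ (⟪x, K (dq r U x)⟫_ℂ).re := by
  rw [hK, dq_apply, map_smul, inner_smul_right, Complex.re_ofReal_mul, map_sub, inner_sub_right,
    Complex.sub_re]
  have h1 : (⟪J x, J (U x)⟫_ℂ).re ≤ ‖J x‖ * ‖J x‖ := by
    have := re_inner_le_norm (𝕜 := ℂ) (J x) (J (U x))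
    rwa [hK.norm_unitary hU h] at this
  have h2 : (⟪J x, J x⟫_ℂ).re = ‖J x‖ * ‖J x‖ := inner_self_eq_norm_mul_norm (𝕜 := ℂ) _
  exact mul_nonneg hr (by linarith)

lemma IsGram.exists_sol {J : X →L[ℂ] Y} {K U P : X →L[ℂ] X} (hK : IsGram J K)
    (hU : U ∈ unitary (X →L[ℂ] X)) (h : Commute U K) {r c : ℝ} (hr : 0 ≤ r) (hc : 0 < c)
    (hP : Coer c P) (G : X) : ∃ v, K (dq r U v) + P v = G := by
  have hunit : IsUnit (K * dq r U + P) :=
    (K * dq r U + P).isUnit_of_forall_le_norm_inner_map (c := ⟨c, hc.le⟩) hc fun a => by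
      rw [norm_inner_symm, mul_comm]
      refine le_trans ?_ (Complex.re_le_norm _)
      rw [ContinuousLinearMap.add_apply, inner_add_right, Complex.add_re,
        ContinuousLinearMap.mul_apply]
      have h1 := hK.accretive hU h hr a
      have h2 := hP a
      exact h2.trans (by linarith)
  exact (ContinuousLinearMap.isUnit_iff_bijective.1 hunit).2 G

lemma IsGram.norm_sol {J : X →L[ℂ] Y} {K U P : X →L[ℂ] X} (hK : IsGram J K)
    (hU : U ∈ unitary (X →L[ℂ] X)) (h : Commute U K) {r c : ℝ} (hr : 0 ≤ r)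
    (hP : Coer c P) (v : X) : c * ‖v‖ ^ 2 ≤ (⟪v, K (dq r U v) + P v⟫_ℂ).re := by
  rw [inner_add_right, Complex.add_re]
  have h1 := hK.accretive hU h hr v
  have h2 := hP v
  linarith

/-- A discrete half derivative. -/
structure IsHalf (J : X →L[ℂ] Y) (U : X →L[ℂ] X) (r : ℝ) (T : X →L[ℂ] X) : Prop where
  sa : IsSelfAdjoint T
  comm : ∀ S, Commute U S → Commute T S
  low : ∀ x, ‖x‖ ≤ ‖T x‖
  pair : ∀ x y, ‖⟪x, dq r U y⟫_ℂ‖ ≤ ‖T x‖ * ‖T y‖
  sq : ∀ x, ‖J (T (T x))‖ ≤ ‖J (dq r U x)‖ + ‖J x‖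

/-- The representation of one difference quotient by the data of the previous `L` steps. -/
structure IsRep (J : X →L[ℂ] Y) (K B : X →L[ℂ] X) (c Λ : ℝ) (L : ℕ) (W : ℕ → X →L[ℂ] X)
    (Z : X →L[ℂ] X) : Prop where
  ident : ∀ y η : ℕ → X, (∀ j < L, K ((L : ℂ) • (y j - y (j + 1))) + B (y j) = η j) →
    (L : ℂ) • (y 0 - y 1) = ∑ j ∈ Finset.range L, W j (η j) + Z (y L)
  comm : ∀ S, Commute S K → Commute S B → (∀ j, Commute S (W j)) ∧ Commute S Z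
  decay : ∀ j : ℕ, 1 ≤ j → ∀ x, c * (j : ℝ) ^ 3 * ‖J (W j x)‖ ^ 2 ≤ 27 * L * ‖x‖ ^ 2
  bdry : ∀ x, ‖J (Z x)‖ ^ 2 ≤ Λ * ‖x‖ ^ 2
  square : ∀ (n : ℕ) (Γ : ℕ → Fin n → X →L[ℂ] X) (γ : ℝ), 0 ≤ γ →
    (∀ j i, Commute (Γ j i) K ∧ Commute (Γ j i) B) →
    (∀ (j : ℕ) (x : Fin n → X), L * ‖∑ i, Γ j i (x i)‖ ^ 2 ≤ γ * j * ∑ i, ‖x i‖ ^ 2) →
    ∀ x : Fin n → X,
      c * ‖J (∑ j ∈ Finset.range L, W j (∑ i, Γ j i (x i)))‖ ^ 2 ≤ γ * ∑ i, ‖x i‖ ^ 2

/-- The data of the discrete estimate. -/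
structure Setup (c Λ κ γ : ℝ) (M : ℕ) (J : X →L[ℂ] Y) (K U : X →L[ℂ] X) (L : ℕ)
    (B : X →L[ℂ] X) (n : ℕ) (Bi : Fin n → X →L[ℂ] X) (Γ : ℕ → Fin n → X →L[ℂ] X)
    (E P : Fin M → X →L[ℂ] X) (Δ : Fin M → Fin n → X →L[ℂ] X) (δ : ℝ) : Prop where
  gram : IsGram J K
  unit : U ∈ unitary (X →L[ℂ] X)
  UK : Commute U K
  coer : Coer c B
  bound : ‖B‖ ≤ Λ
  UBi : ∀ i, Commute U (Bi i)
  col : ∀ x, ∑ i, ‖Bi i x‖ ^ 2 ≤ κ * ‖x‖ ^ 2
  Γeq : ∀ j : ℕ, B * U ^ j - U ^ j * B = ∑ i, Γ j i * Bi i * U ^ j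
  Γcomm : ∀ j i, Commute (Γ j i) K ∧ Commute (Γ j i) B
  Γrow : ∀ (j : ℕ) (x : Fin n → X), L * ‖∑ i, Γ j i (x i)‖ ^ 2 ≤ γ * j * ∑ i, ‖x i‖ ^ 2
  Esum : ∑ m, E m = 1
  Ecomm : ∀ m, Commute (E m) K ∧ Commute (E m) B
  EJ : ∀ m x, ‖J (E m x)‖ ≤ ‖J x‖
  UP : ∀ m, Commute U (P m)
  Pcoer : ∀ m, Coer c (P m)
  Pbound : ∀ m, ‖P m‖ ≤ Λ
  Δcomm : ∀ m i, Commute (Δ m i) K ∧ Commute (Δ m i) B
  Δeq : ∀ m, E m * (B - P m) = ∑ i, Δ m i * E m * Bi i
  Δrow : ∀ m (x : Fin n → X), ‖J (∑ i, Δ m i (x i))‖ ^ 2 ≤ δ * ∑ i, ‖J (x i)‖ ^ 2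
  δpos : 0 ≤ δ
  small : 4 * δ * κ ≤ c ^ 2

variable (X Y)

def HalfSt : Prop := ∀ (J : X →L[ℂ] Y) (K U : X →L[ℂ] X) (r : ℝ), IsGram J K →
  U ∈ unitary (X →L[ℂ] X) → Commute U K → 0 ≤ r → ∃ T, IsHalf J U r T

def AutoSt : Prop := ∀ c Λ j0 : ℝ, 0 < c → ∃ k : ℝ, 0 ≤ k ∧
  ∀ (J : X →L[ℂ] Y) (K U : X →L[ℂ] X) (r : ℝ) (T P : X →L[ℂ] X) (v G : X), IsGram J K →
    U ∈ unitary (X →L[ℂ] X) → Commute U K → 0 ≤ r → IsHalf J U r T → Commute U P → Coer c P →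
    ‖P‖ ≤ Λ → ‖J‖ ≤ j0 → K (dq r U v) + P v = G →
    (c * ‖T v‖ ≤ ‖T G‖ ∧ ‖J (dq r U v)‖ ≤ k * ‖T G‖) ∧
      ∀ φ : ℝ, 0 ≤ φ → (∀ x, ‖⟪x, G⟫_ℂ‖ ≤ φ * ‖J x‖) →
        ‖T v‖ ≤ k * φ ∧ ‖J (dq r U v)‖ ≤ k * φ

def IncSt : Prop := ∀ (J : X →L[ℂ] Y) (K U B : X →L[ℂ] X) (L j : ℕ) (c φ ε : ℝ) (u G : X),
  IsGram J K → U ∈ unitary (X →L[ℂ] X) → Commute U K → 1 ≤ L → 0 < c → Coer c B → 0 ≤ φ →
  K (dq L U u) + B u = G → (∀ x, ‖⟪x, G⟫_ℂ‖ ≤ φ * ‖J x‖) →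
  ‖B ((U ^ j) u) - (U ^ j) (B u)‖ ≤ ε →
  c ^ 2 * ‖(U ^ j) u - u‖ ^ 2 ≤ 4 * c * φ * (j / L) * ‖J (dq L U u)‖ + ε ^ 2

def AbsSt : Prop := ∀ c Λ κ j0 : ℝ, 0 < c → 0 ≤ κ → ∃ k : ℝ, 0 ≤ k ∧
  ∀ (γ : ℝ) (M : ℕ) (J : X →L[ℂ] Y) (K U : X →L[ℂ] X) (L : ℕ)
    (B : X →L[ℂ] X) (n : ℕ) (Bi : Fin n → X →L[ℂ] X) (Γ : ℕ → Fin n → X →L[ℂ] X)
    (E P : Fin M → X →L[ℂ] X) (Δ : Fin M → Fin n → X →L[ℂ] X) (δ : ℝ) (W : ℕ → X →L[ℂ] X)
    (Z : X →L[ℂ] X) (G : X) (φ : ℝ) (m : Fin M),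
    Setup c Λ κ γ M J K U L B n Bi Γ E P Δ δ → 1 ≤ L → ‖J‖ ≤ j0 → IsRep J K B c Λ L W Z →
    0 ≤ φ → (∀ x, ‖⟪x, G⟫_ℂ‖ ≤ φ * ‖J x‖) →
    ‖J (E m (∑ j ∈ Finset.range L, W j ((U ^ j) G)))‖ ≤ k * φ

def DiscSt : Prop := ∀ (c Λ κ γ j0 φ : ℝ) (M : ℕ), 0 < c → 0 ≤ κ → 0 ≤ γ → 0 ≤ φ → ∃ C : ℝ,
  ∀ (J : X →L[ℂ] Y) (K U : X →L[ℂ] X) (L : ℕ)
    (B : X →L[ℂ] X) (n : ℕ) (Bi : Fin n → X →L[ℂ] X) (Γ : ℕ → Fin n → X →L[ℂ] X)
    (E P : Fin M → X →L[ℂ] X) (Δ : Fin M → Fin n → X →L[ℂ] X) (δ : ℝ) (u G : X),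
    Setup c Λ κ γ M J K U L B n Bi Γ E P Δ δ → (∃ W Z, IsRep J K B c Λ L W Z) → 1 ≤ L →
    ‖J‖ ≤ j0 →
    (∀ x, ‖⟪x, G⟫_ℂ‖ ≤ φ * ‖J x‖) → K (dq L U u) + B u = G → ‖J (dq L U u)‖ ≤ C

end Abstract

section Line

variable {V H : Type} [NormedAddCommGroup V] [InnerProductSpace ℂ V] [CompleteSpace V]
  [NormedAddCommGroup H] [InnerProductSpace ℂ H] [CompleteSpace H]

/-- `A` is the multiplication by `a`. -/
def Giv (A : LL V →L[ℂ] LL V) (a : ℝ → V →L[ℂ] V) : Prop :=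
  ∀ f : LL V, A f =ᵐ[volume] fun t => a t (f t)

variable (V H)

structure GivASt : Prop where
  ex : ∀ (φ : ℝ → ℝ) (b : ℝ) (S : V →L[ℂ] V), Measurable φ → (∀ t, |φ t| ≤ b) →
    ∃ A, Giv A fun t => (φ t : ℂ) • S
  ext : ∀ {A A' : LL V →L[ℂ] LL V} {a a' : ℝ → V →L[ℂ] V}, Giv A a → Giv A' a' →
    (∀ t, a t = a' t) → A = A'
  one : Giv (1 : LL V →L[ℂ] LL V) fun _ => 1
  mul : ∀ {A A' : LL V →L[ℂ] LL V} {a a' : ℝ → V →L[ℂ] V}, Giv A a → Giv A' a' →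
    Giv (A * A') fun t => a t * a' t
  sub : ∀ {A A' : LL V →L[ℂ] LL V} {a a' : ℝ → V →L[ℂ] V}, Giv A a → Giv A' a' →
    Giv (A - A') fun t => a t - a' t
  sum : ∀ {n : ℕ} {A : Fin n → LL V →L[ℂ] LL V} {a : Fin n → ℝ → V →L[ℂ] V},
    (∀ i, Giv (A i) (a i)) → Giv (∑ i, A i) fun t => ∑ i, a i t
  comm : ∀ {A A' : LL V →L[ℂ] LL V} {a a' : ℝ → V →L[ℂ] V}, Giv A a → Giv A' a' →
    (∀ t, Commute (a t) (a' t)) → Commute A A'
  shift : ∀ {A A' : LL V →L[ℂ] LL V} {a : ℝ → V →L[ℂ] V} (r : ℝ), Giv A a →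
    Giv A' (fun t => a (t - r)) → sh V r * A = A' * sh V r
  norm : ∀ {A : LL V →L[ℂ] LL V} {a : ℝ → V →L[ℂ] V} {Λ : ℝ}, Giv A a → (∀ t, ‖a t‖ ≤ Λ) →
    ‖A‖ ≤ Λ

structure GivBSt : Prop where
  gram : ∀ val : V →L[ℂ] H, ∃ K, IsGram (val.compLpL 2 volume) K ∧
    Giv K fun _ => (ContinuousLinearMap.adjoint val).comp val
  sa : ∀ {A : LL V →L[ℂ] LL V} {a : ℝ → V →L[ℂ] V}, Giv A a → (∀ t, IsSelfAdjoint (a t)) →
    IsSelfAdjoint A
  coer : ∀ {A : LL V →L[ℂ] LL V} {a : ℝ → V →L[ℂ] V} {c : ℝ}, Giv A a → (∀ t, Coer c (a t)) →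
    Coer c A
  row : ∀ (val : V →L[ℂ] H) {n : ℕ} {A : Fin n → LL V →L[ℂ] LL V} {φ : Fin n → ℝ → ℝ} {δ : ℝ},
    (∀ i, Giv (A i) fun t => (φ i t : ℂ) • 1) → (∀ t, ∑ i, φ i t ^ 2 ≤ δ) →
    ∀ x : Fin n → LL V, ‖∑ i, A i (x i)‖ ^ 2 ≤ δ * ∑ i, ‖x i‖ ^ 2 ∧
      ‖val.compLpL 2 volume (∑ i, A i (x i))‖ ^ 2 ≤ δ * ∑ i, ‖val.compLpL 2 volume (x i)‖ ^ 2
  col : ∀ {n : ℕ} {A : Fin n → LL V →L[ℂ] LL V} {S : Fin n → V →L[ℂ] V} {κ : ℝ},
    (∀ i, Giv (A i) fun _ => S i) → (∀ v, ∑ i, ‖S i v‖ ^ 2 ≤ κ * ‖v‖ ^ 2) →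
    ∀ x, ∑ i, ‖A i x‖ ^ 2 ≤ κ * ‖x‖ ^ 2

variable {V H}

/-- A self-adjoint coercive family with finite-rank half-Hoelder time dependence. -/
structure IsFam (T c Λ κ γ : ℝ) (B : ℝ → V →L[ℂ] V) (n : ℕ) (Bi : Fin n → V →L[ℂ] V)
    (g : ℝ → Fin n → ℝ) : Prop where
  coer : ∀ t, Coer c (B t)
  bound : ∀ t, ‖B t‖ ≤ Λ
  eq : ∀ t s, B t - B s = ∑ i, ((g t i - g s i : ℝ) : ℂ) • Bi i
  col : ∀ v, ∑ i, ‖Bi i v‖ ^ 2 ≤ κ * ‖v‖ ^ 2
  hol : ∀ t s, ∑ i, (g t i - g s i) ^ 2 ≤ γ * |t - s|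
  cont : ∀ i, Continuous fun t => g t i
  clamp : ∀ t, g t = g (max 0 (min t T))

variable (V H)

def InstSt : Prop := ∀ T c κ γ : ℝ, 0 < T → 0 < c → 0 ≤ κ → 0 ≤ γ → ∃ M : ℕ,
  ∀ (val : V →L[ℂ] H) (Λ : ℝ) (B : ℝ → V →L[ℂ] V) (n : ℕ) (Bi : Fin n → V →L[ℂ] V)
    (g : ℝ → Fin n → ℝ) (A : LL V →L[ℂ] LL V) (L : ℕ), IsFam T c Λ κ γ B n Bi g → Giv A B →
    1 ≤ L → ∃ K Ai Γ E P Δ δ,
      Setup c Λ κ γ M (val.compLpL 2 volume) K (sh V (1 / L)) L A n Ai Γ E P Δ δ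

def TruncSt : Prop := ∀ (ι : Type) (T κ γ : ℝ) (B : ℝ → V →L[ℂ] V) (Bi : ι → V →L[ℂ] V)
  (g : ℝ → ι → ℝ), 0 < T → 0 ≤ κ → 0 ≤ γ →
  (∀ (s : Finset ι) v, ∑ i ∈ s, ‖Bi i v‖ ^ 2 ≤ κ * ‖v‖ ^ 2) →
  (∀ s : Finset ι, ∀ t ∈ Icc 0 T, ∀ r ∈ Icc 0 T, ∑ i ∈ s, (g t i - g r i) ^ 2 ≤ γ * |t - r|) →
  (∀ t ∈ Icc 0 T, ∀ v a, HasSum (fun i => ((g t i - g 0 i : ℝ) : ℂ) * ⟪v, Bi i a⟫_ℂ)
    (⟪v, B t a⟫_ℂ - ⟪v, B 0 a⟫_ℂ)) →
  ∀ ε : ℝ, 0 < ε → ∃ s : Finset ι, ∀ t ∈ Icc 0 T,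
    ‖B t - B 0 - ∑ i ∈ s, ((g t i - g 0 i : ℝ) : ℂ) • Bi i‖ ≤ ε

end Line

end Pool.Agent.MP_954c34_an.Rank

end

section
set_option linter.all false

open MeasureTheory Set
open scoped InnerProductSpace ComplexConjugate

noncomputable section

namespace Pool.Agent.MP_954c34_an.Rank

open Pool.Agent.MP_954c34_an.Sharp

variable {V : Type} [NormedAddCommGroup V] [InnerProductSpace ℂ V] [CompleteSpace V]

lemma bd_GivA {φ : ℝ → ℝ} {b : ℝ} (S : V →L[ℂ] V) (hb : ∀ t, |φ t| ≤ b) (t : ℝ) (v : V) :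
    ‖((φ t : ℂ) • S) v‖ ≤ b * ‖S‖ * ‖v‖ := by
  refine (ContinuousLinearMap.le_opNorm _ _).trans
    (mul_le_mul_of_nonneg_right ?_ (norm_nonneg _))
  rw [norm_smul, Complex.norm_real, Real.norm_eq_abs]
  exact mul_le_mul_of_nonneg_right (hb t) (norm_nonneg _)

lemma mem_GivA {φ : ℝ → ℝ} {b : ℝ} (S : V →L[ℂ] V) (hφ : Measurable φ) (hb : ∀ t, |φ t| ≤ b)
    (f : LL V) : MemLp (fun t => ((φ t : ℂ) • S) (f t)) 2 volume :=
  MemLp.of_le_mul (c := b * ‖S‖) (Lp.memLp f)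
    ((Complex.measurable_ofReal.comp hφ).aestronglyMeasurable.smul
      (S.continuous.comp_aestronglyMeasurable (Lp.aestronglyMeasurable f)))
    (Filter.Eventually.of_forall fun t => bd_GivA S hb t _)

lemma ex_GivA (φ : ℝ → ℝ) (b : ℝ) (S : V →L[ℂ] V) (hφ : Measurable φ) (hb : ∀ t, |φ t| ≤ b) :
    ∃ A, Giv A fun t => (φ t : ℂ) • S := by
  let L : LL V →ₗ[ℂ] LL V :=
    { toFun := fun f => (mem_GivA S hφ hb f).toLp _
      map_add' := fun f g => by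
        rw [← MemLp.toLp_add]
        refine MemLp.toLp_congr _ _ ?_
        filter_upwards [Lp.coeFn_add f g] with x hx
        simp only [hx, map_add, Pi.add_apply]
      map_smul' := fun c f => by
        rw [RingHom.id_apply, ← MemLp.toLp_const_smul]
        refine MemLp.toLp_congr _ _ ?_
        filter_upwards [Lp.coeFn_smul c f] with x hx
        simp only [hx, map_smul, Pi.smul_apply] }
  have hL : ∀ f, L f =ᵐ[volume] fun t => ((φ t : ℂ) • S) (f t) := fun f =>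
    (mem_GivA S hφ hb f).coeFn_toLp
  refine ⟨L.mkContinuous (b * ‖S‖) fun f => Lp.norm_le_mul_norm_of_ae_le_mul ?_, hL⟩
  filter_upwards [hL f] with t ht
  rw [ht]
  exact bd_GivA S hb t _

lemma ext_GivA {A A' : LL V →L[ℂ] LL V} {a a' : ℝ → V →L[ℂ] V} (h : Giv A a) (h' : Giv A' a')
    (e : ∀ t, a t = a' t) : A = A' := by
  refine ContinuousLinearMap.ext fun f => Lp.ext ?_
  filter_upwards [h f, h' f] with t h1 h2
  rw [h1, h2, e]

lemma mul_GivA {A A' : LL V →L[ℂ] LL V} {a a' : ℝ → V →L[ℂ] V} (h : Giv A a) (h' : Giv A' a') :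
    Giv (A * A') fun t => a t * a' t := fun f => by
  filter_upwards [h (A' f), h' f] with t h1 h2
  rw [ContinuousLinearMap.mul_apply, h1, h2, ContinuousLinearMap.mul_apply]

lemma sum_GivA {ι : Type} {A : ι → LL V →L[ℂ] LL V} {a : ι → ℝ → V →L[ℂ] V}
    (h : ∀ i, Giv (A i) (a i)) (s : Finset ι) : Giv (∑ i ∈ s, A i) fun t => ∑ i ∈ s, a i t := by
  classical
  induction s using Finset.induction_on with
  | empty =>
    intro f
    simp only [Finset.sum_empty, ContinuousLinearMap.zero_apply]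
    exact Lp.coeFn_zero _ _ _
  | insert i s hi ih =>
    intro f
    simp only [Finset.sum_insert hi, ContinuousLinearMap.add_apply]
    filter_upwards [h i f, ih f, Lp.coeFn_add (A i f) ((∑ i ∈ s, A i) f)] with t h1 h2 h3
    rw [h3, Pi.add_apply, h1, h2]

theorem givA_st : GivASt V where
  ex := ex_GivA
  ext := ext_GivA
  one := fun f => Filter.Eventually.of_forall fun t => rfl
  mul := mul_GivA
  sub := fun {A A' a a'} h h' f => by
    filter_upwards [h f, h' f, Lp.coeFn_sub (A f) (A' f)] with t h1 h2 h3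
    rw [ContinuousLinearMap.sub_apply, h3, Pi.sub_apply, h1, h2, ContinuousLinearMap.sub_apply]
  sum := fun h => sum_GivA h _
  comm := fun h h' e => ext_GivA (mul_GivA h h') (mul_GivA h' h) fun t => (e t).eq
  shift := fun {A A' a} r h h' => by
    refine ContinuousLinearMap.ext fun f => Lp.ext ?_
    filter_upwards [coeFn_sh r (A f), ae_shift (h f) r, h' (sh V r f), coeFn_sh r f]
      with t h1 h2 h3 h4
    rw [ContinuousLinearMap.mul_apply, ContinuousLinearMap.mul_apply, h1, h2, h3, h4]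
  norm := fun {A a Λ} h hΛ => by
    refine A.opNorm_le_bound ((norm_nonneg _).trans (hΛ 0)) fun f =>
      Lp.norm_le_mul_norm_of_ae_le_mul ?_
    filter_upwards [h f] with t ht
    rw [ht]
    exact ((a t).le_opNorm _).trans (mul_le_mul_of_nonneg_right (hΛ t) (norm_nonneg _))

end Pool.Agent.MP_954c34_an.Rank

end

section
set_option linter.all false

open MeasureTheory Set
open scoped InnerProductSpace ComplexConjugate

noncomputable section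

namespace Pool.Agent.MP_954c34_an.Rank

open Pool.Agent.MP_954c34_an.Sharp

variable {V H : Type} [NormedAddCommGroup V] [InnerProductSpace ℂ V] [CompleteSpace V]
  [NormedAddCommGroup H] [InnerProductSpace ℂ H] [CompleteSpace H]

lemma self_GivB (y : V) : (⟪y, y⟫_ℂ).re = ‖y‖ ^ 2 := inner_self_eq_norm_sq (𝕜 := ℂ) _

lemma int_GivB (x : LL V) : Integrable (fun t => ‖x t‖ ^ 2) (volume : Measure ℝ) :=
  ((L2.integrable_inner (𝕜 := ℂ) x x).re).congr (Filter.Eventually.of_forall fun t => self_GivB _)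

lemma nsq_GivB (x : LL V) : ‖x‖ ^ 2 = ∫ t, ‖x t‖ ^ 2 := by
  rw [← inner_self_eq_norm_sq (𝕜 := ℂ), L2.inner_def,
    ← integral_re (L2.integrable_inner (𝕜 := ℂ) x x)]
  exact integral_congr_ae (Filter.Eventually.of_forall fun t => self_GivB _)

lemma sum_GivB {n : ℕ} (x : Fin n → LL V) :
    ∑ i, ‖x i‖ ^ 2 = ∫ t, ∑ i, ‖x i t‖ ^ 2 := by
  rw [integral_finset_sum _ fun i _ => int_GivB (x i)]
  exact Finset.sum_congr rfl fun i _ => nsq_GivB _

lemma cs_GivB {n : ℕ} (φ : Fin n → ℝ) (y : Fin n → V) {δ : ℝ} (h : ∑ i, φ i ^ 2 ≤ δ) :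
    ‖∑ i, (φ i : ℂ) • y i‖ ^ 2 ≤ δ * ∑ i, ‖y i‖ ^ 2 := by
  have h1 : ‖∑ i, (φ i : ℂ) • y i‖ ≤ ∑ i, |φ i| * ‖y i‖ :=
    (norm_sum_le _ _).trans (le_of_eq (Finset.sum_congr rfl fun i _ => by
      rw [norm_smul, Complex.norm_real, Real.norm_eq_abs]))
  have h2 := Finset.sum_mul_sq_le_sq_mul_sq Finset.univ (fun i => |φ i|) fun i => ‖y i‖
  simp only [sq_abs] at h2
  exact (pow_le_pow_left₀ (norm_nonneg _) h1 2).trans (h2.trans
    (mul_le_mul_of_nonneg_right h (Finset.sum_nonneg fun i _ => sq_nonneg _)))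

lemma row_GivB {n : ℕ} {φ : Fin n → ℝ → ℝ} {δ : ℝ} (h : ∀ t, ∑ i, φ i t ^ 2 ≤ δ)
    (x : Fin n → LL V) (z : LL V) (hz : z =ᵐ[volume] fun t => ∑ i, (φ i t : ℂ) • x i t) :
    ‖z‖ ^ 2 ≤ δ * ∑ i, ‖x i‖ ^ 2 := by
  rw [nsq_GivB, sum_GivB, ← integral_const_mul]
  refine integral_mono_ae (int_GivB z)
    ((integrable_finset_sum _ fun i _ => int_GivB (x i)).const_mul δ) ?_
  filter_upwards [hz] with t ht
  rw [ht]
  exact cs_GivB _ _ (h t)

theorem givB_st : GivBSt V H where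
  gram val := by
    refine ⟨((ContinuousLinearMap.adjoint val).comp val).compLpL 2 volume, fun x y => ?_,
      fun f => ContinuousLinearMap.coeFn_compLpL _ f⟩
    rw [L2.inner_def, L2.inner_def]
    refine integral_congr_ae ?_
    filter_upwards [((ContinuousLinearMap.adjoint val).comp val).coeFn_compLpL y,
      val.coeFn_compLpL x, val.coeFn_compLpL y] with t h1 h2 h3
    rw [h1, h2, h3, ContinuousLinearMap.comp_apply, ContinuousLinearMap.adjoint_inner_right]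
  sa {A a} hA ha := by
    rw [ContinuousLinearMap.isSelfAdjoint_iff_isSymmetric]
    intro x y
    change ⟪A x, y⟫_ℂ = ⟪x, A y⟫_ℂ
    rw [L2.inner_def, L2.inner_def]
    refine integral_congr_ae ?_
    filter_upwards [hA x, hA y] with t h1 h2
    rw [h1, h2]
    exact ContinuousLinearMap.isSelfAdjoint_iff_isSymmetric.1 (ha t) _ _
  coer {A a c} hA ha x := by
    have e2 : (⟪x, A x⟫_ℂ).re = ∫ t, (⟪x t, A x t⟫_ℂ).re := by
      rw [L2.inner_def]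
      exact (integral_re (L2.integrable_inner (𝕜 := ℂ) x (A x))).symm
    rw [nsq_GivB, e2, ← integral_const_mul]
    refine integral_mono_ae ((int_GivB x).const_mul c)
      (L2.integrable_inner (𝕜 := ℂ) x (A x)).re ?_
    filter_upwards [hA x] with t ht
    rw [ht]
    exact ha t _
  row val {n A φ δ} hA h x := by
    have e : (∑ i, A i (x i) : LL V) =ᵐ[volume] fun t => ∑ i, (φ i t : ℂ) • x i t := by
      filter_upwards [Lp.coeFn_finsetSum Finset.univ fun i => A i (x i),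
        ae_all_iff.2 fun i => hA i (x i)] with t h1 h2
      rw [h1, Finset.sum_apply]
      exact Finset.sum_congr rfl fun i _ => h2 i
    refine ⟨row_GivB h x _ e, row_GivB h (fun i => val.compLpL 2 volume (x i)) _ ?_⟩
    filter_upwards [e, val.coeFn_compLpL (∑ i, A i (x i)),
      ae_all_iff.2 fun i => val.coeFn_compLpL (x i)] with t h1 h2 h3
    rw [h2, h1, map_sum]
    exact Finset.sum_congr rfl fun i _ => by rw [map_smul, h3 i]
  col {n A S κ} hA h x := by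
    rw [sum_GivB fun i => A i x, nsq_GivB, ← integral_const_mul]
    refine integral_mono_ae (integrable_finset_sum _ fun i _ => int_GivB (A i x))
      ((int_GivB x).const_mul κ) ?_
    filter_upwards [ae_all_iff.2 fun i => hA i x] with t ht
    simp only [ht]
    exact h _

end Pool.Agent.MP_954c34_an.Rank

end

section
set_option linter.all false

open MeasureTheory Set
open scoped InnerProductSpace ComplexConjugate

noncomputable section

namespace Pool.Agent.MP_954c34_an.Rank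

open Pool.Agent.MP_954c34_an.Sharp

variable {X Y : Type} [NormedAddCommGroup X] [InnerProductSpace ℂ X] [CompleteSpace X]
  [NormedAddCommGroup Y] [InnerProductSpace ℂ Y] [CompleteSpace Y]

lemma gram_Half {J : X →L[ℂ] Y} {K B : X →L[ℂ] X} (hK : IsGram J K) (h : Commute (star B) K)
    (x : X) : ‖J (B x)‖ ^ 2 = (⟪x, (K * (star B * B)) x⟫_ℂ).re := by
  rw [hK.norm_sq, ← mul_assoc, ← h.eq, mul_assoc, ContinuousLinearMap.mul_apply,
    ContinuousLinearMap.star_eq_adjoint, ContinuousLinearMap.adjoint_inner_right]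
  rfl

lemma le_Half {U : X →L[ℂ] X} {f : ℂ → ℂ} (h : ∀ z, ‖f z‖ ≤ 1) (x : X) : ‖cfc f U x‖ ≤ ‖x‖ :=
  ((cfc f U).le_opNorm x).trans
    (mul_le_of_le_one_left (norm_nonneg _) (norm_cfc_le zero_le_one fun z _ => h z))

theorem half_st : HalfSt X Y := by
  intro J K U r hK hU hUK hr
  have hn : IsStarNormal U := isStarNormal_of_mem_unitary hU
  set a : ℂ → ℝ := fun z => r * ‖1 - z‖ with ha
  have a0 : ∀ z, 0 ≤ a z := fun z => by positivity
  have a1 : ∀ z, 0 < a z + 1 := fun z => by linarith [a0 z]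
  have ac : Continuous a := by fun_prop
  have s1 : ∀ z, 1 ≤ √(a z + 1) := fun z => Real.one_le_sqrt.2 (by linarith [a0 z])
  have s0 : ∀ z, ((√(a z + 1) : ℝ) : ℂ) ≠ 0 := fun z =>
    Complex.ofReal_ne_zero.2 (by linarith [s1 z])
  have s2 : ∀ z, ((√(a z + 1) : ℝ) : ℂ) * ((√(a z + 1) : ℝ) : ℂ) = (a z : ℂ) + 1 := fun z => by
    rw [← Complex.ofReal_mul, Real.mul_self_sqrt (a1 z).le]
    push_cast
    rfl
  have a2 : ∀ z, (a z : ℂ) + 1 ≠ 0 := fun z => by rw [← s2]; exact mul_ne_zero (s0 z) (s0 z)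
  have fc : Continuous fun z => ((√(a z + 1) : ℝ) : ℂ) := by fun_prop
  have gc : Continuous fun z => ((√(a z + 1) : ℝ) : ℂ)⁻¹ := fc.inv₀ s0
  have bc : Continuous fun z => (a z : ℂ) := by fun_prop
  have dc : Continuous fun z : ℂ => (r : ℂ) * (1 - z) := by fun_prop
  have sc : Continuous fun z : ℂ => (r : ℂ) * (1 - z) / ((a z : ℂ) + 1) :=
    dc.div (by fun_prop) a2
  have nd : ∀ z : ℂ, ‖(r : ℂ) * (1 - z)‖ = a z := fun z => by
    rw [norm_mul, Complex.norm_real, Real.norm_of_nonneg hr]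
  have hD : cfc (fun z : ℂ => (r : ℂ) * (1 - z)) U = dq r U := by
    rw [cfc_const_mul _ _ _ (by fun_prop), cfc_sub _ _ _ (by fun_prop) (by fun_prop),
      cfc_const_one ℂ U, cfc_id' ℂ U]
    rfl
  have cm : ∀ (f : ℂ → ℂ) S, Commute U S → Commute (cfc f U) S := fun f S h =>
    h.cfc (commute_star hU h) f
  have re : ∀ f : ℂ → ℝ, star (cfc (fun z => (f z : ℂ)) U) = cfc (fun z => (f z : ℂ)) U :=
    fun f => by
      rw [← cfc_star]
      simp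
  have hTT : cfc (fun z => ((√(a z + 1) : ℝ) : ℂ)) U * cfc (fun z => ((√(a z + 1) : ℝ) : ℂ)) U =
      cfc (fun z => (a z : ℂ)) U + 1 := by
    rw [← cfc_mul _ _ _ fc.continuousOn fc.continuousOn, ← cfc_const_one ℂ U,
      ← cfc_add U _ _ bc.continuousOn (by fun_prop)]
    simp only [s2]
  have hG : cfc (fun z => ((√(a z + 1) : ℝ) : ℂ)⁻¹) U *
      cfc (fun z => ((√(a z + 1) : ℝ) : ℂ)) U = 1 := by
    rw [← cfc_mul _ _ _ gc.continuousOn fc.continuousOn, ← cfc_const_one ℂ U]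
    simp only [inv_mul_cancel₀ (s0 _)]
  have hS : cfc (fun z => ((√(a z + 1) : ℝ) : ℂ)) U *
      (cfc (fun z : ℂ => (r : ℂ) * (1 - z) / ((a z : ℂ) + 1)) U *
        cfc (fun z => ((√(a z + 1) : ℝ) : ℂ)) U) = dq r U := by
    rw [← cfc_mul _ _ _ sc.continuousOn fc.continuousOn,
      ← cfc_mul _ _ _ fc.continuousOn (sc.fun_mul fc).continuousOn, ← hD]
    congr 1
    funext z
    rw [mul_left_comm, s2, div_mul_cancel₀ _ (a2 z)]
  have hA : star (cfc (fun z => (a z : ℂ)) U) * cfc (fun z => (a z : ℂ)) U =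
      star (dq r U) * dq r U := by
    rw [re, ← hD, ← cfc_star, ← cfc_mul _ _ _ bc.continuousOn bc.continuousOn,
      ← cfc_mul _ _ _ dc.star.continuousOn dc.continuousOn]
    congr 1
    funext z
    rw [← nd, RCLike.star_def, Complex.conj_mul', sq]
  have sa : IsSelfAdjoint (cfc (fun z => ((√(a z + 1) : ℝ) : ℂ)) U) := re _
  refine ⟨_, sa, cm _, fun x => ?_, fun x y => ?_, fun x => ?_⟩
  · refine le_trans (le_of_eq ?_) (le_Half (U := U) (f := fun z => ((√(a z + 1) : ℝ) : ℂ)⁻¹)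
      (fun z => ?_) _)
    · rw [← ContinuousLinearMap.mul_apply, hG]
      rfl
    · rw [norm_inv, Complex.norm_real, Real.norm_of_nonneg (Real.sqrt_nonneg _)]
      exact inv_le_one_of_one_le₀ (s1 z)
  · rw [← hS, ContinuousLinearMap.mul_apply, ContinuousLinearMap.mul_apply]
    refine (congrArg norm (sa.isSymmetric x _)).symm.le.trans ((norm_inner_le_norm _ _).trans
      (mul_le_mul_of_nonneg_left (le_Half (fun z => ?_) _) (norm_nonneg _)))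
    have e : ‖(a z : ℂ) + 1‖ = a z + 1 := by
      rw [← Complex.ofReal_one, ← Complex.ofReal_add, Complex.norm_real,
        Real.norm_of_nonneg (a1 z).le]
    rw [norm_div, nd, e, div_le_one (a1 z)]
    linarith
  · have e : ‖J (cfc (fun z => (a z : ℂ)) U x)‖ = ‖J (dq r U x)‖ := by
      rw [← sq_eq_sq₀ (norm_nonneg _) (norm_nonneg _),
        gram_Half hK (by rw [re]; exact cm _ _ hUK),
        gram_Half hK (by rw [← hD, ← cfc_star]; exact cm _ _ hUK), hA]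
    rw [← ContinuousLinearMap.mul_apply, hTT, ← e, ContinuousLinearMap.add_apply, map_add]
    exact norm_add_le _ _

end Pool.Agent.MP_954c34_an.Rank

end

section
set_option linter.all false

open MeasureTheory Set
open scoped InnerProductSpace ComplexConjugate

noncomputable section

namespace Pool.Agent.MP_954c34_an.Rank

open Pool.Agent.MP_954c34_an.Sharp

variable {X Y : Type} [NormedAddCommGroup X] [InnerProductSpace ℂ X] [CompleteSpace X]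
  [NormedAddCommGroup Y] [InnerProductSpace ℂ Y] [CompleteSpace Y]

lemma num_Auto {c L j : ℝ} (hc : 0 < c) (hL : 0 ≤ L) (hj : 0 ≤ j) : ∃ k : ℝ, 0 ≤ k ∧
    (∀ a x g : ℝ, 0 ≤ a → 0 ≤ g → c * a ≤ g → x ^ 2 ≤ (g + L * a) * a → x ≤ k * g) ∧
    ∀ a x φ : ℝ, 0 ≤ a → 0 ≤ φ → c * a ^ 2 ≤ φ * (x + j * a) → x ^ 2 ≤ φ * x + L * a ^ 2 →
      a ≤ k * φ ∧ x ≤ k * φ := by
  obtain ⟨b, hb, hbc⟩ : ∃ b : ℝ, 0 < b ∧ c * b = 1 := ⟨c⁻¹, inv_pos.2 hc, mul_inv_cancel₀ hc.ne'⟩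
  obtain ⟨m, hm, hmc⟩ : ∃ m : ℝ, 1 ≤ m ∧ L + j + 2 ≤ c * m := by
    refine ⟨(L + j + 2) * b + 1, le_add_of_nonneg_left (by positivity), ?_⟩
    have : c * ((L + j + 2) * b + 1) = (L + j + 2) * (c * b) + c := by ring
    rw [this, hbc]; linarith
  obtain ⟨q, hq⟩ : ∃ q : ℝ, q = b + L * b ^ 2 := ⟨_, rfl⟩
  have hq0 : 0 ≤ q := by rw [hq]; positivity
  have hm0 : 0 ≤ (L + 1) * m := by positivity
  refine ⟨1 + q + (L + 1) * m, by positivity, fun a x g ha hg h1 h2 => ?_,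
    fun a x φ ha hφ h1 h2 => ?_⟩
  · have h3 : a ≤ b * g := by
      have := mul_le_mul_of_nonneg_left h1 hb.le
      rwa [← mul_assoc, mul_comm b c, hbc, one_mul] at this
    have h4 : (g + L * a) * a ≤ (g + L * (b * g)) * (b * g) := by gcongr
    have h5 : x ≤ (1 + q) * g := by
      refine (abs_le_of_sq_le_sq' (h2.trans (h4.trans ?_)) (by positivity)).2
      have : (g + L * (b * g)) * (b * g) = q * g ^ 2 := by rw [hq]; ring
      rw [this, mul_pow]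
      exact mul_le_mul_of_nonneg_right (by nlinarith) (sq_nonneg g)
    nlinarith [mul_nonneg hm0 hg]
  · have h3 : x ≤ φ + (L + 1) * a := by
      by_contra h
      rw [not_le] at h
      have h4 : 0 ≤ (L + 1) * a := by positivity
      have h5 : (L + 1) * a * ((L + 1) * a) < x * (x - φ) :=
        mul_lt_mul'' (by linarith) (by linarith) h4 h4
      nlinarith [sq_nonneg (L * a), mul_nonneg hL (sq_nonneg a), sq_nonneg a]
    have h4 : a ≤ m * φ := by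
      by_contra h
      rw [not_le] at h
      have h5 : φ ≤ a := by nlinarith
      have h6 : 0 < a := lt_of_le_of_lt (by positivity) h
      have h7 : φ * (x + j * a) ≤ φ * ((L + j + 2) * a) :=
        mul_le_mul_of_nonneg_left (by nlinarith) hφ
      have h8 : φ * ((L + j + 2) * a) ≤ φ * (c * m * a) := by gcongr
      have h9 : c * a * (m * φ) < c * a * a := mul_lt_mul_of_pos_left h (mul_pos hc h6)
      nlinarith
    have h5 : (L + 1) * a ≤ (L + 1) * (m * φ) := by gcongr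
    have h6 := mul_nonneg hq0 hφ
    have h7 : 0 ≤ L * (m * φ) := by positivity
    constructor <;> nlinarith

theorem auto_st : AutoSt X Y := by
  intro c Λ j0 hc
  obtain ⟨k, hk, n1, n2⟩ := num_Auto hc (abs_nonneg Λ) (abs_nonneg j0)
  refine ⟨k, hk, fun J K U r T P v G hK hU hUK hr hT hUP hP hΛ hJ hv => ?_⟩
  have ap : ∀ S, Commute U S → ∀ x, T (S x) = S (T x) := fun S h x =>
    congrArg (fun A : X →L[ℂ] X => A x) (hT.comm S h).eq
  have hd : ∀ x, T (dq r U x) = dq r U (T x) := fun x => by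
    rw [dq_apply, dq_apply, map_smul, map_sub, ap U (Commute.refl U)]
  have h1 : K (dq r U (T v)) + P (T v) = T G := by
    rw [← hv, map_add, ap K hUK, ap P hUP, hd]
  have h2 := hK.norm_sol hU hUK hr hP (T v)
  rw [h1] at h2
  have h3 : ‖T (P v)‖ ≤ |Λ| * ‖T v‖ := by
    rw [ap P hUP]
    exact (P.le_opNorm _).trans
      (mul_le_mul_of_nonneg_right (hΛ.trans (le_abs_self Λ)) (norm_nonneg _))
  have h4 : K (dq r U v) = G - P v := eq_sub_of_add_eq hv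
  have h5 := hK.norm_sq (dq r U v)
  rw [h4] at h5
  have h6 : c * ‖T v‖ ≤ ‖T G‖ := by
    have h7 : c * ‖T v‖ ^ 2 ≤ ‖T v‖ * ‖T G‖ :=
      h2.trans ((Complex.re_le_norm _).trans (norm_inner_le_norm _ _))
    rcases (norm_nonneg (T v)).eq_or_lt with h | h
    · rw [← h, mul_zero]; exact norm_nonneg _
    · exact le_of_mul_le_mul_left (by nlinarith) h
  refine ⟨⟨h6, n1 _ _ _ (norm_nonneg _) (norm_nonneg _) h6 ?_⟩, fun φ hφ hG =>
    n2 _ _ _ (norm_nonneg _) hφ ?_ ?_⟩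
  · rw [h5]
    refine (Complex.re_le_norm _).trans ?_
    rw [norm_inner_symm]
    refine (hT.pair _ _).trans (mul_le_mul_of_nonneg_right ?_ (norm_nonneg _))
    rw [map_sub]
    exact (norm_sub_le _ _).trans (by linarith)
  · have h7 : ⟪T v, T G⟫_ℂ = ⟪T (T v), G⟫_ℂ := (hT.sa.isSymmetric (T v) G).symm
    rw [h7] at h2
    refine h2.trans ((Complex.re_le_norm _).trans ((hG _).trans
      (mul_le_mul_of_nonneg_left ((hT.sq v).trans ?_) hφ)))
    have h8 : ‖J v‖ ≤ |j0| * ‖T v‖ := (J.le_opNorm v).trans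
      (mul_le_mul (hJ.trans (le_abs_self j0)) (hT.low v) (norm_nonneg _) (abs_nonneg _))
    linarith
  · rw [h5, inner_sub_right, Complex.sub_re]
    have h7 := (Complex.re_le_norm _).trans (hG (dq r U v))
    have h8 := hT.pair (P v) v
    rw [norm_inner_symm] at h8
    have h9 := (abs_le.1 (Complex.abs_re_le_norm ⟪dq r U v, P v⟫_ℂ)).1
    have h10 := mul_le_mul_of_nonneg_right h3 (norm_nonneg (T v))
    nlinarith

end Pool.Agent.MP_954c34_an.Rank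

end

section
set_option linter.all false

open MeasureTheory Set
open scoped InnerProductSpace ComplexConjugate

noncomputable section

namespace Pool.Agent.MP_954c34_an.Rank

open Pool.Agent.MP_954c34_an.Sharp

variable {X Y : Type} [NormedAddCommGroup X] [InnerProductSpace ℂ X] [CompleteSpace X]
  [NormedAddCommGroup Y] [InnerProductSpace ℂ Y] [CompleteSpace Y]

lemma tel_Inc {J : X →L[ℂ] Y} {K U : X →L[ℂ] X} (hK : IsGram J K)
    (hU : U ∈ unitary (X →L[ℂ] X)) (h : Commute U K) (u : X) (j : ℕ) :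
    ‖J (u - (U ^ j) u)‖ ≤ j * ‖J (u - U u)‖ := by
  induction j with
  | zero => simp
  | succ j ih =>
    have e : u - (U ^ (j + 1)) u = (u - U u) + U (u - (U ^ j) u) := by
      rw [pow_succ', ContinuousLinearMap.mul_apply, map_sub]
      abel
    rw [e, map_add]
    refine (norm_add_le _ _).trans ?_
    rw [hK.norm_unitary hU h, Nat.cast_succ]
    linarith

theorem inc_st : IncSt X Y := by
  intro J K U B L j c φ ε u G hK hU h hL hc hB hφ hu hG hε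
  have hV : U ^ j ∈ unitary (X →L[ℂ] X) := pow_mem hU j
  have hVK : Commute (U ^ j) K := h.pow_left j
  have hVU : Commute (U ^ j) U := (Commute.refl U).pow_left j
  have hd : (U ^ j) (K (dq L U u)) = K (dq L U ((U ^ j) u)) := by
    rw [← ContinuousLinearMap.mul_apply, hVK.eq, ContinuousLinearMap.mul_apply, dq_apply,
      dq_apply, map_smul (U ^ j), map_sub, ← ContinuousLinearMap.mul_apply (U ^ j) U, hVU.eq,
      ContinuousLinearMap.mul_apply]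
  obtain ⟨d, hdd⟩ : ∃ d, d = u - (U ^ j) u := ⟨_, rfl⟩
  have e : K (dq L U d) + B d = G - (U ^ j) G - (B ((U ^ j) u) - (U ^ j) (B u)) := by
    rw [hdd, ← hu, map_add, hd, map_sub, map_sub, map_sub]
    abel
  have h1 := hK.norm_sol hU h (r := L) (Nat.cast_nonneg L) hB d
  rw [e, inner_sub_right, inner_sub_right, Complex.sub_re, Complex.sub_re] at h1
  have h2 : |(⟪d, G⟫_ℂ).re| ≤ φ * ‖J d‖ := (Complex.abs_re_le_norm _).trans (hG d)
  have h3 : |(⟪d, (U ^ j) G⟫_ℂ).re| ≤ φ * ‖J d‖ := by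
    rw [← ContinuousLinearMap.adjoint_inner_left, ← ContinuousLinearMap.star_eq_adjoint,
      ← hK.norm_unitary (Unitary.star_mem hV) (commute_star hV hVK) d]
    exact (Complex.abs_re_le_norm _).trans (hG _)
  have h4 : |(⟪d, B ((U ^ j) u) - (U ^ j) (B u)⟫_ℂ).re| ≤ ‖d‖ * ε :=
    ((Complex.abs_re_le_norm _).trans (norm_inner_le_norm _ _)).trans
      (mul_le_mul_of_nonneg_left hε (norm_nonneg _))
  have hL0 : (0 : ℝ) < L := by exact_mod_cast hL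
  have h5 : ‖J d‖ ≤ j / L * ‖J (dq L U u)‖ := by
    rw [hdd, dq_apply, map_smul, norm_smul, Complex.norm_real, Real.norm_eq_abs, abs_of_pos hL0,
      ← mul_assoc, div_mul_cancel₀ _ hL0.ne']
    exact tel_Inc hK hU h u j
  have h6 : c * ‖d‖ ^ 2 ≤ 2 * (φ * (j / L * ‖J (dq L U u)‖)) + ‖d‖ * ε := by
    have := mul_le_mul_of_nonneg_left h5 hφ
    linarith [le_abs_self (⟪d, G⟫_ℂ).re, neg_abs_le (⟪d, (U ^ j) G⟫_ℂ).re,
      neg_abs_le (⟪d, B ((U ^ j) u) - (U ^ j) (B u)⟫_ℂ).re]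
  rw [norm_sub_rev, ← hdd]
  have h7 := mul_le_mul_of_nonneg_left h6 hc.le
  nlinarith [sq_nonneg (c * ‖d‖ - ε)]

end Pool.Agent.MP_954c34_an.Rank

end

section
set_option linter.all false

open MeasureTheory Set
open scoped InnerProductSpace ComplexConjugate

noncomputable section

namespace Pool.Agent.MP_954c34_an.Rank

open Pool.Agent.MP_954c34_an.Sharp

variable {X Y : Type} [NormedAddCommGroup X] [InnerProductSpace ℂ X] [CompleteSpace X]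
  [NormedAddCommGroup Y] [InnerProductSpace ℂ Y] [CompleteSpace Y]

lemma ap_Abs {S S' : X →L[ℂ] X} (h : Commute S S') (x : X) : S (S' x) = S' (S x) := by
  rw [← ContinuousLinearMap.mul_apply, h.eq, ContinuousLinearMap.mul_apply]

lemma key_Abs {K U B P E Z : X →L[ℂ] X} {L n : ℕ} {Bi Δ : Fin n → X →L[ℂ] X}
    {W : ℕ → X →L[ℂ] X} (UK : Commute U K) (UP : Commute U P) (UB : ∀ i, Commute U (Bi i))
    (EW : ∀ j, Commute E (W j)) (ΔW : ∀ i j, Commute (Δ i) (W j))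
    (hΔ : E * (B - P) = ∑ i, Δ i * E * Bi i)
    (hid : ∀ y η : ℕ → X, (∀ j < L, K ((L : ℂ) • (y j - y (j + 1))) + B (y j) = η j) →
      (L : ℂ) • (y 0 - y 1) = ∑ j ∈ Finset.range L, W j (η j) + Z (y L))
    {v G : X} (hv : K (dq L U v) + P v = G) :
    E (∑ j ∈ Finset.range L, W j ((U ^ j) G)) = E (dq L U v) -
      ∑ i, Δ i (E (∑ j ∈ Finset.range L, W j ((U ^ j) (Bi i v)))) - E (Z ((U ^ L) v)) := by
  have hdq : dq L U v = (L : ℂ) • (v - U v) := by rw [dq_apply, Complex.ofReal_natCast]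
  have h := hid (fun j => (U ^ j) v) (fun j => (U ^ j) G + (B - P) ((U ^ j) v)) fun j _ => by
    have e1 : (L : ℂ) • ((U ^ j) v - (U ^ (j + 1)) v) = (U ^ j) (dq L U v) := by
      rw [hdq, map_smul, map_sub, pow_succ, ContinuousLinearMap.mul_apply]
    rw [e1, ← ap_Abs (UK.pow_left j), ← hv, map_add, ap_Abs (UP.pow_left j),
      ContinuousLinearMap.sub_apply]
    abel
  simp only [pow_zero, pow_one, ContinuousLinearMap.one_apply] at h
  have e2 : ∀ j, E (W j ((B - P) ((U ^ j) v))) = ∑ i, Δ i (E (W j ((U ^ j) (Bi i v)))) := by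
    intro j
    rw [ap_Abs (EW j), ← ContinuousLinearMap.mul_apply E, hΔ, ContinuousLinearMap.sum_apply,
      map_sum]
    refine Finset.sum_congr rfl fun i _ => ?_
    rw [ContinuousLinearMap.mul_apply, ContinuousLinearMap.mul_apply, ← ap_Abs (ΔW i j),
      ← ap_Abs (EW j), ap_Abs ((UB i).pow_left j)]
  have e3 : E (∑ j ∈ Finset.range L, W j ((B - P) ((U ^ j) v))) =
      ∑ i, Δ i (E (∑ j ∈ Finset.range L, W j ((U ^ j) (Bi i v)))) := by
    simp only [map_sum, e2]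
    exact Finset.sum_comm
  rw [hdq, h, ← e3]
  simp only [map_add, Finset.sum_add_distrib]
  abel

lemma unit_Abs {U : X →L[ℂ] X} (hU : U ∈ unitary (X →L[ℂ] X)) (j : ℕ) (x : X) :
    ‖(U ^ j) x‖ = ‖x‖ :=
  ContinuousLinearMap.norm_map_of_mem_unitary (pow_mem hU j) x

theorem abs_st (h1 : HalfSt X Y) (h2 : AutoSt X Y) : AbsSt X Y := by
  intro c Λ κ j0 hc hκ
  obtain ⟨k0, hk0, hA⟩ := h2 c Λ j0 hc
  set a : ℝ := k0 + √Λ / c with ha
  have ha0 : 0 ≤ a := by positivity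
  refine ⟨k0 + c * a * k0 + √Λ * k0, by positivity, ?_⟩
  intro γ M J K U L B n Bi Γ E P Δ δ W Z G φ m S hL hJ R hφ hG
  have hr : (0 : ℝ) ≤ L := Nat.cast_nonneg L
  obtain ⟨T, hT⟩ := h1 J K U L S.gram S.unit S.UK hr
  set Ps : X →L[ℂ] X := E m * ∑ j ∈ Finset.range L, W j * U ^ j with hPs
  have hPa : ∀ x, E m (∑ j ∈ Finset.range L, W j ((U ^ j) x)) = Ps x := fun x => by
    rw [hPs, ContinuousLinearMap.mul_apply, ContinuousLinearMap.sum_apply]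
    rfl
  have hE := R.comm (E m) (S.Ecomm m).1 (S.Ecomm m).2
  have est : ∀ ψ : ℝ, 0 ≤ ψ → (∀ x, ‖J (Ps x)‖ ≤ ψ * ‖T x‖) → ∀ v G,
      K (dq L U v) + P m v = G →
      ‖J (Ps G)‖ ≤ ‖J (dq L U v)‖ + c / 2 * ψ * ‖T v‖ + √Λ * ‖T v‖ := by
    intro ψ hψ hb v G hv
    have hk := key_Abs S.UK (S.UP m) S.UBi hE.1
      (fun i j => (R.comm (Δ m i) (S.Δcomm m i).1 (S.Δcomm m i).2).1 j) (S.Δeq m) R.ident hv
    simp only [hPa] at hk
    have b1 := S.EJ m (dq L U v)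
    have b2 : ‖J (∑ i, Δ m i (Ps (Bi i v)))‖ ≤ c / 2 * ψ * ‖T v‖ := by
      refine (sq_le_sq₀ (norm_nonneg _) (by positivity)).1 ?_
      have s1 : ∑ i, ‖J (Ps (Bi i v))‖ ^ 2 ≤ ψ ^ 2 * ∑ i, ‖Bi i (T v)‖ ^ 2 := by
        rw [Finset.mul_sum]
        refine Finset.sum_le_sum fun i _ => ?_
        rw [← mul_pow, ← ap_Abs (hT.comm _ (S.UBi i))]
        exact pow_le_pow_left₀ (norm_nonneg _) (hb _) 2
      have s2 := S.col (T v)
      have s3 := S.Δrow m fun i => Ps (Bi i v)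
      have s4 := S.small
      have s5 := S.δpos
      calc _ ≤ δ * (ψ ^ 2 * (κ * ‖T v‖ ^ 2)) :=
            s3.trans (mul_le_mul_of_nonneg_left
              (s1.trans (mul_le_mul_of_nonneg_left s2 (sq_nonneg _))) s5)
        _ = (4 * δ * κ) * (ψ ^ 2 * ‖T v‖ ^ 2 / 4) := by ring
        _ ≤ c ^ 2 * (ψ ^ 2 * ‖T v‖ ^ 2 / 4) :=
            mul_le_mul_of_nonneg_right s4 (by positivity)
        _ = _ := by ring
    have b3 : ‖J (E m (Z ((U ^ L) v)))‖ ≤ √Λ * ‖T v‖ := by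
      refine (S.EJ m _).trans ?_
      have s1 := R.bdry ((U ^ L) v)
      rw [unit_Abs S.unit] at s1
      have s2 : ‖J (Z ((U ^ L) v))‖ ≤ √Λ * ‖v‖ := by
        refine (sq_le_sq₀ (norm_nonneg _) (by positivity)).1 (s1.trans ?_)
        rw [mul_pow, Real.sq_sqrt ((norm_nonneg _).trans S.bound)]
      exact s2.trans (mul_le_mul_of_nonneg_left (hT.low v) (Real.sqrt_nonneg _))
    rw [hk, map_sub, map_sub]
    have t1 := norm_sub_le (J (E m (dq L U v)) - J (∑ i, Δ m i (Ps (Bi i v))))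
      (J (E m (Z ((U ^ L) v))))
    have t2 := norm_sub_le (J (E m (dq L U v))) (J (∑ i, Δ m i (Ps (Bi i v))))
    linarith
  have aut := fun v G hv => hA J K U L T (P m) v G S.gram S.unit S.UK hr hT (S.UP m) (S.Pcoer m)
    (S.Pbound m) hJ hv
  have step : ∀ ψ : ℝ, 0 ≤ ψ → (∀ x, ‖J (Ps x)‖ ≤ ψ * ‖T x‖) →
      ∀ x, ‖J (Ps x)‖ ≤ (a + ψ / 2) * ‖T x‖ := by
    intro ψ hψ hb x
    obtain ⟨v, hv⟩ := S.gram.exists_sol S.unit S.UK hr hc (S.Pcoer m) x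
    obtain ⟨⟨q1, q2⟩, -⟩ := aut v x hv
    have q3 := est ψ hψ hb v x hv
    have q4 : c / 2 * ψ * ‖T v‖ ≤ ψ / 2 * ‖T x‖ := by
      have := mul_le_mul_of_nonneg_left q1 (show 0 ≤ ψ / 2 by positivity)
      linarith
    have q5 : √Λ * ‖T v‖ ≤ √Λ / c * ‖T x‖ := by
      have := mul_le_mul_of_nonneg_left q1 (show 0 ≤ √Λ / c by positivity)
      have e : √Λ / c * (c * ‖T v‖) = √Λ * ‖T v‖ := by field_simp
      linarith
    rw [ha]
    linarith
  have ind : ∀ N : ℕ, ∀ x, ‖J (Ps x)‖ ≤ (2 * a + ‖J‖ * ‖Ps‖ * (1 / 2) ^ N) * ‖T x‖ := by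
    intro N
    induction N with
    | zero =>
      intro x
      have s1 : ‖J (Ps x)‖ ≤ ‖J‖ * (‖Ps‖ * ‖T x‖) :=
        (J.le_opNorm _).trans (mul_le_mul_of_nonneg_left ((Ps.le_opNorm x).trans
          (mul_le_mul_of_nonneg_left (hT.low x) (norm_nonneg _))) (norm_nonneg _))
      have s2 : 0 ≤ 2 * a * ‖T x‖ := by positivity
      rw [pow_zero]
      linarith
    | succ N ih =>
      intro x
      refine (step _ (by positivity) ih x).trans (le_of_eq ?_)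
      ring
  have lim : ∀ x, ‖J (Ps x)‖ ≤ 2 * a * ‖T x‖ := by
    intro x
    have t := (((tendsto_pow_atTop_nhds_zero_of_lt_one (r := (1 / 2 : ℝ)) (by norm_num)
      (by norm_num)).const_mul (‖J‖ * ‖Ps‖)).const_add (2 * a)).mul_const ‖T x‖
    rw [mul_zero, add_zero] at t
    exact ge_of_tendsto' t fun N => ind N x
  obtain ⟨v, hv⟩ := S.gram.exists_sol S.unit S.UK hr hc (S.Pcoer m) G
  obtain ⟨q1, q2⟩ := (aut v G hv).2 φ hφ hG
  have q3 := est (2 * a) (by positivity) lim v G hv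
  have q4 := mul_le_mul_of_nonneg_left q1 (show 0 ≤ c * a by positivity)
  have q5 := mul_le_mul_of_nonneg_left q1 (Real.sqrt_nonneg Λ)
  rw [hPa]
  linarith

end Pool.Agent.MP_954c34_an.Rank

end

section
set_option linter.all false

open MeasureTheory Set
open scoped InnerProductSpace ComplexConjugate

noncomputable section

namespace Pool.Agent.MP_954c34_an.Rank

open Pool.Agent.MP_954c34_an.Sharp

variable {X Y : Type} [NormedAddCommGroup X] [InnerProductSpace ℂ X] [CompleteSpace X]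
  [NormedAddCommGroup Y] [InnerProductSpace ℂ Y] [CompleteSpace Y]

lemma sum_inv_sqrt_Disc (L : ℕ) : ∑ j ∈ Finset.range (L + 1), 1 / √(j : ℝ) ≤ 2 * √(L : ℝ) := by
  induction L with
  | zero => simp
  | succ L ih =>
    rw [Finset.sum_range_succ]
    have hp : 0 < √((L + 1 : ℕ) : ℝ) := Real.sqrt_pos.2 (by positivity)
    have h1 : √((L + 1 : ℕ) : ℝ) ^ 2 = (L : ℝ) + 1 := by
      rw [Real.sq_sqrt (by positivity)]; push_cast; ring
    have h2 : √(L : ℝ) ^ 2 = (L : ℝ) := Real.sq_sqrt (by positivity)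
    have h3 : 1 / √((L + 1 : ℕ) : ℝ) ≤ 2 * √((L + 1 : ℕ) : ℝ) - 2 * √(L : ℝ) := by
      rw [div_le_iff₀ hp]
      nlinarith [sq_nonneg (√((L + 1 : ℕ) : ℝ) - √(L : ℝ))]
    linarith

lemma sum_bound_Disc (L : ℕ) (hL : 1 ≤ L) (N : ℕ → ℝ) (D : ℝ) (hD : 0 ≤ D) (h0 : N 0 ≤ 0)
    (h : ∀ j : ℕ, 1 ≤ j → ((L : ℝ) * j) * N j ^ 2 ≤ D) :
    ∑ j ∈ Finset.range L, N j ≤ 2 * √D := by
  have hL' : (0 : ℝ) < L := by exact_mod_cast hL
  have hp : 0 < √(L : ℝ) := Real.sqrt_pos.2 hL'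
  have hj : ∀ j : ℕ, N j ≤ √D / √(L : ℝ) * (1 / √(j : ℝ)) := by
    intro j
    rcases Nat.eq_zero_or_pos j with rfl | hj
    · simpa using h0
    · have hj' : (0 : ℝ) < j := by exact_mod_cast hj
      have h1 : N j ^ 2 ≤ D / (L * j) := by
        rw [le_div_iff₀ (by positivity), mul_comm]; exact h j hj
      have h2 := Real.le_sqrt_of_sq_le h1
      rw [Real.sqrt_div hD, Real.sqrt_mul hL'.le] at h2
      refine h2.trans (le_of_eq ?_)
      rw [div_mul_div_comm, mul_one]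
  calc ∑ j ∈ Finset.range L, N j
      ≤ ∑ j ∈ Finset.range L, √D / √(L : ℝ) * (1 / √(j : ℝ)) := Finset.sum_le_sum fun j _ => hj j
    _ = √D / √(L : ℝ) * ∑ j ∈ Finset.range L, 1 / √(j : ℝ) := by rw [Finset.mul_sum]
    _ ≤ √D / √(L : ℝ) * (2 * √(L : ℝ)) := by
        refine mul_le_mul_of_nonneg_left ?_ (by positivity)
        have := sum_inv_sqrt_Disc L
        rw [Finset.sum_range_succ] at this
        have h3 : 0 ≤ 1 / √(L : ℝ) := by positivity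
        linarith
    _ = 2 * √D := by field_simp

lemma amgm_Disc (a b x : ℝ) (ha : 0 ≤ a) (hb : 0 ≤ b) (hx : 0 ≤ x) :
    2 * √(a * x + b) ≤ x / 2 + (b + 2 * a + 1) := by
  have h1 : √(a * x + b) ^ 2 = a * x + b := Real.sq_sqrt (by positivity)
  have h2 := Real.sqrt_nonneg (a * x + b)
  set s := √(a * x + b)
  have ht : 0 < 2 * a + 1 := by positivity
  have h3 : (2 * a + 1) * (2 * s) ≤ (2 * a + 1) * (x / 2 + (b + 2 * a + 1)) := by
    nlinarith [sq_nonneg (s - (2 * a + 1)), mul_nonneg ha hb]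
  exact le_of_mul_le_mul_left h3 ht

theorem disc_st (h2 : IncSt X Y) (h3 : AbsSt X Y) : DiscSt X Y := by
  intro c Λ κ γ j0 φ M hc hκ hγ hφ
  obtain ⟨k, hk, hk'⟩ := h3 c Λ κ j0 hc hκ
  obtain ⟨R, hR⟩ : ∃ R : ℝ, R = φ * |j0| / c := ⟨_, rfl⟩
  have hR0 : 0 ≤ R := by rw [hR]; positivity
  obtain ⟨a, ha⟩ : ∃ a : ℝ, a = 27 * γ * κ * (4 * c * φ) / c ^ 3 := ⟨_, rfl⟩
  obtain ⟨b, hb⟩ : ∃ b : ℝ, b = 27 * γ * κ * (γ * κ * R ^ 2) / c ^ 3 := ⟨_, rfl⟩
  have ha0 : 0 ≤ a := by rw [ha]; positivity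
  have hb0 : 0 ≤ b := by rw [hb]; positivity
  refine ⟨2 * (M * (k * φ) + √(γ * κ * R ^ 2 / c) + (b + 2 * a + 1) + √(|Λ| * R ^ 2)), ?_⟩
  intro J K U L B n Bi Γ E P Δ δ u G S h1 hL hJ hG heq
  have hL' : (0 : ℝ) < L := by exact_mod_cast hL
  obtain ⟨W, Z, hW⟩ := h1
  have hu : ‖u‖ ≤ R := by
    have e1 := S.gram.norm_sol S.unit S.UK hL'.le S.coer u
    rw [heq] at e1
    have e2 : (⟪u, G⟫_ℂ).re ≤ φ * ‖J u‖ := (Complex.re_le_norm _).trans (hG u)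
    have e3 : ‖J u‖ ≤ |j0| * ‖u‖ :=
      (J.le_opNorm u).trans (mul_le_mul_of_nonneg_right (hJ.trans (le_abs_self _)) (norm_nonneg _))
    have e4 : c * ‖u‖ ^ 2 ≤ φ * (|j0| * ‖u‖) :=
      e1.trans (e2.trans (mul_le_mul_of_nonneg_left e3 hφ))
    rcases (norm_nonneg u).eq_or_lt with h0 | h0
    · rw [← h0]; exact hR0
    · rw [hR, le_div_iff₀ hc]
      refine le_of_mul_le_mul_right ?_ h0
      nlinarith
  have hu2 : ‖u‖ ^ 2 ≤ R ^ 2 := pow_le_pow_left₀ (norm_nonneg _) hu 2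
  have hUn : ∀ (j : ℕ) (x : X), ‖(U ^ j) x‖ = ‖x‖ := fun j x =>
    ContinuousLinearMap.norm_map_of_mem_unitary (pow_mem S.unit j) x
  have hΓ : ∀ j : ℕ, B ((U ^ j) u) - (U ^ j) (B u) = ∑ i, Γ j i (Bi i ((U ^ j) u)) := by
    intro j
    have := congrArg (fun T : X →L[ℂ] X => T u) (S.Γeq j)
    simpa only [ContinuousLinearMap.sub_apply, ContinuousLinearMap.mul_apply,
      ContinuousLinearMap.sum_apply] using this
  have hrow : ∀ (j : ℕ) (x : X), L * ‖∑ i, Γ j i (Bi i x)‖ ^ 2 ≤ γ * j * (κ * ‖x‖ ^ 2) :=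
    fun j x => (S.Γrow j fun i => Bi i x).trans
      (mul_le_mul_of_nonneg_left (S.col x) (by positivity))
  have hdq : dq L U u = (L : ℂ) • (u - U u) := by rw [dq_apply, Complex.ofReal_natCast]
  have hid := hW.ident (fun j => (U ^ j) u)
    (fun j => (U ^ j) G + ∑ i, Γ j i (Bi i ((U ^ j) u))) (by
      intro j _
      have e1 : (L : ℂ) • ((U ^ j) u - (U ^ (j + 1)) u) = (U ^ j) (dq L U u) := by
        rw [hdq, map_smul, map_sub, pow_succ, ContinuousLinearMap.mul_apply]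
      have e2 : K ((U ^ j) (dq L U u)) = (U ^ j) (K (dq L U u)) := by
        rw [← ContinuousLinearMap.mul_apply, ← (S.UK.pow_left j).eq, ContinuousLinearMap.mul_apply]
      rw [e1, e2, ← hΓ, ← heq, map_add]
      abel)
  simp only [pow_zero, pow_one, ContinuousLinearMap.one_apply] at hid
  rw [← hdq] at hid
  have hsplit : ∑ j ∈ Finset.range L, W j ((U ^ j) G + ∑ i, Γ j i (Bi i ((U ^ j) u))) =
      ∑ j ∈ Finset.range L, W j ((U ^ j) G) +
        ∑ j ∈ Finset.range L, W j (∑ i, Γ j i (Bi i u)) +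
        ∑ j ∈ Finset.range L, W j (∑ i, Γ j i (Bi i ((U ^ j) u - u))) := by
    rw [← Finset.sum_add_distrib, ← Finset.sum_add_distrib]
    refine Finset.sum_congr rfl fun j _ => ?_
    rw [← map_add, ← map_add, add_assoc, ← Finset.sum_add_distrib]
    congr 2
    refine Finset.sum_congr rfl fun i _ => ?_
    rw [← map_add, ← map_add, add_sub_cancel]
  have b1 : ‖J (∑ j ∈ Finset.range L, W j ((U ^ j) G))‖ ≤ M * (k * φ) := by
    have e1 : ∀ s : X, J s = ∑ m, J (E m s) := by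
      intro s
      rw [← map_sum, ← ContinuousLinearMap.sum_apply, S.Esum, ContinuousLinearMap.one_apply]
    rw [e1]
    refine (norm_sum_le _ _).trans ?_
    refine (Finset.sum_le_sum fun m _ =>
      hk' γ M J K U L B n Bi Γ E P Δ δ W Z G φ m S hL hJ hW hφ hG).trans (le_of_eq ?_)
    simp
  have b2 : ‖J (∑ j ∈ Finset.range L, W j (∑ i, Γ j i (Bi i u)))‖ ≤ √(γ * κ * R ^ 2 / c) := by
    refine Real.le_sqrt_of_sq_le ?_
    rw [le_div_iff₀ hc, mul_comm]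
    refine (hW.square n Γ γ hγ S.Γcomm S.Γrow fun i => Bi i u).trans ?_
    rw [mul_assoc]
    exact mul_le_mul_of_nonneg_left
      ((S.col u).trans (mul_le_mul_of_nonneg_left hu2 hκ)) hγ
  have b4 : ‖J (Z ((U ^ L) u))‖ ≤ √(|Λ| * R ^ 2) := by
    refine Real.le_sqrt_of_sq_le ((hW.bdry _).trans ?_)
    rw [hUn]
    exact mul_le_mul (le_abs_self _) hu2 (by positivity) (abs_nonneg _)
  obtain ⟨x, hx⟩ : ∃ x : ℝ, x = ‖J (dq L U u)‖ := ⟨_, rfl⟩
  have hx0 : 0 ≤ x := by rw [hx]; positivity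
  have b3 : ‖J (∑ j ∈ Finset.range L, W j (∑ i, Γ j i (Bi i ((U ^ j) u - u))))‖ ≤
      2 * √(a * x + b) := by
    rw [map_sum]
    refine (norm_sum_le _ _).trans ?_
    refine sum_bound_Disc L hL (fun j => ‖J (W j (∑ i, Γ j i (Bi i ((U ^ j) u - u))))‖) _
      (by positivity) (by simp) ?_
    intro j hj
    have hj' : (0 : ℝ) < j := by exact_mod_cast hj
    have e1 := hW.decay j hj (∑ i, Γ j i (Bi i ((U ^ j) u - u)))
    have e2 := hrow j ((U ^ j) u - u)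
    have e3 := h2 J K U B L j c φ _ u G S.gram S.unit S.UK hL hc S.coer hφ heq hG le_rfl
    have e4 := hrow j ((U ^ j) u)
    rw [← hΓ, hUn] at e4
    rw [← hx] at e3
    generalize ‖J (W j (∑ i, Γ j i (Bi i ((U ^ j) u - u))))‖ ^ 2 = N at e1 ⊢
    generalize ‖∑ i, Γ j i (Bi i ((U ^ j) u - u))‖ ^ 2 = p at e1 e2
    generalize ‖(U ^ j) u - u‖ ^ 2 = d at e2 e3
    generalize ‖B ((U ^ j) u) - (U ^ j) (B u)‖ ^ 2 = ε at e3 e4
    have e5 : L * ε ≤ γ * j * (κ * R ^ 2) :=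
      e4.trans (mul_le_mul_of_nonneg_left (mul_le_mul_of_nonneg_left hu2 hκ) (by positivity))
    have e6 : L * (c ^ 2 * d) ≤ j * (4 * c * φ * x + γ * κ * R ^ 2) := by
      have := mul_le_mul_of_nonneg_left e3 hL'.le
      have e7 : (L : ℝ) * (4 * c * φ * (j / L) * x + ε) = j * (4 * c * φ * x) + L * ε := by
        field_simp
      rw [e7] at this
      nlinarith
    have e8 : c * (j : ℝ) ^ 3 * N ≤ 27 * (γ * j * (κ * d)) := by nlinarith
    have e9 : a * x + b = 27 * γ * κ * (4 * c * φ * x + γ * κ * R ^ 2) / c ^ 3 := by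
      rw [ha, hb]; field_simp
    rw [e9, le_div_iff₀ (by positivity)]
    have hj2 : (0 : ℝ) < (j : ℝ) ^ 2 := by positivity
    refine le_of_mul_le_mul_left ?_ hj2
    have e10 := mul_le_mul_of_nonneg_left e8 (by positivity : (0 : ℝ) ≤ L * c ^ 2)
    have e11 := mul_le_mul_of_nonneg_left e6 (by positivity : (0 : ℝ) ≤ 27 * γ * κ * j)
    calc (j : ℝ) ^ 2 * (L * j * N * c ^ 3) = L * c ^ 2 * (c * (j : ℝ) ^ 3 * N) := by ring
      _ ≤ L * c ^ 2 * (27 * (γ * j * (κ * d))) := e10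
      _ = 27 * γ * κ * j * (L * (c ^ 2 * d)) := by ring
      _ ≤ 27 * γ * κ * j * (j * (4 * c * φ * x + γ * κ * R ^ 2)) := e11
      _ = _ := by ring
  have b5 := amgm_Disc a b x ha0 hb0 hx0
  have hfin : x ≤ M * (k * φ) + √(γ * κ * R ^ 2 / c) + 2 * √(a * x + b) + √(|Λ| * R ^ 2) := by
    conv_lhs => rw [hx, hid, hsplit, map_add, map_add, map_add]
    exact (norm_add_le _ _).trans (add_le_add ((norm_add_le _ _).trans
      (add_le_add ((norm_add_le _ _).trans (add_le_add b1 b2)) b3)) b4)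
  rw [← hx]
  linarith

end Pool.Agent.MP_954c34_an.Rank

end

section
set_option linter.all false

open MeasureTheory Set
open scoped InnerProductSpace ComplexConjugate

noncomputable section

namespace Pool.Agent.MP_954c34_an.Rank

open Pool.Agent.MP_954c34_an.Sharp

variable {V H : Type} [NormedAddCommGroup V] [InnerProductSpace ℂ V] [CompleteSpace V]
  [NormedAddCommGroup H] [InnerProductSpace ℂ H] [CompleteSpace H]

lemma cg_Inst {A : LL V →L[ℂ] LL V} {a a' : ℝ → V →L[ℂ] V} (h : Giv A a) (e : ∀ t, a t = a' t) :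
    Giv A a' := funext e ▸ h

lemma cst_Inst (hA : GivASt V) (S : V →L[ℂ] V) : ∃ A, Giv A fun _ => S :=
  (hA.ex (fun _ => 1) 1 S measurable_const fun _ => by simp).imp fun _ h =>
    cg_Inst h fun _ => by simp

lemma sc_Inst (hA : GivASt V) {n : ℕ} {φ : Fin n → ℝ → ℝ} {δ : ℝ} (hm : ∀ i, Measurable (φ i))
    (h : ∀ t, ∑ i, φ i t ^ 2 ≤ δ) :
    ∃ A : Fin n → LL V →L[ℂ] LL V, ∀ i, Giv (A i) fun t => (φ i t : ℂ) • 1 := by
  have h1 : ∀ i, ∃ A, Giv A fun t => (φ i t : ℂ) • (1 : V →L[ℂ] V) := fun i =>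
    hA.ex (φ i) (δ + 1) 1 (hm i) fun t => by
      have h2 := (Finset.single_le_sum (f := fun i => φ i t ^ 2) (fun i _ => sq_nonneg _)
        (Finset.mem_univ i)).trans (h t)
      rw [← sq_abs] at h2
      nlinarith [sq_nonneg (|φ i t| - 1)]
  choose A hA using h1
  exact ⟨A, hA⟩

lemma cm_Inst (hA : GivASt V) {A A' : LL V →L[ℂ] LL V} {φ : ℝ → ℝ} {a : ℝ → V →L[ℂ] V}
    (h : Giv A fun t => (φ t : ℂ) • 1) (h' : Giv A' a) : Commute A A' :=
  hA.comm h h' fun _ => (Commute.one_left _).smul_left _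

theorem inst_st (hA : GivASt V) (hB : GivBSt V H) : InstSt V H := by
  intro T c κ γ hT hc hκ hγ
  obtain ⟨τ, hτ⟩ : ∃ τ, τ = c ^ 2 / (4 * γ * κ + 1) := ⟨_, rfl⟩
  have τ0 : 0 < τ := by rw [hτ]; positivity
  have small : 4 * (γ * τ) * κ ≤ c ^ 2 := by
    rw [eq_div_iff (by positivity)] at hτ
    nlinarith
  refine ⟨⌊T / τ⌋₊ + 1, fun val Λ B n Bi g A L hF hG hL => ?_⟩
  have L0 : (0 : ℝ) < L := by exact_mod_cast hL
  obtain ⟨K, hK, gK⟩ := hB.gram val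
  choose Ai gAi using fun i => cst_Inst hA (Bi i)
  choose P gP using fun m : Fin (⌊T / τ⌋₊ + 1) => cst_Inst hA (B (m * τ))
  have gm : ∀ i, Measurable fun t => g t i := fun i => (hF.cont i).measurable
  have hΓ : ∀ (j : ℕ) t, ∑ i, (g t i - g (t - j * (1 / L)) i) ^ 2 ≤ γ * (j * (1 / L)) :=
    fun j t => (hF.hol _ _).trans_eq (by rw [sub_sub_cancel, abs_of_nonneg (by positivity)])
  choose Γ gΓ using fun j : ℕ => sc_Inst hA (φ := fun i t => g t i - g (t - j * (1 / L)) i)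
    (fun i => (gm i).sub ((gm i).comp (measurable_id.sub_const _))) (hΓ j)
  obtain ⟨k, hk⟩ : ∃ k : ℝ → ℕ, ∀ t, k t = ⌊max 0 (min t T) / τ⌋₊ := ⟨_, fun _ => rfl⟩
  have km : Measurable k := by
    rw [funext hk]
    exact Nat.measurable_floor.comp (by fun_prop)
  obtain ⟨e, he⟩ : ∃ e : Fin (⌊T / τ⌋₊ + 1) → ℝ → ℝ, ∀ m t, e m t = if k t = m then 1 else 0 :=
    ⟨_, fun _ _ => rfl⟩
  have em : ∀ m, Measurable (e m) := fun m => by
    rw [funext (he m)]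
    exact Measurable.ite (km (measurableSet_singleton _)) measurable_const measurable_const
  have e1 : ∀ m t, ∑ _i : Fin 1, e m t ^ 2 ≤ 1 := fun m t => by
    rw [he]
    split_ifs <;> simp
  choose E gE using fun m => sc_Inst hA (φ := fun _ : Fin 1 => e m) (fun _ => em m) (e1 m)
  have hΔ : ∀ m t, ∑ i, (e m t * (g t i - g (m * τ) i)) ^ 2 ≤ γ * τ := fun m t => by
    rw [he]
    split_ifs with h
    · simp only [one_mul]
      rw [hF.clamp t]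
      refine (hF.hol _ _).trans (mul_le_mul_of_nonneg_left ?_ hγ)
      have h1 := Nat.floor_le (div_nonneg (le_max_left 0 (min t T)) τ0.le)
      have h2 := Nat.lt_floor_add_one (max 0 (min t T) / τ)
      rw [← hk, h] at h1 h2
      rw [le_div_iff₀ τ0] at h1
      rw [div_lt_iff₀ τ0] at h2
      exact abs_le.2 ⟨by linarith, by linarith⟩
    · simp only [zero_mul]
      simpa using mul_nonneg hγ τ0.le
  choose Δ gΔ using fun m => sc_Inst hA (φ := fun i t => e m t * (g t i - g (m * τ) i))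
    (fun i => (em m).mul ((gm i).sub_const _)) (hΔ m)
  refine ⟨K, Ai, Γ, fun m => E m 0, P, Δ, γ * τ, hK, sh_mem_unitary _, hA.shift _ gK gK,
    hB.coer hG hF.coer, hA.norm hG hF.bound, fun i => hA.shift _ (gAi i) (gAi i),
    hB.col gAi hF.col, fun j => ?_, fun j i => ⟨cm_Inst hA (gΓ j i) gK, cm_Inst hA (gΓ j i) hG⟩,
    fun j x => ?_, ?_, fun m => ⟨cm_Inst hA (gE m 0) gK, cm_Inst hA (gE m 0) hG⟩, fun m x => ?_,
    fun m => hA.shift _ (gP m) (gP m), fun m => hB.coer (gP m) fun _ => hF.coer _,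
    fun m => hA.norm (gP m) fun _ => hF.bound _,
    fun m i => ⟨cm_Inst hA (gΔ m i) gK, cm_Inst hA (gΔ m i) hG⟩, fun m => ?_,
    fun m x => (hB.row val (gΔ m) (hΔ m) x).2, mul_nonneg hγ τ0.le, small⟩
  · have h1 := hA.shift (j * (1 / L)) hG (cg_Inst (hA.sub hG (hA.sum fun i =>
      hA.mul (gΓ j i) (gAi i))) fun t => by
        simp only [smul_mul_assoc, one_mul]
        rw [← hF.eq, sub_sub_cancel])
    rw [sh_pow, h1, sub_mul, sub_sub_cancel, Finset.sum_mul]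
  · have h1 := mul_le_mul_of_nonneg_left (hB.row val (gΓ j) (hΓ j) x).1 L0.le
    refine h1.trans_eq ?_
    field_simp
  · refine hA.ext (hA.sum fun m => gE m 0) hA.one fun t => ?_
    have h1 : k t < ⌊T / τ⌋₊ + 1 := by
      rw [hk]
      exact Nat.lt_succ_of_le (Nat.floor_le_floor (div_le_div_of_nonneg_right
        (max_le hT.le (min_le_right _ _)) τ0.le))
    rw [Finset.sum_eq_single ⟨k t, h1⟩ (fun m _ hm => ?_) (by simp)]
    · simp [he]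
    · rw [he, if_neg fun h => hm (Fin.ext h.symm)]
      simp
  · have h1 := (hB.row val (gE m) (e1 m) fun _ => x).2
    simp only [Fin.sum_univ_one, one_mul] at h1
    exact (sq_le_sq₀ (norm_nonneg _) (norm_nonneg _)).1 h1
  · refine hA.ext (hA.mul (gE m 0) (hA.sub hG (gP m)))
      (hA.sum fun i => hA.mul (hA.mul (gΔ m i) (gE m 0)) (gAi i)) fun t => ?_
    rw [hF.eq, he]
    split_ifs <;> simp

end Pool.Agent.MP_954c34_an.Rank

end

section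
set_option linter.all false

open MeasureTheory Set
open scoped InnerProductSpace ComplexConjugate

noncomputable section

namespace Pool.Agent.MP_954c34_an.Rank

open Pool.Agent.MP_954c34_an.Sharp

variable {V : Type} [NormedAddCommGroup V] [InnerProductSpace ℂ V] [CompleteSpace V]

lemma cs_Trunc {ι : Type} {κ η : ℝ} {Bi : ι → V →L[ℂ] V} (hκ : 0 ≤ κ) (hη : 0 ≤ η)
    (hcol : ∀ (s : Finset ι) v, ∑ i ∈ s, ‖Bi i v‖ ^ 2 ≤ κ * ‖v‖ ^ 2) (b : ι → ℝ) (s : Finset ι)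
    (hb : ∑ i ∈ s, b i ^ 2 ≤ η ^ 2) (a : V) :
    ‖∑ i ∈ s, ((b i : ℝ) : ℂ) • Bi i a‖ ≤ η * √κ * ‖a‖ := by
  have h1 : ‖∑ i ∈ s, ((b i : ℝ) : ℂ) • Bi i a‖ ≤ ∑ i ∈ s, |b i| * ‖Bi i a‖ := by
    refine (norm_sum_le _ _).trans (le_of_eq (Finset.sum_congr rfl fun i _ => ?_))
    rw [norm_smul, Complex.norm_real, Real.norm_eq_abs]
  have h2 := Finset.sum_mul_sq_le_sq_mul_sq s (fun i => |b i|) fun i => ‖Bi i a‖
  simp only [sq_abs] at h2
  refine h1.trans (Real.le_sqrt_of_sq_le (h2.trans ?_) |>.trans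
    (Real.sqrt_sq (by positivity)).le)
  rw [mul_pow, mul_pow, Real.sq_sqrt hκ, mul_assoc]
  exact mul_le_mul hb (hcol s a) (Finset.sum_nonneg fun _ _ => sq_nonneg _) (sq_nonneg _)

lemma tail_Trunc {ι : Type} {κ η : ℝ} {Bi : ι → V →L[ℂ] V} (hκ : 0 ≤ κ) (hη : 0 ≤ η)
    (hcol : ∀ (s : Finset ι) v, ∑ i ∈ s, ‖Bi i v‖ ^ 2 ≤ κ * ‖v‖ ^ 2) (b : ι → ℝ)
    (D : V →L[ℂ] V) (hD : ∀ v a, HasSum (fun i => ((b i : ℝ) : ℂ) * ⟪v, Bi i a⟫_ℂ) ⟪v, D a⟫_ℂ)
    (s0 : Finset ι) (hb : ∀ s, Disjoint s s0 → ∑ i ∈ s, b i ^ 2 ≤ η ^ 2) :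
    ‖D - ∑ i ∈ s0, ((b i : ℝ) : ℂ) • Bi i‖ ≤ η * √κ := by
  classical
  refine ContinuousLinearMap.opNorm_le_bound _ (by positivity) fun a => ?_
  set w := (D - ∑ i ∈ s0, ((b i : ℝ) : ℂ) • Bi i) a with hw
  have e0 : ∀ v : V, ⟪v, w⟫_ℂ = ⟪v, D a⟫_ℂ - ∑ i ∈ s0, ((b i : ℝ) : ℂ) * ⟪v, Bi i a⟫_ℂ := by
    intro v
    rw [hw, ContinuousLinearMap.sub_apply, ContinuousLinearMap.sum_apply, inner_sub_right,
      inner_sum]
    simp only [ContinuousLinearMap.smul_apply, inner_smul_right]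
  have e := e0 w
  have lim : Filter.Tendsto (fun s : Finset ι => ‖∑ i ∈ s, ((b i : ℝ) : ℂ) * ⟪w, Bi i a⟫_ℂ -
      ∑ i ∈ s0, ((b i : ℝ) : ℂ) * ⟪w, Bi i a⟫_ℂ‖) Filter.atTop (nhds ‖⟪w, w⟫_ℂ‖) := by
    rw [e]
    exact (Filter.Tendsto.sub_const (hD w a) _).norm
  have h1 : ‖⟪w, w⟫_ℂ‖ ≤ ‖w‖ * (η * √κ * ‖a‖) := by
    refine le_of_tendsto lim ?_
    filter_upwards [Filter.eventually_ge_atTop s0] with s hs
    rw [← Finset.sum_sdiff_eq_sub hs]
    have : ∑ i ∈ s \ s0, ((b i : ℝ) : ℂ) * ⟪w, Bi i a⟫_ℂ =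
        ⟪w, ∑ i ∈ s \ s0, ((b i : ℝ) : ℂ) • Bi i a⟫_ℂ := by
      rw [inner_sum]; simp only [inner_smul_right]
    rw [this]
    exact (norm_inner_le_norm _ _).trans (mul_le_mul_of_nonneg_left
      (cs_Trunc hκ hη hcol b _ (hb _ Finset.sdiff_disjoint) a) (norm_nonneg _))
  rw [inner_self_eq_norm_sq_to_K, norm_pow, RCLike.norm_ofReal, abs_norm, sq] at h1
  rcases (norm_nonneg w).eq_or_lt with h0 | h0
  · rw [← h0]; positivity
  · exact le_of_mul_le_mul_left h1 h0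

theorem trunc_st : TruncSt V := by
  classical
  intro ι T κ γ B Bi g hT hκ hγ hcol hhol hsum ε hε
  obtain ⟨η, hη, hηε⟩ : ∃ η : ℝ, 0 < η ∧ η * √κ ≤ ε := by
    have h0 : 0 < √κ + 1 := by positivity
    refine ⟨ε / (√κ + 1), by positivity, ?_⟩
    rw [div_mul_eq_mul_div, div_le_iff₀ h0]
    nlinarith [Real.sqrt_nonneg κ]
  obtain ⟨ρ, hρ, hρη⟩ : ∃ ρ : ℝ, 0 < ρ ∧ γ * ρ ≤ η ^ 2 / 4 := by
    have h0 : 0 < γ + 1 := by positivity
    refine ⟨η ^ 2 / 4 / (γ + 1), by positivity, ?_⟩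
    rw [← mul_div_assoc, div_le_iff₀ h0]
    nlinarith [sq_nonneg η]
  have h0 : (0 : ℝ) ∈ Icc 0 T := ⟨le_rfl, hT.le⟩
  have hs0 : ∀ r : ℝ, ∃ s0 : Finset ι, r ∈ Icc 0 T → ∀ s, Disjoint s s0 →
      ∑ i ∈ s, (g r i - g 0 i) ^ 2 ≤ η ^ 2 / 4 := by
    intro r
    by_cases hr : r ∈ Icc 0 T
    · have hs : Summable fun i => (g r i - g 0 i) ^ 2 :=
        summable_of_sum_le (fun _ => sq_nonneg _) fun s => hhol s r hr 0 h0
      obtain ⟨s0, h⟩ := summable_iff_vanishing_norm.1 hs (η ^ 2 / 4) (by positivity)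
      exact ⟨s0, fun _ s hs => (le_abs_self _).trans (h s hs).le⟩
    · exact ⟨∅, fun h => (hr h).elim⟩
  choose s0 hs0 using hs0
  obtain ⟨N, hN, hfin, hcov⟩ := finite_cover_balls_of_compact (isCompact_Icc (a := 0) (b := T)) hρ
  refine ⟨hfin.toFinset.biUnion s0, fun t ht => ?_⟩
  obtain ⟨r, hr, htr⟩ := mem_iUnion₂.1 (hcov ht)
  refine (tail_Trunc hκ hη.le hcol (fun i => g t i - g 0 i) (B t - B 0) (fun v a => ?_) _
    fun s hs => ?_).trans hηε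
  · rw [ContinuousLinearMap.sub_apply, inner_sub_right]
    exact hsum t ht v a
  · have h1 := hs0 r (hN hr) s (hs.mono_right
      (Finset.subset_biUnion_of_mem s0 (hfin.mem_toFinset.2 hr)))
    have h2 := hhol s t ht r (hN hr)
    have h3 : γ * |t - r| ≤ γ * ρ :=
      mul_le_mul_of_nonneg_left (by rw [← Real.dist_eq]; exact (Metric.mem_ball.1 htr).le) hγ
    have h4 : ∑ i ∈ s, (g t i - g 0 i) ^ 2 ≤
        2 * ∑ i ∈ s, (g t i - g r i) ^ 2 + 2 * ∑ i ∈ s, (g r i - g 0 i) ^ 2 := by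
      rw [Finset.mul_sum, Finset.mul_sum, ← Finset.sum_add_distrib]
      exact Finset.sum_le_sum fun i _ => by nlinarith [sq_nonneg (g t i - 2 * g r i + g 0 i)]
    linarith

end Pool.Agent.MP_954c34_an.Rank

end

section
set_option linter.all false

open MeasureTheory Set
open scoped InnerProductSpace ComplexConjugate

noncomputable section

namespace Pool.Agent.MP_954c34_an.Rank

open Pool.Agent.MP_954c34_an.Sharp

theorem real_Fin {V : Type} [NormedAddCommGroup V] [NormedSpace ℝ V] [FiniteDimensional ℝ V]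
    (S : Set ℝ) (A : ℝ → V) : ∃ (n : ℕ) (τ : Fin n → ℝ) (g : ℝ → Fin n → ℝ) (γ : ℝ), 0 ≤ γ ∧
      (∀ i, τ i ∈ S) ∧ (∀ t ∈ S, A t = ∑ i, g t i • A (τ i)) ∧
      ∀ t ∈ S, ∀ s ∈ S, ∑ i, (g t i - g s i) ^ 2 ≤ γ * ‖A t - A s‖ ^ 2 := by
  obtain ⟨b, hb, hsp, hli⟩ := exists_linearIndependent ℝ (A '' S)
  have : Finite b := hli.finite
  obtain ⟨n, ⟨e⟩⟩ := Finite.exists_equiv_fin b
  choose τ hτ hA using fun i : Fin n => hb (e.symm i).2
  have hl : LinearIndependent ℝ fun i => A (τ i) := by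
    simp only [hA]
    exact hli.comp _ e.symm.injective
  have hr : range (fun i => A (τ i)) = b := by
    simp only [hA]
    exact (e.symm.surjective.range_comp (fun x : b => (x : V))).trans Subtype.range_coe
  obtain ⟨K, -, hK⟩ := (Fintype.linearCombination ℝ fun i => A (τ i)).exists_antilipschitzWith
    (LinearMap.ker_eq_bot.2 hl.fintypeLinearCombination_injective)
  have hg : ∀ t, ∃ c : Fin n → ℝ, t ∈ S → ∑ i, c i • A (τ i) = A t := fun t => by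
    by_cases ht : t ∈ S
    · have : A t ∈ Submodule.span ℝ (range fun i => A (τ i)) := by
        rw [hr, hsp]
        exact Submodule.subset_span ⟨t, ht, rfl⟩
      exact ((Submodule.mem_span_range_iff_exists_fun ℝ).1 this).imp fun _ h _ => h
    · exact ⟨0, fun h => absurd h ht⟩
  choose g hg using hg
  refine ⟨n, τ, g, n * K ^ 2, by positivity, hτ, fun t ht => (hg t ht).symm, fun t ht s hs => ?_⟩
  have h1 := hK.le_mul_dist (g t) (g s)
  rw [Fintype.linearCombination_apply, Fintype.linearCombination_apply, hg t ht, hg s hs,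
    dist_eq_norm, dist_eq_norm] at h1
  refine (Finset.sum_le_card_nsmul _ _ ((K * ‖A t - A s‖) ^ 2) fun i _ => ?_).trans (le_of_eq ?_)
  · rw [← sq_abs]
    exact pow_le_pow_left₀ (abs_nonneg _) ((norm_le_pi_norm (g t - g s) i).trans h1) 2
  · rw [Finset.card_univ, Fintype.card_fin, nsmul_eq_mul]
    ring

end Pool.Agent.MP_954c34_an.Rank

end

section
set_option linter.all false
set_option maxSynthPendingDepth 3

open MeasureTheory Set Filter Topology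
open scoped InnerProductSpace ComplexConjugate ContDiff

noncomputable section

namespace Pool.Agent.MP_954c34_an.Rank

open Pool.Agent.MP_954c34_an.Sharp

variable {V H : Type} [NormedAddCommGroup V] [InnerProductSpace ℂ V] [CompleteSpace V]
  [NormedAddCommGroup H] [InnerProductSpace ℂ H] [CompleteSpace H]

/-- The implicit Euler schemes with steps `2 ^ (-N)` obey a uniform bound. -/
def SchemeBound (val : V →L[ℂ] H) (B : ℝ → V →L[ℂ] V) : Prop :=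
  ∀ (F : LL H) (A : LL V →L[ℂ] LL V), Giv A B → ∃ C : ℝ, ∀ (N : ℕ) (a : LL V),
    (∀ v, (2 : ℂ) ^ N * ⟪val.compLpL 2 volume v,
      dif (sh H ((1 / 2) ^ N)) 0 (val.compLpL 2 volume a)⟫_ℂ + ⟪v, A a⟫_ℂ =
        ⟪val.compLpL 2 volume v, F⟫_ℂ) →
    2 ^ N * ‖dif (sh H ((1 / 2) ^ N)) 0 (val.compLpL 2 volume a)‖ ≤ C

/-- The main estimate on the line, from a bound for the scheme. -/
theorem line_of_scheme (val : V →L[ℂ] H) {T : ℝ} {B : ℝ → V →L[ℂ] V} (hB : Continuous B) {Λ : ℝ}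
    (hΛ : ∀ t, ‖B t‖ ≤ Λ) {c : ℝ} (hc : 0 < c) (hco : ∀ t v, c * ‖v‖ ^ 2 ≤ (⟪v, B t v⟫_ℂ).re)
    (hS : SchemeBound val B) {u g : LL V} {F : LL H}
    (hgi : Integrable g) (hu : u ∈ leftSub V T)
    (hy : ∀ᵐ t, t < T → ∀ v, ⟪val v, val (u t)⟫_ℂ = ⟪v, ∫ s in Iic t, g s⟫_ℂ)
    (heq : ∀ᵐ t, ∀ v, ⟪v, g t⟫_ℂ + ⟪v, B t (u t)⟫_ℂ = ⟪val v, F t⟫_ℂ) :
    ∃ C : ℝ, ∀ x ∈ leftSub V T, ‖⟪x, g⟫_ℂ‖ ≤ C * ‖val.compLpL 2 volume x‖ := by
  obtain ⟨𝓑, h𝓑⟩ := exists_mulOp hB hΛ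
  set 𝓙 : LL V →L[ℂ] LL H := val.compLpL 2 volume with h𝓙
  have hcoL : ∀ x, c * ‖x‖ ^ 2 ≤ (⟪x, 𝓑 x⟫_ℂ).re := by
    intro x
    have e1 : ‖x‖ ^ 2 = ∫ t, (⟪x t, x t⟫_ℂ).re := by
      rw [← inner_self_eq_norm_sq (𝕜 := ℂ), L2.inner_def]
      exact (integral_re (L2.integrable_inner (𝕜 := ℂ) x x)).symm
    have e2 : (⟪x, 𝓑 x⟫_ℂ).re = ∫ t, (⟪x t, 𝓑 x t⟫_ℂ).re := by
      rw [L2.inner_def]
      exact (integral_re (L2.integrable_inner (𝕜 := ℂ) x (𝓑 x))).symm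
    rw [e1, e2, ← integral_const_mul]
    refine integral_mono_ae ((L2.integrable_inner (𝕜 := ℂ) x x).re.const_mul c)
      (L2.integrable_inner (𝕜 := ℂ) x (𝓑 x)).re ?_
    filter_upwards [h𝓑 x] with t ht
    rw [ht]
    have : (⟪x t, x t⟫_ℂ).re = ‖x t‖ ^ 2 := inner_self_eq_norm_sq (𝕜 := ℂ) _
    rw [this]
    exact hco t _
  have heqL : ∀ x, ⟪x, g⟫_ℂ + ⟪x, 𝓑 u⟫_ℂ = ⟪𝓙 x, F⟫_ℂ := by
    intro x
    rw [L2.inner_def, L2.inner_def, L2.inner_def,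
      ← integral_add (L2.integrable_inner x g) (L2.integrable_inner x (𝓑 u))]
    refine integral_congr_ae ?_
    filter_upwards [heq, h𝓑 u, val.coeFn_compLpL x] with t h1 h2 h3
    rw [h2, h3, h1]
  obtain ⟨C, hC⟩ := hS F 𝓑 h𝓑
  refine ⟨C, fun x hx => le_of_forall_pos_le_add fun η hη => ?_⟩
  set K := ‖x‖ * ‖𝓑‖ / c + 1 with hK
  have hK0 : 0 < K := by positivity
  obtain ⟨N, hN⟩ := avg_close val hgi hy (div_pos hη hK0)
  set S := sh H ((1 / 2) ^ N) with hSdef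
  have hre : ∀ z : ℂ, ((2 : ℂ) ^ N * z).re = 2 ^ N * z.re := fun z => by
    have : (2 : ℂ) ^ N = ((2 ^ N : ℝ) : ℂ) := by push_cast; rfl
    rw [this, Complex.re_ofReal_mul]
  have hp : (0 : ℝ) < 2 ^ N := by positivity
  -- the implicit Euler scheme
  set L : LL V →L[ℂ] LL V :=
    ((2 : ℂ) ^ N) • (ContinuousLinearMap.adjoint 𝓙).comp ((dif S 0).comp 𝓙) + 𝓑 with hL
  have hLa : ∀ v a, ⟪v, L a⟫_ℂ = (2 : ℂ) ^ N * ⟪𝓙 v, dif S 0 (𝓙 a)⟫_ℂ + ⟪v, 𝓑 a⟫_ℂ := by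
    intro v a
    rw [hL, add_apply, smul_apply, inner_add_right, inner_smul_right,
      ContinuousLinearMap.comp_apply, ContinuousLinearMap.adjoint_inner_right,
      ContinuousLinearMap.comp_apply]
  have hLco : ∀ a, c * ‖a‖ ^ 2 ≤ (⟪a, L a⟫_ℂ).re := by
    intro a
    rw [hLa, Complex.add_re, hre]
    linarith [mul_nonneg hp.le (re_inner_dif_nonneg (sh_mem_unitary ((1 / 2) ^ N)) 0 (𝓙 a)),
      hcoL a]
  have hunit : IsUnit L := L.isUnit_of_forall_le_norm_inner_map (c := ⟨c, hc.le⟩) hc fun a => by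
    rw [norm_inner_symm, mul_comm]
    exact (hLco a).trans (Complex.re_le_norm _)
  obtain ⟨a, ha⟩ := (ContinuousLinearMap.isUnit_iff_bijective.1 hunit).2
    (ContinuousLinearMap.adjoint 𝓙 F)
  have haeq : ∀ v, (2 : ℂ) ^ N * ⟪𝓙 v, dif S 0 (𝓙 a)⟫_ℂ + ⟪v, 𝓑 a⟫_ℂ = ⟪𝓙 v, F⟫_ℂ := by
    intro v
    rw [← hLa, ha, ContinuousLinearMap.adjoint_inner_right]
  have hbound : 2 ^ N * ‖dif S 0 (𝓙 a)‖ ≤ C := hC N a haeq
  -- the error
  obtain ⟨l, hl, ρ, hlρ, hρ⟩ := exists_left T a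
  have hρB : ∀ᵐ t, t < T → 𝓑 ρ t = 0 := by
    filter_upwards [hρ, h𝓑 ρ] with t h1 h2 ht
    rw [h2, h1 ht, map_zero]
  have hρJ : ∀ᵐ t, t < T → dif S 0 (𝓙 ρ) t = 0 := by
    have e0 : dif S 0 (𝓙 ρ) = 𝓙 ρ - S (𝓙 ρ) := by rw [dif_apply, pow_zero, pow_one]
    rw [e0]
    filter_upwards [hρ, ae_shift hρ ((1 / 2) ^ N), val.coeFn_compLpL ρ,
      ae_shift (val.coeFn_compLpL ρ) ((1 / 2) ^ N), coeFn_sh ((1 / 2) ^ N) (𝓙 ρ),
      Lp.coeFn_sub (𝓙 ρ) (S (𝓙 ρ))] with t h1 h2 h3 h4 h5 h6 ht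
    have : (0 : ℝ) < (1 / 2) ^ N := by positivity
    rw [h6, Pi.sub_apply, h5, h4, h3, h1 ht, h2 (by linarith), sub_self]
  set e := l - u with he
  have heL : e ∈ leftSub V T := sub_mem hl hu
  have hae : a = e + u + ρ := by rw [he, hlρ]; abel
  have hen : ‖e‖ ≤ η / K / c := by
    have h1 := haeq e
    have h2 := heqL e
    have h3 := hN e heL
    have h4 := hLco e
    rw [hae] at h1
    simp only [map_add, inner_add_right] at h1
    rw [inner_eq_zero_of_left heL hρB,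
      inner_eq_zero_of_left (compLpL_mem_left val heL) hρJ] at h1
    have h5 : ⟪e, L e⟫_ℂ = ⟪e, g⟫_ℂ - (2 : ℂ) ^ N * ⟪𝓙 e, dif S 0 (𝓙 u)⟫_ℂ := by
      rw [hLa]
      linear_combination h1 - h2
    rw [h5] at h4
    have h6 := h4.trans ((Complex.re_le_norm _).trans h3)
    rw [le_div_iff₀ hc]
    rcases (norm_nonneg e).eq_or_lt with h0 | h0
    · rw [← h0, zero_mul]
      positivity
    · nlinarith
  have h1 := haeq x
  have h2 := heqL x
  have h3 : ⟪x, 𝓑 a⟫_ℂ = ⟪x, 𝓑 e⟫_ℂ + ⟪x, 𝓑 u⟫_ℂ := by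
    rw [hae]
    simp only [map_add, inner_add_right]
    rw [inner_eq_zero_of_left hx hρB, add_zero]
  have h4 : ⟪x, g⟫_ℂ = (2 : ℂ) ^ N * ⟪𝓙 x, dif S 0 (𝓙 a)⟫_ℂ + ⟪x, 𝓑 e⟫_ℂ := by
    linear_combination h2 - h1 + h3
  have h5 : ‖(2 : ℂ) ^ N * ⟪𝓙 x, dif S 0 (𝓙 a)⟫_ℂ‖ ≤ C * ‖𝓙 x‖ := by
    rw [norm_mul, norm_pow, Complex.norm_ofNat]
    calc _ ≤ 2 ^ N * (‖𝓙 x‖ * ‖dif S 0 (𝓙 a)‖) := by gcongr; exact norm_inner_le_norm _ _
      _ = 2 ^ N * ‖dif S 0 (𝓙 a)‖ * ‖𝓙 x‖ := by ring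
      _ ≤ _ := by gcongr
  have h6 : ‖⟪x, 𝓑 e⟫_ℂ‖ ≤ η := by
    calc _ ≤ ‖x‖ * ‖𝓑 e‖ := norm_inner_le_norm _ _
      _ ≤ ‖x‖ * (‖𝓑‖ * (η / K / c)) := by
          gcongr
          exact (𝓑.le_opNorm e).trans (mul_le_mul_of_nonneg_left hen (norm_nonneg _))
      _ = (‖x‖ * ‖𝓑‖ / c) * (η / K) := by ring
      _ ≤ K * (η / K) := by gcongr; linarith
      _ = η := by field_simp
  rw [h4]
  exact (norm_add_le _ _).trans (add_le_add h5 h6)

theorem hasMaxReg_of_scheme (val : V →L[ℂ] H) {T : ℝ} (hT : 0 < T)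
    (𝔄 : ℝ → V →L[ℂ] V →L⋆[ℂ] ℂ) {B : ℝ → V →L[ℂ] V} (hBc : Continuous B) {Λ c κ : ℝ}
    (hBΛ : ∀ t, ‖B t‖ ≤ Λ) (hc : 0 < c) (hBco : ∀ t v, c * ‖v‖ ^ 2 ≤ (⟪v, B t v⟫_ℂ).re)
    (hBa : ∀ t ∈ Icc 0 T, ∀ v a, ⟪v, B t a⟫_ℂ = 𝔄 t a v + ⟪val v, (κ : ℂ) • val a⟫_ℂ)
    (hS : SchemeBound val B) : HasMaxReg val T 𝔄 := by
  intro f hf u hu
  obtain ⟨G, hG, hG1, hG2, hG3⟩ := exists_of_isLionsSolution val hT hu
  have hu1 := hu.memL2
  have hvu : MemL2 T fun t => val (u t) := val.comp_memLp' hu1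
  have hu' : MemLp ((Ioo 0 T).indicator u) 2 volume :=
    (memLp_indicator_iff_restrict measurableSet_Ioo).2 hu1
  have hg' : MemLp ((Ioo 0 T).indicator G) 2 volume :=
    (memLp_indicator_iff_restrict measurableSet_Ioo).2 hG
  have hF' : MemLp ((Ioo 0 T).indicator fun t => f t + (κ : ℂ) • val (u t)) 2 volume :=
    (memLp_indicator_iff_restrict measurableSet_Ioo).2 (MemLp.add hf (MemLp.const_smul hvu _))
  have hgi : Integrable ((Ioo 0 T).indicator G) :=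
    (integrable_indicator_iff measurableSet_Ioo).2 hG.integrableOn
  obtain ⟨C', hC'⟩ := line_of_scheme val (T := T) hBc hBΛ hc hBco hS (u := hu'.toLp)
    (g := hg'.toLp) (F := hF'.toLp) (hgi.congr hg'.coeFn_toLp.symm)
    (by
      filter_upwards [hu'.coeFn_toLp] with t h1 ht
      rw [h1, indicator_of_notMem fun h' => absurd h'.2 (not_lt.2 ht)])
    (by
      filter_upwards [(ae_restrict_iff' measurableSet_Ioo).1 hG2, hu'.coeFn_toLp]
        with t h1 h2 ht v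
      rw [h2, integral_congr_ae (ae_restrict_of_ae hg'.coeFn_toLp),
        integral_indicator measurableSet_Ioo, Measure.restrict_restrict measurableSet_Ioo,
        setIntegral_congr_set (Ioo_inter_Iic_ae_eq ht)]
      by_cases h0 : 0 < t
      · rw [indicator_of_mem (show t ∈ Ioo 0 T from ⟨h0, ht⟩), h1 ⟨h0, ht⟩]
      · rw [indicator_of_notMem (fun h' => h0 h'.1), Ioo_eq_empty h0]
        simp)
    (by
      filter_upwards [(ae_restrict_iff' measurableSet_Ioo).1 hG1, hu'.coeFn_toLp, hg'.coeFn_toLp,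
        hF'.coeFn_toLp] with t h1 h2 h3 h4 v
      rw [h2, h3, h4]
      by_cases ht : t ∈ Ioo 0 T
      · rw [indicator_of_mem ht, indicator_of_mem ht, indicator_of_mem ht,
          hBa t (Ioo_subset_Icc_self ht), inner_add_right, ← h1 ht, add_assoc]
      · simp [indicator_of_notMem ht])
  refine memH1_of_bound val hu1 (fun φ hφ hφc hφs v => ?_) hC'
  rw [hG3 φ hφ hφc hφs]
  congr 2
  refine integral_congr_ae ?_
  filter_upwards [ae_restrict_of_ae hg'.coeFn_toLp, ae_restrict_mem measurableSet_Ioo]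
    with t h1 h2
  rw [h1, indicator_of_mem h2]

end Pool.Agent.MP_954c34_an.Rank

end

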