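import Pool.Agent.MP_954c34_an.Rk.A

section
set_option linter.all false

open MeasureTheory Set
open scoped InnerProductSpace ComplexConjugate

noncomputable section

namespace Pool.Agent.MP_954c34_an.Rank

open Pool.Agent.MP_954c34_an.Sharp

section Abstract

variable {X Y : Type} [NormedAddCommGroup X] [InnerProductSpace ℂ X] [CompleteSpace X]
  [NormedAddCommGroup Y] [InnerProductSpace ℂ Y] [CompleteSpace Y]

/-- The dyadic square function estimate for the resolvents, up to level `N`. -/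
def Kato (J : X →L[ℂ] Y) (K B : X →L[ℂ] X) (C : ℝ) (N : ℕ) : Prop :=
  ∀ (v : X) (r : ℕ → X), (∀ k < N, K (r k) + ((1 / 2 : ℂ) ^ k) • B (r k) = K v) →
    ∑ k ∈ Finset.range N, 2 ^ k * ‖J (v - r k)‖ ^ 2 ≤ C * ‖v‖ ^ 2

lemma Coer.star {c : ℝ} {B : X →L[ℂ] X} (h : Coer c B) : Coer c (star B) := fun x => by
  rw [ContinuousLinearMap.star_eq_adjoint, ContinuousLinearMap.adjoint_inner_right,
    ← inner_conj_symm, Complex.conj_re]
  exact h x

lemma IsGram.exists_res {J : X →L[ℂ] Y} {K B : X →L[ℂ] X} (hK : IsGram J K) {c s : ℝ}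
    (hc : 0 < c) (hs : 0 < s) (hB : Coer c B) : IsUnit (K + (s : ℂ) • B) :=
  (K + (s : ℂ) • B).isUnit_of_forall_le_norm_inner_map (c := ⟨s * c, by positivity⟩)
    (show 0 < s * c by positivity) fun a => by
      rw [norm_inner_symm, mul_comm]
      refine le_trans ?_ (Complex.re_le_norm _)
      rw [ContinuousLinearMap.add_apply, inner_add_right, Complex.add_re, ← hK.norm_sq,
        ContinuousLinearMap.smul_apply, inner_smul_right, Complex.re_ofReal_mul]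
      have h1 := mul_le_mul_of_nonneg_left (hB a) hs.le
      change s * c * ‖a‖ ^ 2 ≤ _
      nlinarith [sq_nonneg ‖J a‖]

/-- `S = (L K + B)⁻¹`. -/
structure IsStep (K B : X →L[ℂ] X) (L : ℕ) (S : X →L[ℂ] X) : Prop where
  left : S * ((L : ℂ) • K + B) = 1
  right : ((L : ℂ) • K + B) * S = 1

/-- One implicit Euler step. -/
def Rs (L : ℕ) (K S : X →L[ℂ] X) : X →L[ℂ] X := S * ((L : ℂ) • K)

/-- The difference quotient after `j` steps. -/
def Ds (L : ℕ) (K S : X →L[ℂ] X) (j : ℕ) : X →L[ℂ] X :=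
  (L : ℂ) • ((1 - Rs L K S) * Rs L K S ^ j)

def Wn (L : ℕ) (K S : X →L[ℂ] X) (j : ℕ) : X →L[ℂ] X :=
  if j = 0 then (L : ℂ) • S else -(Ds L K S (j - 1) * S)

lemma IsStep.one_sub {K B S : X →L[ℂ] X} {L : ℕ} (h : IsStep K B L S) : 1 - Rs L K S = S * B := by
  rw [← h.left, Rs, mul_add, add_sub_cancel_left]

lemma IsStep.star {K B S : X →L[ℂ] X} {L : ℕ} (h : IsStep K B L S) (hK : IsSelfAdjoint K) :
    IsStep K (star B) L (star S) := by
  have e : Star.star ((L : ℂ) • K + B) = (L : ℂ) • K + Star.star B := by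
    rw [star_add, star_smul, hK.star_eq, star_natCast]
  constructor
  · rw [← e, ← star_mul, h.right, star_one]
  · rw [← e, ← star_mul, h.left, star_one]

lemma IsStep.comm {K B S Γ : X →L[ℂ] X} {L : ℕ} (h : IsStep K B L S) (h1 : Commute Γ K)
    (h2 : Commute Γ B) : Commute Γ S := by
  have h3 : Commute Γ ((L : ℂ) • K + B) := (h1.smul_right _).add_right h2
  calc Γ * S = S * ((L : ℂ) • K + B) * (Γ * S) := by rw [h.left, one_mul]
    _ = S * (((L : ℂ) • K + B) * Γ) * S := by simp only [mul_assoc]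
    _ = S * Γ * (((L : ℂ) • K + B) * S) := by rw [← h3.eq]; simp only [mul_assoc]
    _ = S * Γ := by rw [h.right, mul_one]

/-- `⟪J w, J (R x)⟫ = ⟪J (R' w), J x⟫`, `R'` being the step of the adjoint problem. -/
lemma IsGram.inner_Rs {J : X →L[ℂ] Y} {K : X →L[ℂ] X} (hK : IsGram J K) (S : X →L[ℂ] X) (L : ℕ)
    (w x : X) : ⟪J w, J (Rs L K S x)⟫_ℂ = ⟪J (Rs L K (star S) w), J x⟫_ℂ := by
  have h1 : ∀ a b, ⟪K a, b⟫_ℂ = ⟪J a, J b⟫_ℂ := fun a b => by
    rw [← inner_conj_symm, hK, inner_conj_symm]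
  rw [← h1, ← hK, Rs, Rs, ContinuousLinearMap.mul_apply, ContinuousLinearMap.mul_apply,
    ContinuousLinearMap.star_eq_adjoint, ContinuousLinearMap.adjoint_inner_left,
    ContinuousLinearMap.smul_apply, ContinuousLinearMap.smul_apply, map_smul, inner_smul_right,
    inner_smul_left, map_natCast]

/-- Smoothing and square function estimates for the orbits of the implicit Euler step. -/
structure IsOrb (J : X →L[ℂ] Y) (K S : X →L[ℂ] X) (L : ℕ) (a : ℝ) : Prop where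
  contr : ∀ (j : ℕ) x, ‖J ((Rs L K S ^ j) x)‖ ≤ ‖J x‖
  ritt : ∀ (j : ℕ) x, (j + 1) * ‖J (Ds L K S j x)‖ ≤ a * L * ‖J x‖
  quad : ∀ (m : ℕ) x,
    ∑ j ∈ Finset.range m, ((j : ℝ) + 1) * ‖J (Ds L K S j x)‖ ^ 2 ≤ a * L ^ 2 * ‖J x‖ ^ 2
  smooth : ∀ (j : ℕ) x, (j + 1) * ‖(Rs L K S ^ (j + 1)) x‖ ^ 2 ≤ a * L * ‖J x‖ ^ 2

variable (X Y)

def OrbSt : Prop := ∀ c Λ : ℝ, 0 < c → ∃ a : ℝ, 1 ≤ a ∧
  ∀ (J : X →L[ℂ] Y) (K B S : X →L[ℂ] X) (L : ℕ), IsGram J K → Coer c B → ‖B‖ ≤ Λ → 1 ≤ L →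
    IsStep K B L S → IsOrb J K S L a

def KatoOrbSt : Prop := ∀ (J : X →L[ℂ] Y) (K B S : X →L[ℂ] X) (N : ℕ) (c a C : ℝ), IsGram J K →
  0 < c → Coer c B → IsStep K B (2 ^ N) S → 1 ≤ a → IsOrb J K S (2 ^ N) a →
  Kato J K B C (N + 1) → ∀ v, ∑ j ∈ Finset.range (2 ^ N), ‖J (Ds (2 ^ N) K S j v)‖ ^ 2 ≤
    (1 + a) ^ 2 * 2 ^ N * (C * ‖v‖ ^ 2)

def NIdSt : Prop := ∀ (K B S : X →L[ℂ] X) (L : ℕ), 1 ≤ L → IsStep K B L S →
  (∀ y η : ℕ → X, (∀ j < L, K ((L : ℂ) • (y j - y (j + 1))) + B (y j) = η j) →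
    (L : ℂ) • (y 0 - y 1) = ∑ j ∈ Finset.range L, Wn L K S j (η j) + (-Ds L K S (L - 1)) (y L)) ∧
  ∀ Γ, Commute Γ K → Commute Γ B →
    (∀ j, Commute Γ (Wn L K S j)) ∧ (∀ j, Commute Γ (Ds L K S j))

def NDecSt : Prop := ∀ (J : X →L[ℂ] Y) (K B S : X →L[ℂ] X) (L : ℕ) (a : ℝ), IsGram J K →
  1 ≤ L → IsStep K B L S → 1 ≤ a → IsOrb J K S L a → IsOrb J K (star S) L a →
  (∀ j : ℕ, 1 ≤ j → ∀ x, (j : ℝ) ^ 3 * ‖J (Wn L K S j x)‖ ^ 2 ≤ 8 * a ^ 3 * L * ‖x‖ ^ 2) ∧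
  ∀ x, ‖J ((-Ds L K S (L - 1)) x)‖ ^ 2 ≤ (a * ‖J‖) ^ 2 * ‖x‖ ^ 2

def NSqSt : Prop := ∀ (J : X →L[ℂ] Y) (K B S : X →L[ℂ] X) (L : ℕ) (c a q : ℝ), IsGram J K →
  1 ≤ L → 0 < c → Coer c B → IsStep K B L S → 1 ≤ a → IsOrb J K (star S) L a → 0 ≤ q →
  (∀ v, ∑ j ∈ Finset.range L, ‖J (Ds L K S j v)‖ ^ 2 ≤ q * L * ‖v‖ ^ 2) →
  ∀ (n : ℕ) (Γ : ℕ → Fin n → X →L[ℂ] X) (γ : ℝ), 0 ≤ γ →
    (∀ j i, Commute (Γ j i) K ∧ Commute (Γ j i) B) →
    (∀ (j : ℕ) (x : Fin n → X), L * ‖∑ i, Γ j i (x i)‖ ^ 2 ≤ γ * j * ∑ i, ‖x i‖ ^ 2) →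
    ∀ x : Fin n → X, c ^ 2 * ‖J (∑ j ∈ Finset.range L, Wn L K S j (∑ i, Γ j i (x i)))‖ ^ 2 ≤
      8 * a * q * (γ * ∑ i, ‖x i‖ ^ 2)

def KatoPertSt : Prop := ∀ (J : X →L[ℂ] Y) (K B B' : X →L[ℂ] X) (N : ℕ) (c Λ ε C : ℝ),
  IsGram J K → 0 < c → Coer c B → Coer c B' → ‖B'‖ ≤ Λ → ‖B' - B‖ ≤ ε → Kato J K B C N →
  Kato J K B' (2 * C + 2 * 2 ^ N * (‖J‖ * ε * Λ / c ^ 2) ^ 2) N

def KatoSaSt : Prop := ∀ (J : X →L[ℂ] Y) (K B : X →L[ℂ] X) (N : ℕ) (c Λ : ℝ),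
  IsGram J K → 0 < c → IsSelfAdjoint B → Coer c B → ‖B‖ ≤ Λ → Kato J K B (4 * Λ ^ 2 / c) N

end Abstract

section Line

variable (V H : Type) [NormedAddCommGroup V] [InnerProductSpace ℂ V] [CompleteSpace V]
  [NormedAddCommGroup H] [InnerProductSpace ℂ H] [CompleteSpace H]

def KatoLineSt : Prop := ∀ (val : V →L[ℂ] H) (K₀ : V →L[ℂ] V) (K A : LL V →L[ℂ] LL V)
  (B : ℝ → V →L[ℂ] V) (C : ℝ) (N : ℕ), Giv K (fun _ => K₀) → Giv A B →
  (∀ t, Kato val K₀ (B t) C N) → Kato (val.compLpL 2 volume) K A C N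

end Line

end Pool.Agent.MP_954c34_an.Rank

end

section
set_option linter.all false

open MeasureTheory Set
open scoped InnerProductSpace ComplexConjugate

noncomputable section

namespace Pool.Agent.MP_954c34_an.Rank

open Pool.Agent.MP_954c34_an.Sharp

section Abstract

variable {X Y : Type} [NormedAddCommGroup X] [InnerProductSpace ℂ X] [CompleteSpace X]
  [NormedAddCommGroup Y] [InnerProductSpace ℂ Y] [CompleteSpace Y]

lemma re_le_Orb (a b : X) : (⟪a, b⟫_ℂ).re ≤ ‖a‖ * ‖b‖ := re_inner_le_norm (𝕜 := ℂ) a b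

lemma energy_Orb {J : X →L[ℂ] Y} {K B : X →L[ℂ] X} {c : ℝ} (hK : IsGram J K) (hB : Coer c B)
    (L : ℕ) (y p : ℕ → X)
    (h : ∀ j, (L : ℂ) • K (y (j + 1)) + B (y (j + 1)) = (L : ℂ) • K (y j) + p j) (m : ℕ) :
    L * ‖J (y m)‖ ^ 2 + 2 * c * ∑ j ∈ Finset.range m, ‖y (j + 1)‖ ^ 2 ≤
      L * ‖J (y 0)‖ ^ 2 + 2 * ∑ j ∈ Finset.range m, ‖y (j + 1)‖ * ‖p j‖ := by
  induction m with
  | zero => simp
  | succ m ih =>
    rw [Finset.sum_range_succ, Finset.sum_range_succ]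
    have e := congrArg (fun w => (⟪y (m + 1), w⟫_ℂ).re) (h m)
    simp only [inner_add_right, inner_smul_right, Complex.add_re, ← Complex.ofReal_natCast,
      Complex.re_ofReal_mul] at e
    rw [← hK.norm_sq, hK] at e
    have h1 := hB (y (m + 1))
    have h2 := re_le_Orb (y (m + 1)) (p m)
    have h3 := re_le_Orb (J (y (m + 1))) (J (y m))
    have h4 : 2 * (⟪J (y (m + 1)), J (y m)⟫_ℂ).re ≤ ‖J (y (m + 1))‖ ^ 2 + ‖J (y m)‖ ^ 2 := by
      nlinarith [sq_nonneg (‖J (y (m + 1))‖ - ‖J (y m)‖)]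
    have h5 := mul_le_mul_of_nonneg_left h4 (Nat.cast_nonneg (α := ℝ) L)
    linarith

lemma amgm_Orb {u v s w : ℝ} (hs : 0 < s) : 2 * (u * (w * v)) ≤ s * u ^ 2 + w ^ 2 / s * v ^ 2 := by
  have : s * u ^ 2 + w ^ 2 / s * v ^ 2 - 2 * (u * (w * v)) = (s * u - w * v) ^ 2 / s := by
    field_simp
    ring
  have h2 : 0 ≤ (s * u - w * v) ^ 2 / s := by positivity
  linarith

lemma seq_Orb {J : X →L[ℂ] Y} {K B : X →L[ℂ] X} {c Λ : ℝ} (hc : 0 < c) (hK : IsGram J K)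
    (hB : Coer c B) (hΛ : ‖B‖ ≤ Λ) {L : ℕ} (hL : 1 ≤ L) (z d : ℕ → X)
    (hz : ∀ j, (L : ℂ) • K (z (j + 1)) + B (z (j + 1)) = (L : ℂ) • K (z j))
    (hd : ∀ j, d j = (L : ℂ) • (z j - z (j + 1))) :
    (∀ j, ‖J (z j)‖ ≤ ‖J (z 0)‖) ∧
    (∀ j : ℕ, (j + 1) * ‖J (d j)‖ ≤ (6 + Λ ^ 2 / c ^ 2) * L * ‖J (z 0)‖) ∧
    (∀ m : ℕ, ∑ j ∈ Finset.range m, ((j : ℝ) + 1) * ‖J (d j)‖ ^ 2 ≤
      (6 + Λ ^ 2 / c ^ 2) * L ^ 2 * ‖J (z 0)‖ ^ 2) ∧
    ∀ j : ℕ, c * ((j + 1) * ‖z (j + 1)‖ ^ 2) ≤ (6 + Λ ^ 2 / c ^ 2) * L * ‖J (z 0)‖ ^ 2 := by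
  have hL0 : (0 : ℝ) < L := by exact_mod_cast hL
  set t := Λ ^ 2 / c ^ 2 with ht
  have ht0 : 0 ≤ t := by positivity
  set N := ‖J (z 0)‖ with hN
  have hN0 : 0 ≤ N := norm_nonneg _
  have hBz : ∀ x, ‖B x‖ ≤ Λ * ‖x‖ := fun x => B.le_of_opNorm_le hΛ x
  have E1 : ∀ m, L * ‖J (z m)‖ ^ 2 + 2 * c * ∑ j ∈ Finset.range m, ‖z (j + 1)‖ ^ 2 ≤ L * N ^ 2 :=
    fun m => by simpa using energy_Orb hK hB L z (fun _ => 0) (fun j => by rw [hz, add_zero]) m
  have S1 : ∀ m, 2 * c * ∑ j ∈ Finset.range m, ‖z (j + 1)‖ ^ 2 ≤ L * N ^ 2 := fun m => by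
    have : 0 ≤ L * ‖J (z m)‖ ^ 2 := by positivity
    linarith [E1 m]
  have C1 : ∀ j, ‖J (z j)‖ ≤ N := fun m => by
    have h0 : 0 ≤ 2 * c * ∑ j ∈ Finset.range m, ‖z (j + 1)‖ ^ 2 := by positivity
    have h1 : L * ‖J (z m)‖ ^ 2 ≤ L * N ^ 2 := by linarith [E1 m]
    exact (sq_le_sq₀ (norm_nonneg _) hN0).1 (le_of_mul_le_mul_left h1 hL0)
  have hKd : ∀ j, K (d j) = B (z (j + 1)) := fun j => by
    rw [hd, map_smul, map_sub, smul_sub, ← hz j, add_sub_cancel_left]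
  have hdd : ∀ j, (L : ℂ) • K (d (j + 1)) + B (d (j + 1)) = (L : ℂ) • K (d j) := fun j => by
    rw [hKd, hKd, hd, map_smul, map_sub, smul_sub, add_sub_cancel]
  have D0 : ‖J (d 0)‖ ^ 2 ≤ 4 * L ^ 2 * N ^ 2 := by
    have h1 : ‖J (d 0)‖ ≤ 2 * L * N := by
      rw [hd, map_smul, map_sub, norm_smul, Complex.norm_natCast]
      have := norm_sub_le (J (z 0)) (J (z (0 + 1)))
      nlinarith [C1 (0 + 1)]
    nlinarith [norm_nonneg (J (d 0))]
  set y : ℕ → X := fun j => (((j : ℝ) + 1 : ℝ) : ℂ) • d j with hy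
  have hJy : ∀ j, ‖J (y j)‖ = (j + 1) * ‖J (d j)‖ := fun j => by
    rw [hy, map_smul, norm_smul, Complex.norm_real, Real.norm_of_nonneg (by positivity)]
  have E2 : ∀ m, L * ‖J (y m)‖ ^ 2 + c * ∑ j ∈ Finset.range m, ‖y (j + 1)‖ ^ 2 ≤
      L * ((4 + t) * L ^ 2 * N ^ 2) := fun m => by
    have e := energy_Orb hK hB L y (fun j => (L : ℂ) • B (z (j + 1))) (fun j => by
      have := hdd j
      simp only [hy, map_smul, ← hKd]
      push_cast
      linear_combination (norm := module) ((j : ℂ) + 2) • this) m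
    have h1 : 2 * ∑ j ∈ Finset.range m, ‖y (j + 1)‖ * ‖(L : ℂ) • B (z (j + 1))‖ ≤
        c * ∑ j ∈ Finset.range m, ‖y (j + 1)‖ ^ 2 +
          (L * Λ) ^ 2 / c * ∑ j ∈ Finset.range m, ‖z (j + 1)‖ ^ 2 := by
      rw [Finset.mul_sum, Finset.mul_sum, Finset.mul_sum, ← Finset.sum_add_distrib]
      refine Finset.sum_le_sum fun j _ => le_trans ?_ (amgm_Orb hc)
      rw [norm_smul (L : ℂ), Complex.norm_natCast, mul_assoc (L : ℝ)]
      gcongr
      exact hBz _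
    have h2 : (L * Λ) ^ 2 / c * ∑ j ∈ Finset.range m, ‖z (j + 1)‖ ^ 2 =
        L ^ 2 * t / 2 * (2 * c * ∑ j ∈ Finset.range m, ‖z (j + 1)‖ ^ 2) := by
      rw [ht]
      field_simp
    have h3 := mul_le_mul_of_nonneg_left (S1 m) (show 0 ≤ (L : ℝ) ^ 2 * t / 2 by positivity)
    have h4 := mul_le_mul_of_nonneg_left D0 hL0.le
    have h5 : ‖J (y 0)‖ = ‖J (d 0)‖ := by simpa using hJy 0
    rw [h5] at e
    have h6 : 0 ≤ L * (t * L ^ 2 * N ^ 2) := by positivity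
    linarith
  have R1 : ∀ j : ℕ, (j + 1) * ‖J (d j)‖ ≤ (6 + t) * L * N := fun m => by
    have h0 : 0 ≤ c * ∑ j ∈ Finset.range m, ‖y (j + 1)‖ ^ 2 := by positivity
    have h1 : L * ‖J (y m)‖ ^ 2 ≤ L * ((4 + t) * L ^ 2 * N ^ 2) := by linarith [E2 m]
    have h2 := le_of_mul_le_mul_left h1 hL0
    rw [← hJy]
    refine (sq_le_sq₀ (norm_nonneg _) (by positivity)).1 (h2.trans ?_)
    rw [mul_pow, mul_pow]
    gcongr
    nlinarith
  refine ⟨C1, R1, fun m => ?_, fun j => ?_⟩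
  · rcases m with _ | m
    · simp only [Finset.range_zero, Finset.sum_empty]
      positivity
    rw [Finset.sum_range_succ']
    have h1 : 2 * ∑ j ∈ Finset.range m, (((j + 1 : ℕ) : ℝ) + 1) * ‖J (d (j + 1))‖ ^ 2 ≤
        c / L * ∑ j ∈ Finset.range m, ‖y (j + 1)‖ ^ 2 +
          Λ ^ 2 / (c / L) * ∑ j ∈ Finset.range m, ‖z (j + 1 + 1)‖ ^ 2 := by
      rw [Finset.mul_sum, Finset.mul_sum, Finset.mul_sum, ← Finset.sum_add_distrib]
      refine Finset.sum_le_sum fun j _ => le_trans ?_ (amgm_Orb (by positivity))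
      have e : (((j + 1 : ℕ) : ℝ) + 1) * ‖J (d (j + 1))‖ ^ 2 =
          (⟪y (j + 1), B (z (j + 1 + 1))⟫_ℂ).re := by
        rw [hK.norm_sq, hKd, hy, inner_smul_left, Complex.conj_ofReal, Complex.re_ofReal_mul]
      rw [e]
      refine mul_le_mul_of_nonneg_left ((re_le_Orb _ _).trans ?_) (by norm_num)
      gcongr
      exact hBz _
    have h2 := S1 (m + 1)
    rw [Finset.sum_range_succ'] at h2
    have h3 : 2 * c * ∑ j ∈ Finset.range m, ‖z (j + 1 + 1)‖ ^ 2 ≤ L * N ^ 2 := by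
      have : 0 ≤ 2 * c * ‖z (0 + 1)‖ ^ 2 := by positivity
      linarith
    have h4 : Λ ^ 2 / (c / L) * ∑ j ∈ Finset.range m, ‖z (j + 1 + 1)‖ ^ 2 =
        L * t / 2 * (2 * c * ∑ j ∈ Finset.range m, ‖z (j + 1 + 1)‖ ^ 2) := by
      rw [ht]
      field_simp
    have h5 := mul_le_mul_of_nonneg_left h3 (show 0 ≤ (L : ℝ) * t / 2 by positivity)
    have h6 : c / L * ∑ j ∈ Finset.range m, ‖y (j + 1)‖ ^ 2 ≤ (4 + t) * L ^ 2 * N ^ 2 := by
      have h0 : 0 ≤ L * ‖J (y m)‖ ^ 2 := by positivity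
      rw [div_mul_eq_mul_div, div_le_iff₀ hL0]
      linarith [E2 m]
    have h7 : 0 ≤ t * L ^ 2 * N ^ 2 := by positivity
    simp only [Nat.cast_zero, zero_add, one_mul]
    linarith
  · have h1 := hB (z (j + 1))
    rw [← hKd, hK] at h1
    have h2 : c * ‖z (j + 1)‖ ^ 2 ≤ N * ‖J (d j)‖ :=
      (h1.trans (re_le_Orb _ _)).trans (mul_le_mul_of_nonneg_right (C1 _) (norm_nonneg _))
    have h3 := mul_le_mul_of_nonneg_left h2 (show (0 : ℝ) ≤ j + 1 by positivity)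
    have h4 := mul_le_mul_of_nonneg_left (R1 j) hN0
    linarith

theorem orb_st : OrbSt X Y := by
  intro c Λ hc
  set e := 6 + Λ ^ 2 / c ^ 2 with he
  have he0 : 6 ≤ e := le_add_of_nonneg_right (by positivity)
  have he1 : e ≤ e + e / c := le_add_of_nonneg_right (by positivity)
  refine ⟨e + e / c, by linarith, fun J K B S L hK hB hΛ hL hS => ?_⟩
  have key := fun x : X => seq_Orb hc hK hB hΛ hL (fun j => (Rs L K S ^ j) x)
    (fun j => Ds L K S j x) (fun j => by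
      have := congrArg (fun T : X →L[ℂ] X => T (((L : ℂ) • K) ((Rs L K S ^ j) x))) hS.right
      simpa [pow_succ', Rs] using this) (fun j => by simp [Ds, pow_succ'])
  simp only [pow_zero, ContinuousLinearMap.one_apply, ← he] at key
  refine ⟨fun j x => (key x).1 j, fun j x => ((key x).2.1 j).trans ?_,
    fun m x => ((key x).2.2.1 m).trans ?_, fun j x => ?_⟩
  · gcongr
  · gcongr
  · have h1 := (key x).2.2.2 j
    have h2 : (j + 1) * ‖(Rs L K S ^ (j + 1)) x‖ ^ 2 ≤ e / c * L * ‖J x‖ ^ 2 := by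
      rw [div_mul_eq_mul_div, div_mul_eq_mul_div, le_div_iff₀ hc]
      linarith
    refine h2.trans ?_
    gcongr
    linarith

end Abstract

end Pool.Agent.MP_954c34_an.Rank

end

section
set_option linter.all false

open MeasureTheory Set
open scoped InnerProductSpace ComplexConjugate

noncomputable section

namespace Pool.Agent.MP_954c34_an.Rank

open Pool.Agent.MP_954c34_an.Sharp

section Abstract

variable {X Y : Type} [NormedAddCommGroup X] [InnerProductSpace ℂ X] [CompleteSpace X]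
  [NormedAddCommGroup Y] [InnerProductSpace ℂ Y] [CompleteSpace Y]

lemma root_NSq {J : X →L[ℂ] Y} {K : X →L[ℂ] X} (hK : IsGram J K) :
    ∃ Q : X →L[ℂ] X, (∀ y, ‖J y‖ ^ 2 = ‖Q y‖ ^ 2) ∧ ∀ Γ, Commute Γ K → Commute Γ Q := by
  have h0 : 0 ≤ K := by
    rw [ContinuousLinearMap.nonneg_iff_isPositive]
    refine ⟨hK.sa.isSymmetric, fun x => ?_⟩
    have h := hK.norm_sq x
    have h2 : (0 : ℝ) ≤ ‖J x‖ ^ 2 := sq_nonneg _
    rw [ContinuousLinearMap.reApplyInnerSelf_apply, ← inner_conj_symm]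
    simp only [RCLike.conj_re]
    change 0 ≤ (⟪x, K x⟫_ℂ).re
    linarith
  have sa := hK.sa
  have h1 : IsSelfAdjoint (cfc (fun t : ℝ => √t) K) := cfc_predicate _ _
  have h2 : cfc (fun t : ℝ => √t) K * cfc (fun t : ℝ => √t) K = K := by
    rw [← cfc_mul _ _ K]
    conv_rhs => rw [← cfc_id' ℝ K]
    exact cfc_congr fun t ht => Real.mul_self_sqrt (spectrum_nonneg_of_nonneg h0 ht)
  refine ⟨cfc (fun t : ℝ => √t) K, fun y => ?_, fun Γ h => (h.symm.cfc_real _).symm⟩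
  generalize cfc (fun t : ℝ => √t) K = Q at h1 h2
  rw [hK.norm_sq, ← h2, ContinuousLinearMap.mul_apply, ← inner_self_eq_norm_sq (𝕜 := ℂ)]
  exact congrArg Complex.re (h1.isSymmetric y (Q y)).symm

lemma pow_NSq {J : X →L[ℂ] Y} {K : X →L[ℂ] X} (hK : IsGram J K) (S : X →L[ℂ] X) (L j : ℕ)
    (w x : X) : ⟪J w, J ((Rs L K S ^ j) x)⟫_ℂ = ⟪J ((Rs L K (star S) ^ j) w), J x⟫_ℂ := by
  induction j generalizing x with
  | zero => simp
  | succ j ih =>
    rw [pow_succ, pow_succ', ContinuousLinearMap.mul_apply, ContinuousLinearMap.mul_apply, ih,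
      hK.inner_Rs]

lemma ds_NSq {J : X →L[ℂ] Y} {K : X →L[ℂ] X} (hK : IsGram J K) (S : X →L[ℂ] X) (L j : ℕ)
    (w x : X) : ⟪J w, J (Ds L K S j x)⟫_ℂ = ⟪J (Ds L K (star S) j w), J x⟫_ℂ := by
  simp only [Ds, sub_mul, one_mul, ← pow_succ', ContinuousLinearMap.smul_apply,
    ContinuousLinearMap.sub_apply, map_smul, map_sub, inner_smul_right, inner_smul_left,
    inner_sub_right, inner_sub_left, map_natCast, pow_NSq hK]

lemma mul_NSq {K B S : X →L[ℂ] X} {L : ℕ} (h : IsStep K B L S) (al be : ℕ) :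
    (L : ℂ) • (Ds L K S (al + be) * S * B) = Ds L K S al * Ds L K S be := by
  have c : Commute (1 - Rs L K S) (Rs L K S ^ be) :=
    ((Commute.one_left _).sub_left (Commute.refl _)).pow_right be
  rw [mul_assoc, ← h.one_sub, Ds, Ds, Ds, smul_mul_assoc, smul_mul_assoc, mul_smul_comm, c.eq,
    pow_add]
  simp only [mul_assoc]

lemma half_NSq {F : ℕ → ℝ} (hF : ∀ k, 0 ≤ F k) (m : ℕ) :
    ∑ j ∈ Finset.range m, F (j / 2) ≤ 2 * ∑ k ∈ Finset.range m, F k := by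
  have e : ∀ m, ∑ j ∈ Finset.range (2 * m), F (j / 2) = 2 * ∑ k ∈ Finset.range m, F k := by
    intro m
    induction m with
    | zero => simp
    | succ m ih =>
      rw [show 2 * (m + 1) = 2 * m + 1 + 1 by ring, Finset.sum_range_succ, Finset.sum_range_succ,
        ih, Finset.sum_range_succ, show 2 * m / 2 = m by omega, show (2 * m + 1) / 2 = m by omega]
      ring
  rw [← e]
  exact Finset.sum_le_sum_of_subset_of_nonneg (Finset.range_mono (by omega)) fun _ _ _ => hF _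

theorem nsq_st : NSqSt X Y := by
  intro J K B S L c a q hK hL hc hB hS ha hO hq hsq n Γ γ hγ hcm hrow x
  obtain ⟨N, rfl⟩ : ∃ N, L = N + 1 := ⟨L - 1, by omega⟩
  have hLp : (0 : ℝ) < ((N + 1 : ℕ) : ℝ) := by positivity
  generalize hLL : N + 1 = L at hLp hS hO hsq hrow
  have hU : IsUnit B := B.isUnit_of_forall_le_norm_inner_map (c := ⟨c, hc.le⟩) hc fun y => by
    rw [norm_inner_symm, mul_comm]
    exact (hB y).trans (Complex.re_le_norm _)
  choose v hv using fun i => (ContinuousLinearMap.isUnit_iff_bijective.1 hU).2 (x i)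
  have hvx : c ^ 2 * ∑ i, ‖v i‖ ^ 2 ≤ ∑ i, ‖x i‖ ^ 2 := by
    rw [Finset.mul_sum]
    refine Finset.sum_le_sum fun i _ => ?_
    have h1 := (hB (v i)).trans (re_inner_le_norm (𝕜 := ℂ) (v i) (B (v i)))
    rw [hv] at h1
    rw [← mul_pow]
    rcases (norm_nonneg (v i)).eq_or_lt with h | h
    · rw [← h, mul_zero]; simp
    · exact pow_le_pow_left₀ (by positivity) (le_of_mul_le_mul_left (by linarith) h) 2
  obtain ⟨Q, hQ, cQ⟩ := root_NSq hK
  have jrow : ∀ (j : ℕ) (y : Fin n → X),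
      L * ‖J (∑ i, Γ j i (y i))‖ ^ 2 ≤ γ * j * ∑ i, ‖J (y i)‖ ^ 2 := fun j y => by
    simp only [hQ, map_sum Q]
    refine le_trans (le_of_eq ?_) (hrow j fun i => Q (y i))
    congr 4
    funext i
    exact (DFunLike.congr_fun (cQ _ (hcm j i).1).eq (y i)).symm
  have p0 : ∑ i, Γ 0 i (x i) = 0 := by
    have := hrow 0 x
    simp only [Nat.cast_zero, mul_zero, zero_mul] at this
    have h2 : ‖∑ i, Γ 0 i (x i)‖ ^ 2 ≤ 0 := by
      by_contra hn
      exact absurd this (not_le.2 (mul_pos hLp (not_le.1 hn)))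
    exact norm_eq_zero.1 (pow_eq_zero_iff two_ne_zero |>.1 (le_antisymm h2 (sq_nonneg _)))
  have cD : ∀ j i k, Commute (Γ j i) (Ds L K S k) := fun j i k => by
    have hR : Commute (Γ j i) (Rs L K S) :=
      (hS.comm (hcm j i).1 (hcm j i).2).mul_right ((hcm j i).1.smul_right _)
    exact (((Commute.one_right _).sub_right hR).mul_right (hR.pow_right k)).smul_right _
  have key : ∀ k : ℕ, (L : ℂ) • Wn L K S (k + 1) (∑ i, Γ (k + 1) i (x i)) =
      -Ds L K S (k / 2) (∑ i, Γ (k + 1) i (Ds L K S ((k + 1) / 2) (v i))) := fun k => by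
    have e1 : ∑ i, Γ (k + 1) i (x i) = B (∑ i, Γ (k + 1) i (v i)) := by
      rw [map_sum]
      refine Finset.sum_congr rfl fun i _ => ?_
      rw [← hv]
      exact DFunLike.congr_fun (hcm (k + 1) i).2.eq (v i)
    have e2 : ∑ i, Γ (k + 1) i (Ds L K S ((k + 1) / 2) (v i)) =
        Ds L K S ((k + 1) / 2) (∑ i, Γ (k + 1) i (v i)) := by
      rw [map_sum]
      exact Finset.sum_congr rfl fun i _ => DFunLike.congr_fun (cD _ i _).eq (v i)
    have e3 := DFunLike.congr_fun (mul_NSq hS (k / 2) ((k + 1) / 2)) (∑ i, Γ (k + 1) i (v i))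
    rw [show k / 2 + (k + 1) / 2 = k by omega] at e3
    rw [e1, e2, Wn, if_neg (by omega), Nat.add_sub_cancel, ContinuousLinearMap.neg_apply, smul_neg]
    exact congrArg Neg.neg e3
  rw [show Finset.range L = Finset.range (N + 1) by rw [hLL], Finset.sum_range_succ', p0, map_zero,
    add_zero]
  generalize hT : ∑ k ∈ Finset.range N, Wn L K S (k + 1) (∑ i, Γ (k + 1) i (x i)) = T
  have s1 : L * ‖J T‖ ^ 2 ≤ ∑ k ∈ Finset.range N, ‖J (Ds L K (star S) (k / 2) T)‖ *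
      ‖J (∑ i, Γ (k + 1) i (Ds L K S ((k + 1) / 2) (v i)))‖ := by
    have e : ((L : ℂ) • T) = ∑ k ∈ Finset.range N,
        -Ds L K S (k / 2) (∑ i, Γ (k + 1) i (Ds L K S ((k + 1) / 2) (v i))) := by
      rw [← hT, Finset.smul_sum]
      exact Finset.sum_congr rfl fun k _ => key k
    have e2 : L * ‖J T‖ ^ 2 = ‖⟪J T, J ((L : ℂ) • T)⟫_ℂ‖ := by
      rw [map_smul, inner_smul_right, norm_mul, Complex.norm_natCast, inner_self_eq_norm_sq_to_K,
        norm_pow, RCLike.norm_ofReal, abs_norm]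
    rw [e2, e, map_sum, inner_sum]
    refine (norm_sum_le _ _).trans (Finset.sum_le_sum fun k _ => ?_)
    rw [map_neg, inner_neg_right, norm_neg, ds_NSq hK]
    exact norm_inner_le_norm _ _
  have s2 := Finset.sum_sq_le_sum_mul_sum_of_sq_le_mul (Finset.range N)
    (r := fun k => ‖J (Ds L K (star S) (k / 2) T)‖ *
      ‖J (∑ i, Γ (k + 1) i (Ds L K S ((k + 1) / 2) (v i)))‖)
    (f := fun k => 2 * ((((k / 2 : ℕ) : ℝ) + 1) * ‖J (Ds L K (star S) (k / 2) T)‖ ^ 2))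
    (g := fun k => γ / L * ∑ i, ‖J (Ds L K S ((k + 1) / 2) (v i))‖ ^ 2)
    (fun _ _ => by positivity) (fun _ _ => by positivity) fun k _ => by
      have h1 := jrow (k + 1) fun i => Ds L K S ((k + 1) / 2) (v i)
      have h2 : ((k + 1 : ℕ) : ℝ) ≤ 2 * (((k / 2 : ℕ) : ℝ) + 1) := by
        exact_mod_cast (by omega : k + 1 ≤ 2 * (k / 2 + 1))
      have h3 : 0 ≤ ∑ i, ‖J (Ds L K S ((k + 1) / 2) (v i))‖ ^ 2 := by positivity
      have h4 := h1.trans (mul_le_mul_of_nonneg_right (mul_le_mul_of_nonneg_left h2 hγ) h3)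
      rw [← le_div_iff₀' hLp] at h4
      rw [mul_pow]
      refine (mul_le_mul_of_nonneg_left h4 (sq_nonneg _)).trans (le_of_eq ?_)
      ring
  have s3 : ∑ k ∈ Finset.range N, 2 * ((((k / 2 : ℕ) : ℝ) + 1) *
      ‖J (Ds L K (star S) (k / 2) T)‖ ^ 2) ≤ 4 * (a * L ^ 2 * ‖J T‖ ^ 2) := by
    have h1 := half_NSq (F := fun k => ((k : ℝ) + 1) * ‖J (Ds L K (star S) k T)‖ ^ 2)
      (fun k => by positivity) N
    have h2 := hO.quad N T
    rw [← Finset.mul_sum]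
    linarith
  have s4 : ∑ k ∈ Finset.range N, γ / L * ∑ i, ‖J (Ds L K S ((k + 1) / 2) (v i))‖ ^ 2 ≤
      2 * q * γ * ∑ i, ‖v i‖ ^ 2 := by
    have h1 := half_NSq (F := fun k => ∑ i, ‖J (Ds L K S k (v i))‖ ^ 2)
      (fun k => by positivity) L
    have h2 : ∑ k ∈ Finset.range L, ∑ i, ‖J (Ds L K S k (v i))‖ ^ 2 ≤ q * L * ∑ i, ‖v i‖ ^ 2 := by
      rw [Finset.sum_comm, Finset.mul_sum]
      exact Finset.sum_le_sum fun i _ => hsq (v i)
    have h3 : 0 ≤ ∑ i, ‖J (Ds L K S (0 / 2) (v i))‖ ^ 2 := by positivity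
    nth_rewrite 1 [show Finset.range L = Finset.range (N + 1) by rw [hLL]] at h1
    rw [Finset.sum_range_succ'] at h1
    rw [← Finset.mul_sum]
    have h4 : ∑ k ∈ Finset.range N, ∑ i, ‖J (Ds L K S ((k + 1) / 2) (v i))‖ ^ 2 ≤
        2 * (q * L * ∑ i, ‖v i‖ ^ 2) := by linarith
    refine (mul_le_mul_of_nonneg_left h4 (by positivity)).trans (le_of_eq ?_)
    field_simp
  have hV : 0 ≤ ∑ i, ‖v i‖ ^ 2 := by positivity
  have s5 : (L * ‖J T‖ ^ 2) ^ 2 ≤ 4 * (a * L ^ 2 * ‖J T‖ ^ 2) * (2 * q * γ * ∑ i, ‖v i‖ ^ 2) :=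
    (pow_le_pow_left₀ (by positivity) s1 2).trans (s2.trans (mul_le_mul s3 s4
      (Finset.sum_nonneg fun _ _ => by positivity) (by positivity)))
  have s6 : ‖J T‖ ^ 2 ≤ 8 * a * q * (γ * ∑ i, ‖v i‖ ^ 2) := by
    rcases (sq_nonneg ‖J T‖).eq_or_lt with h | h
    · rw [← h]; positivity
    · refine le_of_mul_le_mul_left ?_ (mul_pos (pow_pos hLp 2) h)
      linarith
  calc c ^ 2 * ‖J T‖ ^ 2 ≤ c ^ 2 * (8 * a * q * (γ * ∑ i, ‖v i‖ ^ 2)) :=
        mul_le_mul_of_nonneg_left s6 (sq_nonneg _)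
    _ = 8 * a * q * (γ * (c ^ 2 * ∑ i, ‖v i‖ ^ 2)) := by ring
    _ ≤ _ := by gcongr

end Abstract

end Pool.Agent.MP_954c34_an.Rank

end

section
set_option linter.all false

open MeasureTheory Set
open scoped InnerProductSpace ComplexConjugate

noncomputable section

namespace Pool.Agent.MP_954c34_an.Rank

open Pool.Agent.MP_954c34_an.Sharp

variable {X Y : Type} [NormedAddCommGroup X] [InnerProductSpace ℂ X] [CompleteSpace X]
  [NormedAddCommGroup Y] [InnerProductSpace ℂ Y] [CompleteSpace Y]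

lemma dyadic_KatoOrb (f g : ℕ → ℝ) (n : ℕ) (h : ∀ m ≤ n, ∀ j, 2 ^ m ≤ j + 1 → f j ≤ g m) :
    ∑ j ∈ Finset.range (2 ^ (n + 1) - 1), f j ≤ ∑ m ∈ Finset.range (n + 1), 2 ^ m * g m := by
  induction n with
  | zero => simpa using h 0 le_rfl 0 (by norm_num)
  | succ n ih =>
    have h1 : 1 ≤ 2 ^ (n + 1) := Nat.one_le_two_pow
    have e : 2 ^ (n + 1 + 1) - 1 = (2 ^ (n + 1) - 1) + 2 ^ (n + 1) := by
      rw [pow_succ 2 (n + 1)]
      omega
    rw [e, Finset.sum_range_add, Finset.sum_range_succ _ (n + 1)]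
    refine add_le_add (ih fun m hm => h m (by omega)) ?_
    have h2 : ∑ x ∈ Finset.range (2 ^ (n + 1)), f (2 ^ (n + 1) - 1 + x) ≤
        ∑ x ∈ Finset.range (2 ^ (n + 1)), g (n + 1) :=
      Finset.sum_le_sum fun x _ => h (n + 1) le_rfl _ (by omega)
    refine h2.trans (le_of_eq ?_)
    rw [Finset.sum_const, Finset.card_range, nsmul_eq_mul]
    push_cast
    rfl

lemma ds_res_KatoOrb {K B S : X →L[ℂ] X} {L : ℕ} (h : IsStep K B L S) (j : ℕ) {r e : X}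
    (he : B r = K e) : Ds L K S j r = (Rs L K S ^ (j + 1)) e := by
  have hc : (1 - Rs L K S) * Rs L K S ^ j = Rs L K S ^ j * (1 - Rs L K S) :=
    (((Commute.one_left _).sub_left (Commute.refl _)).pow_right j).eq
  rw [Ds, hc, h.one_sub, pow_succ, ContinuousLinearMap.smul_apply, ContinuousLinearMap.mul_apply,
    ContinuousLinearMap.mul_apply, ContinuousLinearMap.mul_apply, he, ← map_smul, ← map_smul]
  rfl

lemma bound_KatoOrb {J : X →L[ℂ] Y} {K B S : X →L[ℂ] X} {L : ℕ} {a : ℝ} (h : IsStep K B L S)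
    (ha : 1 ≤ a) (ho : IsOrb J K S L a) (j : ℕ) {r e v : X} {s : ℝ} (hs : 0 ≤ s)
    (he : B r = K e) (hv : v = r + (s : ℂ) • e) (hj : s * L ≤ j + 1) :
    ‖J (Ds L K S j v)‖ ≤ (1 + a) * ‖J e‖ := by
  have h1 := ho.contr (j + 1) e
  have h2 := ho.ritt j e
  have hj0 : (0 : ℝ) < j + 1 := by positivity
  have h3 : s * ‖J (Ds L K S j e)‖ ≤ a * ‖J e‖ := by
    have h4 : (j + 1) * (s * ‖J (Ds L K S j e)‖) ≤ (j + 1) * (a * ‖J e‖) := by
      calc (j + 1) * (s * ‖J (Ds L K S j e)‖) = s * ((j + 1) * ‖J (Ds L K S j e)‖) := by ring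
        _ ≤ s * (a * L * ‖J e‖) := mul_le_mul_of_nonneg_left h2 hs
        _ = s * L * (a * ‖J e‖) := by ring
        _ ≤ (j + 1) * (a * ‖J e‖) :=
          mul_le_mul_of_nonneg_right hj (mul_nonneg (by linarith) (norm_nonneg _))
    exact le_of_mul_le_mul_left h4 hj0
  rw [hv, map_add, map_add, ds_res_KatoOrb h j he, map_smul, map_smul]
  refine (norm_add_le _ _).trans ?_
  rw [norm_smul, Complex.norm_real, Real.norm_of_nonneg hs]
  linarith

theorem katoOrb_st : KatoOrbSt X Y := by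
  intro J K B S N c a C hK hc hB hS ha ho hC v
  have hex : ∀ k : ℕ, ∃ r : X, K r + ((1 / 2 : ℂ) ^ k) • B r = K v := fun k => by
    have hu := hK.exists_res (s := (1 / 2 : ℝ) ^ k) hc (by positivity) hB
    obtain ⟨r, hr⟩ := (ContinuousLinearMap.isUnit_iff_bijective.1 hu).2 (K v)
    refine ⟨r, ?_⟩
    rw [ContinuousLinearMap.add_apply, ContinuousLinearMap.smul_apply] at hr
    rw [← hr]
    push_cast
    rfl
  choose r hr using hex
  have hk := hC v r fun k _ => hr k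
  have hone : ∀ k : ℕ, (2 : ℂ) ^ k * (1 / 2 : ℂ) ^ k = 1 := fun k => by
    rw [← mul_pow]
    norm_num
  have hb : ∀ m ≤ N, ∀ j, 2 ^ m ≤ j + 1 → ‖J (Ds (2 ^ N) K S j v)‖ ^ 2 ≤
      (1 + a) ^ 2 * (2 ^ (N - m)) ^ 2 * ‖J (v - r (N - m))‖ ^ 2 := by
    intro m hm j hj
    have h1 := bound_KatoOrb hS ha ho j (r := r (N - m)) (e := (2 : ℂ) ^ (N - m) • (v - r (N - m)))
      (v := v) (s := (1 / 2 : ℝ) ^ (N - m)) (by positivity) ?_ ?_ ?_
    · rw [map_smul, norm_smul, norm_pow, Complex.norm_two] at h1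
      have h2 := pow_le_pow_left₀ (norm_nonneg _) h1 2
      refine h2.trans (le_of_eq ?_)
      ring
    · rw [map_smul, map_sub, ← hr (N - m), add_sub_cancel_left, smul_smul, hone, one_smul]
    · push_cast
      rw [smul_smul, mul_comm, hone, one_smul, add_sub_cancel]
    · have e : (2 : ℝ) ^ N = 2 ^ (N - m) * 2 ^ m := by
        rw [← pow_add, Nat.sub_add_cancel hm]
      have e2 : (1 / 2 : ℝ) ^ (N - m) * 2 ^ (N - m) = 1 := by
        rw [← mul_pow]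
        norm_num
      have hj' : (2 : ℝ) ^ m ≤ j + 1 := by exact_mod_cast hj
      push_cast
      rw [e, ← mul_assoc, e2, one_mul]
      exact hj'
  have hd := dyadic_KatoOrb _ _ N hb
  have hle : 2 ^ N ≤ 2 ^ (N + 1) - 1 := by
    have h1 : 1 ≤ 2 ^ N := Nat.one_le_two_pow
    rw [pow_succ]
    omega
  have h3 : ∑ j ∈ Finset.range (2 ^ N), ‖J (Ds (2 ^ N) K S j v)‖ ^ 2 ≤
      ∑ j ∈ Finset.range (2 ^ (N + 1) - 1), ‖J (Ds (2 ^ N) K S j v)‖ ^ 2 :=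
    Finset.sum_le_sum_of_subset_of_nonneg (Finset.range_mono hle) fun _ _ _ => sq_nonneg _
  refine h3.trans (hd.trans ?_)
  have h4 : ∑ m ∈ Finset.range (N + 1),
      (2 : ℝ) ^ m * ((1 + a) ^ 2 * (2 ^ (N - m)) ^ 2 * ‖J (v - r (N - m))‖ ^ 2) =
      (1 + a) ^ 2 * 2 ^ N * ∑ k ∈ Finset.range (N + 1), 2 ^ k * ‖J (v - r k)‖ ^ 2 := by
    rw [← Finset.sum_flip (fun k => (2 : ℝ) ^ k * ‖J (v - r k)‖ ^ 2), Finset.mul_sum]
    refine Finset.sum_congr rfl fun m hm => ?_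
    have hm' : m ≤ N := Nat.lt_succ_iff.1 (Finset.mem_range.1 hm)
    have e : (2 : ℝ) ^ N = 2 ^ (N - m) * 2 ^ m := by
      rw [← pow_add, Nat.sub_add_cancel hm']
    rw [e]
    ring
  rw [h4]
  exact mul_le_mul_of_nonneg_left hk (by positivity)

end Pool.Agent.MP_954c34_an.Rank

end

section
set_option linter.all false

open MeasureTheory Set
open scoped InnerProductSpace ComplexConjugate

noncomputable section

namespace Pool.Agent.MP_954c34_an.Rank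

open Pool.Agent.MP_954c34_an.Sharp

section Abstract

variable {X Y : Type} [NormedAddCommGroup X] [InnerProductSpace ℂ X] [CompleteSpace X]
  [NormedAddCommGroup Y] [InnerProductSpace ℂ Y] [CompleteSpace Y]

lemma pow_NDec {J : X →L[ℂ] Y} {K : X →L[ℂ] X} (hK : IsGram J K) (S : X →L[ℂ] X) (L b : ℕ) :
    ∀ w x : X, ⟪J w, J ((Rs L K S ^ b) x)⟫_ℂ = ⟪J ((Rs L K (star S) ^ b) w), J x⟫_ℂ := by
  induction b with
  | zero => intro w x; rfl
  | succ b ih =>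
    intro w x
    rw [pow_succ', ContinuousLinearMap.mul_apply, hK.inner_Rs, ih, pow_succ,
      ContinuousLinearMap.mul_apply]

lemma dual_NDec {J : X →L[ℂ] Y} {K : X →L[ℂ] X} (hK : IsGram J K) (S : X →L[ℂ] X) (L : ℕ)
    (w x : X) : ⟪Rs L K (star S) w, x⟫_ℂ = (L : ℂ) * ⟪J w, J (S x)⟫_ℂ := by
  rw [Rs, ContinuousLinearMap.mul_apply, ContinuousLinearMap.star_eq_adjoint,
    ContinuousLinearMap.adjoint_inner_left, ContinuousLinearMap.smul_apply, inner_smul_left,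
    map_natCast, ← inner_conj_symm (K w), hK, inner_conj_symm]

lemma smooth_NDec {J : X →L[ℂ] Y} {K S : X →L[ℂ] X} {L : ℕ} {a : ℝ} (hK : IsGram J K)
    (hL : 1 ≤ L) (ha : 1 ≤ a) (h : IsOrb J K (star S) L a) (b : ℕ) (x : X) :
    ((b : ℝ) + 1) * L * ‖J ((Rs L K S ^ b) (S x))‖ ^ 2 ≤ a * ‖x‖ ^ 2 := by
  obtain ⟨y, hy⟩ : ∃ y, y = (Rs L K S ^ b) (S x) := ⟨_, rfl⟩
  have h1 : ⟪(Rs L K (star S) ^ (b + 1)) y, x⟫_ℂ = (L : ℂ) * ⟪J y, J y⟫_ℂ := by
    rw [pow_succ', ContinuousLinearMap.mul_apply, dual_NDec hK, ← pow_NDec hK, ← hy]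
  have h2 : (L : ℝ) * ‖J y‖ ^ 2 ≤ ‖(Rs L K (star S) ^ (b + 1)) y‖ * ‖x‖ := by
    have := norm_inner_le_norm (𝕜 := ℂ) ((Rs L K (star S) ^ (b + 1)) y) x
    rwa [h1, norm_mul, Complex.norm_natCast, inner_self_eq_norm_sq_to_K, norm_pow,
      RCLike.norm_ofReal, abs_norm] at this
  have h3 := h.smooth b y
  rw [← hy]
  have L0 : (0 : ℝ) < L := by exact_mod_cast hL
  rcases (norm_nonneg (J y)).eq_or_lt with h0 | h0
  · rw [← h0]
    simp only [ne_eq, OfNat.ofNat_ne_zero, not_false_eq_true, zero_pow, mul_zero]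
    positivity
  · refine le_of_mul_le_mul_right ?_ (show 0 < (L : ℝ) * ‖J y‖ ^ 2 by positivity)
    calc ((b : ℝ) + 1) * L * ‖J y‖ ^ 2 * (L * ‖J y‖ ^ 2) = (b + 1) * (L * ‖J y‖ ^ 2) ^ 2 := by ring
      _ ≤ (b + 1) * (‖(Rs L K (star S) ^ (b + 1)) y‖ * ‖x‖) ^ 2 :=
        mul_le_mul_of_nonneg_left (pow_le_pow_left₀ (by positivity) h2 2) (by positivity)
      _ = (b + 1) * ‖(Rs L K (star S) ^ (b + 1)) y‖ ^ 2 * ‖x‖ ^ 2 := by ring
      _ ≤ a * L * ‖J y‖ ^ 2 * ‖x‖ ^ 2 := mul_le_mul_of_nonneg_right h3 (by positivity)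
      _ = _ := by ring

theorem ndec_st : NDecSt X Y := by
  intro J K B S L a hK hL _ ha h h'
  have L0 : (0 : ℝ) < L := by exact_mod_cast hL
  refine ⟨fun j hj x => ?_, fun x => ?_⟩
  · obtain ⟨α, β, e1, e2, e3⟩ : ∃ α β : ℕ, j - 1 = α + β ∧ j ≤ 2 * (α + 1) ∧ j ≤ 2 * (β + 1) :=
      ⟨(j - 1) / 2, j / 2, by omega, by omega, by omega⟩
    have e : Wn L K S j x = -Ds L K S α ((Rs L K S ^ β) (S x)) := by
      rw [Wn, if_neg (by omega), e1, Ds, Ds, pow_add, ← mul_assoc]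
      rfl
    rw [e, map_neg, norm_neg]
    have h1 := pow_le_pow_left₀ (by positivity) (h.ritt α ((Rs L K S ^ β) (S x))) 2
    have h2 := smooth_NDec hK hL ha h' β x
    have f2 : (j : ℝ) ≤ 2 * (α + 1) := by exact_mod_cast e2
    have f3 : (j : ℝ) ≤ 2 * (β + 1) := by exact_mod_cast e3
    have f4 : (j : ℝ) ^ 3 ≤ (2 * (α + 1)) ^ 2 * (2 * (β + 1)) := by
      rw [pow_succ]
      exact mul_le_mul (pow_le_pow_left₀ (by positivity) f2 2) f3 (by positivity) (by positivity)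
    calc _ ≤ (2 * ((α : ℝ) + 1)) ^ 2 * (2 * (β + 1)) *
          ‖J (Ds L K S α ((Rs L K S ^ β) (S x)))‖ ^ 2 :=
        mul_le_mul_of_nonneg_right f4 (by positivity)
      _ = 8 * (β + 1) * ((α + 1) * ‖J (Ds L K S α ((Rs L K S ^ β) (S x)))‖) ^ 2 := by ring
      _ ≤ 8 * (β + 1) * (a * L * ‖J ((Rs L K S ^ β) (S x))‖) ^ 2 :=
        mul_le_mul_of_nonneg_left h1 (by positivity)
      _ = 8 * a ^ 2 * L * ((β + 1) * L * ‖J ((Rs L K S ^ β) (S x))‖ ^ 2) := by ring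
      _ ≤ 8 * a ^ 2 * L * (a * ‖x‖ ^ 2) := mul_le_mul_of_nonneg_left h2 (by positivity)
      _ = _ := by ring
  · have h1 := h.ritt (L - 1) x
    rw [Nat.cast_sub hL, Nat.cast_one, sub_add_cancel] at h1
    have h2 : ‖J (Ds L K S (L - 1) x)‖ ≤ a * ‖J‖ * ‖x‖ := by
      have h3 : ‖J (Ds L K S (L - 1) x)‖ ≤ a * ‖J x‖ :=
        le_of_mul_le_mul_left (by linarith) L0
      rw [mul_assoc]
      exact h3.trans (mul_le_mul_of_nonneg_left (J.le_opNorm x) (by linarith))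
    rw [ContinuousLinearMap.neg_apply, map_neg, norm_neg, ← mul_pow]
    exact pow_le_pow_left₀ (norm_nonneg _) h2 2

end Abstract

end Pool.Agent.MP_954c34_an.Rank

end

section
set_option linter.all false

open MeasureTheory Set
open scoped InnerProductSpace ComplexConjugate

noncomputable section

namespace Pool.Agent.MP_954c34_an.Rank

open Pool.Agent.MP_954c34_an.Sharp

section Abstract

variable {X Y : Type} [NormedAddCommGroup X] [InnerProductSpace ℂ X] [CompleteSpace X]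
  [NormedAddCommGroup Y] [InnerProductSpace ℂ Y] [CompleteSpace Y]

lemma symm_KatoSa {T : X →L[ℂ] X} (hT : IsSelfAdjoint T) (x y : X) :
    (⟪x, T y⟫_ℂ).re = (⟪y, T x⟫_ℂ).re := by
  have h : ⟪T y, x⟫_ℂ = ⟪y, T x⟫_ℂ :=
    (ContinuousLinearMap.isSelfAdjoint_iff_isSymmetric.1 hT) y x
  rw [← h, ← inner_conj_symm, Complex.conj_re]

lemma test_KatoSa {K B : X →L[ℂ] X} {s : ℝ} {v r : X} (h : K r + (s : ℂ) • B r = K v) (x : X) :
    (⟪x, K r⟫_ℂ).re + s * (⟪x, B r⟫_ℂ).re = (⟪x, K v⟫_ℂ).re := by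
  rw [← h, inner_add_right, Complex.add_re, inner_smul_right, Complex.re_ofReal_mul]

lemma step_KatoSa {J : X →L[ℂ] Y} {K B : X →L[ℂ] X} {c s : ℝ} (hK : IsGram J K) (hc : 0 < c)
    (hB : IsSelfAdjoint B) (hC : Coer c B) (hs : 0 < s) {v r q : X}
    (h0 : K r + (s : ℂ) • B r = K v) (h1 : K q + ((s / 2 : ℝ) : ℂ) • B q = K v) :
    ‖J (v - r)‖ ^ 2 ≤ s * (2 * ((⟪v, B q⟫_ℂ).re - (⟪v, B r⟫_ℂ).re)) := by
  have a1 := test_KatoSa h0 v
  have a2 := test_KatoSa h0 r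
  have a3 := test_KatoSa h0 q
  have a4 := test_KatoSa h1 v
  have a5 := test_KatoSa h1 r
  have a6 := test_KatoSa h1 q
  have k1 := symm_KatoSa hK.sa v r
  have k2 := symm_KatoSa hK.sa v q
  have k3 := symm_KatoSa hK.sa r q
  have b3 := symm_KatoSa hB r q
  have p1 : 0 ≤ (⟪v - q - q + r, K (v - q - q + r)⟫_ℂ).re := by
    rw [← hK.norm_sq]; positivity
  have p2 : 0 ≤ s * (⟪q - r, B (q - r)⟫_ℂ).re :=
    mul_nonneg hs.le (le_trans (by positivity) (hC _))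
  rw [hK.norm_sq]
  simp only [map_sub, map_add, inner_sub_left, inner_sub_right, inner_add_left, inner_add_right,
    Complex.sub_re, Complex.add_re] at p1 p2 ⊢
  rw [b3] at a5 p2
  linarith

lemma bound_KatoSa {J : X →L[ℂ] Y} {K B : X →L[ℂ] X} {c s Λ : ℝ} (hK : IsGram J K) (hc : 0 < c)
    (hC : Coer c B) (hΛ : ‖B‖ ≤ Λ) (hs : 0 < s) {v r : X} (h0 : K r + (s : ℂ) • B r = K v) :
    0 ≤ (⟪v, B r⟫_ℂ).re ∧ (⟪v, B r⟫_ℂ).re ≤ Λ ^ 2 / c * ‖v‖ ^ 2 := by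
  have a1 := test_KatoSa h0 v
  have a2 := test_KatoSa h0 r
  have k1 := symm_KatoSa hK.sa v r
  have p1 : 0 ≤ (⟪v - r, K (v - r)⟫_ℂ).re := by
    rw [← hK.norm_sq]; positivity
  simp only [map_sub, inner_sub_left, inner_sub_right, Complex.sub_re] at p1
  have h1 : (⟪r, B r⟫_ℂ).re ≤ (⟪v, B r⟫_ℂ).re := le_of_mul_le_mul_left (by linarith) hs
  have h2 := (hC r).trans h1
  have h3 : (⟪v, B r⟫_ℂ).re ≤ ‖v‖ * (Λ * ‖r‖) :=
    (re_inner_le_norm (𝕜 := ℂ) v (B r)).trans (mul_le_mul_of_nonneg_left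
      ((B.le_opNorm r).trans (mul_le_mul_of_nonneg_right hΛ (norm_nonneg _))) (norm_nonneg _))
  refine ⟨le_trans (by positivity) h2, ?_⟩
  rw [div_mul_eq_mul_div, le_div_iff₀ hc]
  obtain ⟨p, hp⟩ : ∃ p, p = (⟪v, B r⟫_ℂ).re := ⟨_, rfl⟩
  rw [← hp] at h2 h3 ⊢
  have hp0 : 0 ≤ p := le_trans (by positivity) h2
  have h4 : p ^ 2 * c ≤ (‖v‖ * (Λ * ‖r‖)) ^ 2 * c :=
    mul_le_mul_of_nonneg_right (pow_le_pow_left₀ hp0 h3 2) hc.le
  have h5 : Λ ^ 2 * ‖v‖ ^ 2 * (c * ‖r‖ ^ 2) ≤ Λ ^ 2 * ‖v‖ ^ 2 * p :=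
    mul_le_mul_of_nonneg_left h2 (by positivity)
  rcases hp0.eq_or_lt with e | e
  · rw [← e, zero_mul]; positivity
  · exact le_of_mul_le_mul_left (by nlinarith) e

theorem katoSa_st : KatoSaSt X Y := by
  intro J K B N c Λ hK hc hB hC hΛ v r hr
  have hs : ∀ k : ℕ, (0 : ℝ) < (1 / 2) ^ k := fun k => by positivity
  have hcast : ∀ k : ℕ, (1 / 2 : ℂ) ^ k = (((1 / 2 : ℝ) ^ k : ℝ) : ℂ) := fun k => by
    push_cast; rfl
  obtain ⟨ρ, hρ⟩ := (ContinuousLinearMap.isUnit_iff_bijective.1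
    (hK.exists_res hc (hs N) hC)).2 (K v)
  obtain ⟨q, hq, hqr⟩ : ∃ q : ℕ → X, (∀ k ≤ N, K (q k) + (((1 / 2 : ℝ) ^ k : ℝ) : ℂ) • B (q k) = K v) ∧
      ∀ k < N, q k = r k := by
    refine ⟨fun k => if k < N then r k else ρ, fun k hk => ?_, fun k hk => if_pos hk⟩
    by_cases e : k < N
    · simp only [if_pos e]
      rw [← hcast]
      exact hr k e
    · simp only [if_neg e]
      obtain rfl : k = N := by omega
      exact hρ
  have h1 : ∑ k ∈ Finset.range N, 2 ^ k * ‖J (v - r k)‖ ^ 2 ≤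
      ∑ k ∈ Finset.range N, 2 * ((⟪v, B (q (k + 1))⟫_ℂ).re - (⟪v, B (q k)⟫_ℂ).re) := by
    refine Finset.sum_le_sum fun k hk => ?_
    have hk' := Finset.mem_range.1 hk
    have h := step_KatoSa hK hc hB hC (hs k) (hq k hk'.le) (q := q (k + 1)) (by
      have := hq (k + 1) hk'
      rwa [pow_succ, mul_one_div] at this)
    rw [← hqr k hk']
    refine (mul_le_mul_of_nonneg_left h (by positivity)).trans_eq ?_
    rw [← mul_assoc, ← mul_pow]
    norm_num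
  rw [← Finset.mul_sum, Finset.sum_range_sub fun k => (⟪v, B (q k)⟫_ℂ).re] at h1
  have h2 := (bound_KatoSa hK hc hC hΛ (hs 0) (hq 0 N.zero_le)).1
  have h3 := bound_KatoSa hK hc hC hΛ (hs N) (hq N le_rfl)
  have h4 : 4 * Λ ^ 2 / c * ‖v‖ ^ 2 = 4 * (Λ ^ 2 / c * ‖v‖ ^ 2) := by ring
  linarith [h3.1, h3.2]

end Abstract

end Pool.Agent.MP_954c34_an.Rank

end

section
set_option linter.all false

open MeasureTheory Set
open scoped InnerProductSpace ComplexConjugate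

noncomputable section

namespace Pool.Agent.MP_954c34_an.Rank

open Pool.Agent.MP_954c34_an.Sharp

variable {X Y : Type} [NormedAddCommGroup X] [InnerProductSpace ℂ X] [CompleteSpace X]
  [NormedAddCommGroup Y] [InnerProductSpace ℂ Y] [CompleteSpace Y]

lemma canc_KatoPert {c a b : ℝ} (ha : 0 ≤ a) (hb : 0 ≤ b) (h : c * a ^ 2 ≤ a * b) : c * a ≤ b := by
  rcases ha.eq_or_lt with rfl | ha
  · simpa using hb
  · exact le_of_mul_le_mul_left (by nlinarith) ha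

lemma re_KatoPert (x y : X) : (⟪x, y⟫_ℂ).re ≤ ‖x‖ * ‖y‖ := re_inner_le_norm (𝕜 := ℂ) x y

lemma one_KatoPert {J : X →L[ℂ] Y} {K B B' : X →L[ℂ] X} {c Λ ε s : ℝ} (hK : IsGram J K)
    (hc : 0 < c) (hB : Coer c B) (hB' : Coer c B') (hΛ : ‖B'‖ ≤ Λ) (hε : ‖B' - B‖ ≤ ε) (hs : 0 < s)
    {v r r' : X} (h : K r + (s : ℂ) • B r = K v) (h' : K r' + (s : ℂ) • B' r' = K v) :
    ‖J (r - r')‖ ≤ ‖J‖ * ε * Λ / c ^ 2 * ‖v‖ := by
  have Λ0 : 0 ≤ Λ := (norm_nonneg _).trans hΛ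
  have ε0 : 0 ≤ ε := (norm_nonneg _).trans hε
  have a1 : c * ‖r'‖ ≤ Λ * ‖v‖ := by
    refine canc_KatoPert (norm_nonneg _) (by positivity) ?_
    have e : K (v - r') = (s : ℂ) • B' r' := by rw [map_sub, ← h', add_sub_cancel_left]
    have h1 := hK.norm_sq (v - r')
    rw [e, inner_smul_right, Complex.re_ofReal_mul, inner_sub_left, Complex.sub_re] at h1
    have h2 : 0 ≤ (⟪v, B' r'⟫_ℂ).re - (⟪r', B' r'⟫_ℂ).re :=
      nonneg_of_mul_nonneg_right (h1 ▸ sq_nonneg _) hs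
    have h3 := re_KatoPert v (B' r')
    have h4 : ‖B' r'‖ ≤ Λ * ‖r'‖ := B'.le_of_opNorm_le hΛ r'
    have h5 := mul_le_mul_of_nonneg_left h4 (norm_nonneg v)
    have h6 := hB' r'
    nlinarith
  have a2 : c * ‖r - r'‖ ≤ ε * ‖r'‖ := by
    refine canc_KatoPert (norm_nonneg _) (by positivity) ?_
    have e : K (r - r') = (s : ℂ) • ((B' - B) r' - B (r - r')) := by
      rw [map_sub, eq_sub_of_add_eq h, eq_sub_of_add_eq h', map_sub,
        ContinuousLinearMap.sub_apply]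
      module
    have h1 := hK.norm_sq (r - r')
    rw [e, inner_smul_right, Complex.re_ofReal_mul, inner_sub_right, Complex.sub_re] at h1
    have h2 : 0 ≤ (⟪r - r', (B' - B) r'⟫_ℂ).re - (⟪r - r', B (r - r')⟫_ℂ).re :=
      nonneg_of_mul_nonneg_right (h1 ▸ sq_nonneg _) hs
    have h3 := re_KatoPert (r - r') ((B' - B) r')
    have h4 : ‖(B' - B) r'‖ ≤ ε * ‖r'‖ := (B' - B).le_of_opNorm_le hε r'
    have h5 := mul_le_mul_of_nonneg_left h4 (norm_nonneg (r - r'))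
    have h6 := hB (r - r')
    linarith
  have a3 : c ^ 2 * ‖r - r'‖ ≤ ε * Λ * ‖v‖ := by
    nlinarith [mul_le_mul_of_nonneg_left a2 hc.le, mul_le_mul_of_nonneg_left a1 ε0]
  refine (J.le_opNorm _).trans ?_
  rw [div_mul_eq_mul_div, le_div_iff₀ (by positivity)]
  nlinarith [mul_le_mul_of_nonneg_left a3 (norm_nonneg J)]

theorem katoPert_st : KatoPertSt X Y := by
  intro J K B B' N c Λ ε C hK hc hB hB' hΛ hε h v r' hr'
  have es : ∀ k : ℕ, (1 / 2 : ℂ) ^ k = (((1 / 2 : ℝ) ^ k : ℝ) : ℂ) := fun k => by push_cast; rfl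
  have hs : ∀ k : ℕ, (0 : ℝ) < (1 / 2) ^ k := fun k => by positivity
  choose r hr using fun k : ℕ =>
    (ContinuousLinearMap.isUnit_iff_bijective.1 (hK.exists_res hc (hs k) hB)).2 (K v)
  have hr2 : ∀ k : ℕ, K (r k) + (((1 / 2 : ℝ) ^ k : ℝ) : ℂ) • B (r k) = K v := hr
  have h1 := h v r fun k _ => by rw [es]; exact hr2 k
  obtain ⟨q, hq⟩ : ∃ q, q = ‖J‖ * ε * Λ / c ^ 2 := ⟨_, rfl⟩
  have h2 : ∀ k ∈ Finset.range N, (2 : ℝ) ^ k * ‖J (v - r' k)‖ ^ 2 ≤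
      2 * (2 ^ k * ‖J (v - r k)‖ ^ 2) + 2 * (q * ‖v‖) ^ 2 * 2 ^ k := fun k hk => by
    have a1 := one_KatoPert hK hc hB hB' hΛ hε (hs k) (hr2 k)
      (by rw [← es]; exact hr' k (Finset.mem_range.1 hk))
    rw [← hq] at a1
    have a2 : ‖J (v - r' k)‖ ≤ ‖J (v - r k)‖ + ‖J (r k - r' k)‖ := by
      rw [← sub_add_sub_cancel v (r k) (r' k), map_add]
      exact norm_add_le _ _
    have a3 := pow_le_pow_left₀ (norm_nonneg _) (a2.trans (add_le_add_right a1 _)) 2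
    have a4 : ‖J (v - r' k)‖ ^ 2 ≤ 2 * ‖J (v - r k)‖ ^ 2 + 2 * (q * ‖v‖) ^ 2 := by
      nlinarith [sq_nonneg (‖J (v - r k)‖ - q * ‖v‖)]
    nlinarith [mul_le_mul_of_nonneg_left a4 (show (0 : ℝ) ≤ 2 ^ k by positivity)]
  have h3 : ∑ k ∈ Finset.range N, (2 : ℝ) ^ k ≤ 2 ^ N := by
    rw [geom_sum_eq (by norm_num)]
    linarith
  refine (Finset.sum_le_sum h2).trans ?_
  rw [Finset.sum_add_distrib, ← Finset.mul_sum, ← Finset.mul_sum, ← hq]
  nlinarith [mul_le_mul_of_nonneg_left h3 (show (0 : ℝ) ≤ 2 * (q * ‖v‖) ^ 2 by positivity)]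

end Pool.Agent.MP_954c34_an.Rank

end

section
set_option linter.all false

open MeasureTheory Set
open scoped InnerProductSpace ComplexConjugate

noncomputable section

namespace Pool.Agent.MP_954c34_an.Rank

open Pool.Agent.MP_954c34_an.Sharp

variable {V H : Type} [NormedAddCommGroup V] [InnerProductSpace ℂ V] [CompleteSpace V]
  [NormedAddCommGroup H] [InnerProductSpace ℂ H] [CompleteSpace H]

lemma self_KatoLine (y : V) : (⟪y, y⟫_ℂ).re = ‖y‖ ^ 2 := inner_self_eq_norm_sq (𝕜 := ℂ) _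

lemma int_KatoLine (x : LL V) : Integrable (fun t => ‖x t‖ ^ 2) (volume : Measure ℝ) :=
  ((L2.integrable_inner (𝕜 := ℂ) x x).re).congr
    (Filter.Eventually.of_forall fun t => self_KatoLine _)

lemma nsq_KatoLine (x : LL V) : ‖x‖ ^ 2 = ∫ t, ‖x t‖ ^ 2 := by
  rw [← inner_self_eq_norm_sq (𝕜 := ℂ), L2.inner_def,
    ← integral_re (L2.integrable_inner (𝕜 := ℂ) x x)]
  exact integral_congr_ae (Filter.Eventually.of_forall fun t => self_KatoLine _)

theorem katoLine_st : KatoLineSt V H := by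
  intro val K₀ K A B C N hK hA h v r hr
  have e : ∀ k, ∀ᵐ t : ℝ, k < N → K₀ (r k t) + ((1 / 2 : ℂ) ^ k) • B t (r k t) = K₀ (v t) := by
    intro k
    by_cases hk : k < N
    · filter_upwards [hK (r k), hA (r k), hK v,
        Lp.coeFn_add (K (r k)) (((1 / 2 : ℂ) ^ k) • A (r k)),
        Lp.coeFn_smul ((1 / 2 : ℂ) ^ k) (A (r k))] with t h1 h2 h3 h4 h5 _
      rw [hr k hk, h3, Pi.add_apply, h5, Pi.smul_apply, h1, h2] at h4
      exact h4.symm
    · exact Filter.Eventually.of_forall fun t h => absurd h hk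
  have i1 : ∀ k, Integrable (fun t => (2 : ℝ) ^ k * ‖val.compLpL 2 volume (v - r k) t‖ ^ 2)
      (volume : Measure ℝ) := fun k => (int_KatoLine _).const_mul _
  simp only [nsq_KatoLine, ← integral_const_mul]
  rw [← integral_finset_sum _ fun k _ => i1 k]
  refine integral_mono_ae (integrable_finset_sum _ fun k _ => i1 k)
    ((int_KatoLine v).const_mul C) ?_
  filter_upwards [ae_all_iff.2 e, ae_all_iff.2 fun k => val.coeFn_compLpL (v - r k),
    ae_all_iff.2 fun k => Lp.coeFn_sub v (r k)] with t h1 h2 h3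
  simp only [h2, h3, Pi.sub_apply]
  exact h t (v t) (fun k => r k t) h1

end Pool.Agent.MP_954c34_an.Rank

end

section
set_option linter.all false

open MeasureTheory Set
open scoped InnerProductSpace ComplexConjugate

noncomputable section

namespace Pool.Agent.MP_954c34_an.Rank

open Pool.Agent.MP_954c34_an.Sharp

variable {X Y : Type} [NormedAddCommGroup X] [InnerProductSpace ℂ X] [CompleteSpace X]
  [NormedAddCommGroup Y] [InnerProductSpace ℂ Y] [CompleteSpace Y]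

theorem nid_st : NIdSt X := by
  intro K B S L hL h
  refine ⟨fun y η hy => ?_, fun Γ hK hB => ?_⟩
  · have sg : ∀ x, (1 - Rs L K S) x = x - Rs L K S x := fun x => rfl
    have h0 : ∀ x, S (K ((L : ℂ) • x)) = Rs L K S x := fun x => by
      rw [map_smul K]
      rfl
    have h1 : ∀ x, S (B x) = x - Rs L K S x := fun x => by
      rw [← sg, h.one_sub]
      rfl
    have h2 : ∀ j < L, y j = Rs L K S (y (j + 1)) + S (η j) := fun j hj => by
      rw [← hy j hj, map_add, h0, h1, map_sub]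
      abel
    have h3 : ∀ k, k + 1 ≤ L → y 1 = ∑ i ∈ Finset.range k, (Rs L K S ^ i) (S (η (i + 1))) +
        (Rs L K S ^ k) (y (k + 1)) := by
      intro k
      induction k with
      | zero => intro _; simp
      | succ k ih =>
        intro hk
        rw [Finset.sum_range_succ, pow_succ, ContinuousLinearMap.mul_apply, add_assoc, ← map_add,
          add_comm (S _), ← h2 (k + 1) (by omega)]
        exact ih (by omega)
    obtain ⟨k, rfl⟩ : ∃ k, L = k + 1 := ⟨L - 1, by omega⟩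
    have h4 : y 0 - y 1 = S (η 0) - (1 - Rs (k + 1) K S) (y 1) := by
      rw [sg (y 1), h2 0 hL]
      abel
    have h5 : ∀ i, Wn (k + 1) K S (i + 1) (η (i + 1)) =
        -(((k + 1 : ℕ) : ℂ) •
          (1 - Rs (k + 1) K S) ((Rs (k + 1) K S ^ i) (S (η (i + 1))))) := fun i => by
      rw [Wn, if_neg (Nat.succ_ne_zero i), Nat.add_sub_cancel]
      rfl
    have h6 : Wn (k + 1) K S 0 (η 0) = ((k + 1 : ℕ) : ℂ) • S (η 0) := by
      rw [Wn, if_pos rfl]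
      rfl
    have h7 : (-Ds (k + 1) K S (k + 1 - 1)) (y (k + 1)) =
        -(((k + 1 : ℕ) : ℂ) • (1 - Rs (k + 1) K S) ((Rs (k + 1) K S ^ k) (y (k + 1)))) := rfl
    rw [h4, Finset.sum_range_succ', h6, h7, Finset.sum_congr rfl fun i _ => h5 i,
      h3 k le_rfl, map_add, map_sum, smul_sub, smul_add, Finset.smul_sum, Finset.sum_neg_distrib]
    abel
  · have s := h.comm hK hB
    have c : Commute Γ (Rs L K S) := s.mul_right (hK.smul_right _)
    have d : ∀ j, Commute Γ (Ds L K S j) := fun j =>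
      (((Commute.one_right Γ).sub_right c).mul_right (c.pow_right j)).smul_right _
    refine ⟨fun j => ?_, d⟩
    unfold Wn
    split_ifs
    · exact s.smul_right _
    · exact ((d _).mul_right s).neg_right

end Pool.Agent.MP_954c34_an.Rank

end

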