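import Pool.Agent.Mg.F954c34a.G0197c9

section
set_option linter.all false
set_option maxSynthPendingDepth 3

open MeasureTheory Set Filter Topology
open scoped InnerProductSpace ComplexConjugate ContDiff BoundedContinuousFunction

noncomputable section

namespace Pool.Agent.MP_954c34_an.Rank

open Pool.Agent.MP_954c34_an.Sharp Pool.Agent.MP_954c34_an.Sob

/-- Amplitudes `η` at frequency `4 ^ k` that are allowed by the modulus `θ`. -/
def Amp (θ : ℝ → ℝ) : Prop := ∀ (R : ℝ) (k₀ : ℕ), ∃ (k : ℕ) (η : ℝ), k₀ ≤ k ∧ 0 ≤ η ∧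
  η ^ 2 * 2 ^ k ≤ 1 ∧ R ≤ η * 2 ^ k ∧ ∀ d, 0 ≤ d → η * min 2 (4 ^ k * d) ≤ 4 * θ d

def AmpSt : Prop := ∀ θ : ℝ → ℝ, IsModulus θ → (¬∃ C : ℝ, ∀ t ∈ Ioc (0 : ℝ) 1, θ t ≤ C * √t) →
  Amp θ

def ProfSt : Prop := ∀ (θ : ℝ → ℝ) (T δ : ℝ) (k : ℕ → ℕ) (η : ℕ → ℝ), 0 < T → 0 < δ →
  (∀ j, 64 ≤ 4 ^ k j * (T / 2 ^ (j + 1))) → (∀ j, 0 ≤ η j ∧ η j ≤ 1) →
  (∀ j d, 0 ≤ d → η j * min 2 (4 ^ k j * d) ≤ 4 * θ d) →
  ∃ g : ℝ → ℝ, Continuous g ∧ (∀ t, |g t| ≤ δ) ∧ (∀ t s, |g t - g s| ≤ 4 * δ * θ |t - s|) ∧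
    ∀ j, ∀ t ∈ Icc (T / 2 ^ (j + 1)) (3 / 2 * (T / 2 ^ (j + 1))),
      g t = δ / 2 ^ (j + 1) * η j * Real.sin (4 ^ k j * (t - T / 2 ^ (j + 1)))

/-- `y` oscillates with speed `ρ` during a time `a / 16` inside `(a, 3 a / 2)`. -/
def Osc {X : Type} [NormedAddCommGroup X] (a ρ : ℝ) (y : ℝ → X) : Prop :=
  ∃ (p d : ℝ) (N : ℕ), a < p ∧ 0 < d ∧ p + N * d < 3 / 2 * a ∧ a / 16 ≤ N * d ∧
    ∀ i : ℕ, i < N → ρ * d ≤ ‖y (p + (i + 1) * d) - y (p + i * d)‖

def VarSt (X : Type) [NormedAddCommGroup X] [NormedSpace ℝ X] : Prop :=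
  ∀ (T : ℝ) (y : ℝ → X), Continuous y → y 0 = 0 → MemH1 T y →
    ∃ C : ℝ, ∀ a ρ : ℝ, 0 < a → 3 / 2 * a ≤ T → 0 ≤ ρ → Osc a ρ y → a / 16 * ρ ^ 2 ≤ C

section Abstract

variable {V H : Type} [NormedAddCommGroup V] [InnerProductSpace ℂ V] [CompleteSpace V]
  [NormedAddCommGroup H] [InnerProductSpace ℂ H] [CompleteSpace H]

/-- A resonant pair: a slow state `G` and a mode `Φ` of frequency `2 ^ k`. -/
structure Block (val : V →L[ℂ] H) (ι : H →L[ℂ] V →L⋆[ℂ] ℂ) (A B : V →L[ℂ] V →L⋆[ℂ] ℂ)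
    (M m w : ℝ) (k : ℕ) (G Φ : V) (h0 h1 h2 : H) : Prop where
  e0 : A G = ι h0
  e1 : B G = -((w : ℂ) • ι (val Φ))
  e2 : A Φ = ((4 : ℂ) ^ k) • ι (val Φ) + ι h1
  e3 : B Φ = (w : ℂ) • ι h2
  bG : ‖G‖ ≤ M
  b0 : ‖h0‖ ≤ M
  bΦ : ‖Φ‖ ≤ M * 4 ^ k
  bv : ‖val Φ‖ ≤ M * 2 ^ k
  low : m * 2 ^ k ≤ ‖val Φ‖
  b1 : ‖h1‖ ≤ M * 4 ^ k
  b2 : ‖h2‖ ≤ M * 8 ^ k

/-- A bounded classical solution living in the window `(a, 3 a / 2)`. -/
structure Piece (val : V →L[ℂ] H) (ι : H →L[ℂ] V →L⋆[ℂ] ℂ) (𝔄 : ℝ → V →L[ℂ] V →L⋆[ℂ] ℂ)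
    (a K ρ : ℝ) (u : ℝ → V) (f : ℝ → H) : Prop where
  cu : Continuous u
  cf : Continuous f
  bu : ∀ t, ‖u t‖ ≤ K
  bf : ∀ t, ‖f t‖ ≤ K
  zero : ∀ t, t ∉ Ioo a (3 / 2 * a) → u t = 0
  der : ∀ t, HasDerivAt (fun t => ι (val (u t))) (ι (f t) - 𝔄 t (u t)) t
  osc : Osc a ρ fun t => val (u t)

variable (V H)

def TBlockSt : Prop := ∀ (val : V →L[ℂ] H) (a M : ℝ), 0 < a → 0 ≤ M → ∃ K : ℝ, 0 < K ∧
  ∀ (ι : H →L[ℂ] V →L⋆[ℂ] ℂ) (A B : V →L[ℂ] V →L⋆[ℂ] ℂ) (m w η : ℝ) (k : ℕ) (G Φ : V)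
    (h0 h1 h2 : H) (g : ℝ → ℝ), Block val ι A B M m w k G Φ h0 h1 h2 → 0 ≤ m → 0 ≤ w → w ≤ 1 →
    0 ≤ η → η ^ 2 * 2 ^ k ≤ 1 → 64 ≤ 4 ^ k * a →
    (∀ t ∈ Icc a (3 / 2 * a), g t = η * Real.sin (4 ^ k * (t - a))) →
    ∃ u f, Piece val ι (fun t => A + (g t : ℂ) • B) a K (w * η * m * 2 ^ k / 4) u f

def SerSt : Prop := ∀ (val : V →L[ℂ] H) (ι : H →L[ℂ] V →L⋆[ℂ] ℂ) (𝔄 : ℝ → V →L[ℂ] V →L⋆[ℂ] ℂ)
  (T Λ : ℝ) (K ρ : ℕ → ℝ) (u : ℕ → ℝ → V) (f : ℕ → ℝ → H), (∀ h, toAntidual val h = ι h) →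
  0 < T → Continuous 𝔄 → (∀ t, ‖𝔄 t‖ ≤ Λ) → (∀ j, 0 < K j) → (∀ j, 0 ≤ ρ j) →
  (∀ j, Piece val ι 𝔄 (T / 2 ^ (j + 1)) (K j) (ρ j) (u j) (f j)) →
  (∀ j : ℕ, (j : ℝ) ≤ T / 2 ^ (j + 1) / 16 * (ρ j / (2 ^ j * K j)) ^ 2) →
  ∃ (F : ℝ → H) (v : ℝ → V), MemL2 T F ∧ IsLionsSolution val T 𝔄 F v ∧
    ¬MemH1 T fun t => val (v t)

variable {V H}

/-- Infinitely many non-interacting families of resonant pairs. -/
def Blocks {Z : Type} [NormedAddCommGroup Z] [NormedSpace ℝ Z] (val : V →L[ℂ] H)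
    (ι : H →L[ℂ] V →L⋆[ℂ] ℂ) (A : V →L[ℂ] V →L⋆[ℂ] ℂ) (S : Z →L[ℝ] V →L[ℂ] V →L⋆[ℂ] ℂ) : Prop :=
  ∃ (M m : ℕ → ℝ) (c : ℕ → ℕ → Z) (G : ℕ → V) (Φ : ℕ → ℕ → V) (h0 : ℕ → H) (h1 h2 : ℕ → ℕ → H),
    (∀ j, 1 ≤ M j) ∧ (∀ j, 0 < m j) ∧ (∀ j k, ‖c j k‖ ≤ M j) ∧
    (∀ j k, Block val ι A (S (c j k)) (M j) (m j) 1 k (G j) (Φ j k) (h0 j) (h1 j k) (h2 j k)) ∧
    ∀ i j, i ≠ j → ∀ k l, S (c i k) (G j) = 0 ∧ S (c i k) (Φ j l) = 0

variable (V H)

def GlueSt : Prop := ∀ (Z : Type) [NormedAddCommGroup Z] [NormedSpace ℝ Z] [CompleteSpace Z]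
  (val : V →L[ℂ] H) (ι : H →L[ℂ] V →L⋆[ℂ] ℂ) (A : V →L[ℂ] V →L⋆[ℂ] ℂ)
  (S : Z →L[ℝ] V →L[ℂ] V →L⋆[ℂ] ℂ) (θ : ℝ → ℝ) (T δ : ℝ), (∀ h, toAntidual val h = ι h) →
  Blocks val ι A S → Amp θ → 0 < T → 0 < δ → δ ≤ 1 →
  ∃ (β : Z) (g : ℝ → ℝ), ‖β‖ ≤ 1 ∧ Continuous g ∧ (∀ t, |g t| ≤ δ) ∧
    (∀ t s, |g t - g s| ≤ 4 * δ * θ |t - s|) ∧
    ∃ (F : ℝ → H) (v : ℝ → V), MemL2 T F ∧
      IsLionsSolution val T (fun t => A + (g t : ℂ) • S β) F v ∧ ¬MemH1 T fun t => val (v t)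

end Abstract

section Space

variable {E : Type} [NormedAddCommGroup E] [InnerProductSpace ℝ E] [FiniteDimensional ℝ E]
  [MeasurableSpace E] [BorelSpace E] {n : ℕ}

instance completeSpace_formDomain (μ : Measure E) (b : OrthonormalBasis (Fin n) ℝ E)
    (Ω D : Set E) : CompleteSpace (formDomain μ b Ω D) :=
  (Submodule.isClosed_topologicalClosure _).completeSpace_coe

lemma exists_scalL (μ : Measure E) (b : OrthonormalBasis (Fin n) ℝ E) (Ω D : Set E) :
    ∃ S : (E →ᵇ ℝ) →L[ℝ] formDomain μ b Ω D →L[ℂ] Antidual μ b Ω D,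
      ∀ m, S m = scalOp μ b Ω D m := by
  obtain ⟨C, hC, h⟩ := exists_scalOp_le μ b Ω D
  let L : (E →ᵇ ℝ) →ₗ[ℝ] formDomain μ b Ω D →L[ℂ] Antidual μ b Ω D :=
    { toFun := scalOp μ b Ω D
      map_add' := fun m m' => ContinuousLinearMap.ext fun u => by
        simp only [ContinuousLinearMap.add_apply, scalOp_apply, map_add, Finset.sum_add_distrib]
      map_smul' := fun r m => ContinuousLinearMap.ext fun u => by
        simp only [ContinuousLinearMap.smul_apply, scalOp_apply, map_smul, RingHom.id_apply,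
          ContinuousLinearMap.map_smul_of_tower, Finset.smul_sum] }
  refine ⟨L.mkContinuous C fun m => ?_, fun m => rfl⟩
  have h1 := h m 0
  have h2 : scalOp μ b Ω D 0 = 0 := L.map_zero
  rwa [h2, sub_zero, sub_zero] at h1

def OneBlockSt (μ : Measure E) [μ.IsAddHaarMeasure] (b : OrthonormalBasis (Fin n) ℝ E)
    (Ω D : Set E) : Prop :=
  ∀ (i₀ : Fin n) (K : Set E) (hK : IsCompact K) (hKD : K ⊆ Dᶜ) (χ g : E → ℝ) (hg : Test K g),
    IsOpen Ω → K ⊆ Ω → Test K χ → (∃ x, χ x ≠ 0) →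
    (∀ x ∈ tsupport χ, ∀ i, pd b i g x = kron i₀ i) →
    ∃ (M m : ℝ) (h0 : L2 μ Ω), 1 ≤ M ∧ 0 < m ∧ ∀ k : ℕ,
      ∃ (c F : E → ℝ) (hF : Test K F) (h1 h2 : L2 μ Ω), Test K c ∧ ‖bcf c‖ ≤ M ∧
        Block (toH μ b Ω D) (dualOf μ b Ω D none) (scalOp μ b Ω D 1) (scalOp μ b Ω D (bcf c))
          M m 1 k (jetV μ b Ω D hK hKD hg) (jetV μ b Ω D hK hKD hF) h0 h1 h2

def BlocksSt (μ : Measure E) [μ.IsAddHaarMeasure] (b : OrthonormalBasis (Fin n) ℝ E)
    (Ω D : Set E) : Prop :=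
  ∀ S : (E →ᵇ ℝ) →L[ℝ] formDomain μ b Ω D →L[ℂ] Antidual μ b Ω D,
    (∀ m, S m = scalOp μ b Ω D m) → 1 ≤ n → IsOpen Ω → Ω.Nonempty → D ⊆ frontier Ω →
    Blocks (toH μ b Ω D) (dualOf μ b Ω D none) (scalOp μ b Ω D 1) S

end Space

end Pool.Agent.MP_954c34_an.Rank

end

section
set_option linter.all false
set_option maxSynthPendingDepth 3

open MeasureTheory Set Filter Topology
open scoped InnerProductSpace ComplexConjugate ContDiff BoundedContinuousFunction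

noncomputable section

namespace Pool.Agent.MP_954c34_an.Rank

open Pool.Agent.MP_954c34_an.Sharp Pool.Agent.MP_954c34_an.Sob

theorem mul_Amp {θ : ℝ → ℝ} (h : IsModulus θ) {d : ℝ} (hd : 0 ≤ d) (n : ℕ) :
    θ ((n + 1) * d) ≤ (n + 1) * θ d := by
  induction n with
  | zero => simp
  | succ n ih =>
    have := h.subadd ((n + 1) * d) d (by positivity) hd
    rw [Nat.cast_succ, add_mul (n + 1 : ℝ), add_mul (n + 1 : ℝ), one_mul, one_mul]
    linarith

theorem big_Amp {θ : ℝ → ℝ} (h : IsModulus θ)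
    (hn : ¬∃ C : ℝ, ∀ t ∈ Ioc (0 : ℝ) 1, θ t ≤ C * √t) (R : ℝ) (k₀ : ℕ) :
    ∃ k, k₀ ≤ k ∧ R < θ ((1 / 4) ^ k) * 2 ^ k := by
  by_contra hc
  push Not at hc
  have all : ∀ k : ℕ, θ ((1 / 4) ^ k) * 2 ^ k ≤ max R (θ 1 * 2 ^ k₀) := fun k => by
    rcases le_total k₀ k with e | e
    · exact (hc k e).trans (le_max_left _ _)
    · refine le_trans (mul_le_mul (h.mono (mem_Ici.2 (by positivity)) (mem_Ici.2 zero_le_one)
        (pow_le_one₀ (by norm_num) (by norm_num))) (pow_le_pow_right₀ one_le_two e)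
        (by positivity) (h.nonneg 1 zero_le_one)) (le_max_right _ _)
  refine hn ⟨2 * max R (θ 1 * 2 ^ k₀), fun t ht => ?_⟩
  obtain ⟨n, a, b⟩ := exists_nat_pow_near_of_lt_one ht.1 ht.2 (show (0 : ℝ) < 1 / 4 by norm_num)
    (by norm_num)
  have s : (1 / 2 : ℝ) ^ (n + 1) ≤ √t := by
    refine Real.le_sqrt_of_sq_le (le_of_eq_of_le ?_ a.le)
    rw [← pow_mul, mul_comm, pow_mul]
    norm_num
  have p := h.nonneg ((1 / 4) ^ n) (by positivity)
  calc θ t ≤ θ ((1 / 4) ^ n) := h.mono (mem_Ici.2 ht.1.le) (mem_Ici.2 (by positivity)) b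
    _ = 2 * (θ ((1 / 4) ^ n) * 2 ^ n) * (1 / 2 : ℝ) ^ (n + 1) := by
        rw [one_div (2 : ℝ), inv_pow]
        field_simp
        ring
    _ ≤ _ := by
        have := all n
        have := le_trans (by positivity) this
        gcongr

theorem amp_st : AmpSt := by
  intro θ h hn R k₀
  obtain ⟨k₁, h₁⟩ := pow_unbounded_of_one_lt (R ^ 2) (one_lt_two (α := ℝ))
  obtain ⟨k, hk, hR⟩ := big_Amp h hn R (max k₀ k₁)
  have X : (0 : ℝ) < 2 ^ k := by positivity
  have Y : (0 : ℝ) < (1 / 4) ^ k := by positivity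
  have sX := Real.sqrt_pos.2 X
  have p := h.nonneg _ Y.le
  have m₀ : 0 ≤ min (θ ((1 / 4) ^ k)) (√(2 ^ k))⁻¹ := le_min p (by positivity)
  have e : (1 / 4 : ℝ) ^ k * 4 ^ k = 1 := by
    rw [← mul_pow]
    norm_num
  refine ⟨k, _, (le_max_left _ _).trans hk, m₀, ?_, ?_, fun d hd => ?_⟩
  · refine (mul_le_mul_of_nonneg_right (pow_le_pow_left₀ m₀ (min_le_right _ _) 2) X.le).trans_eq ?_
    rw [inv_pow, Real.sq_sqrt X.le, inv_mul_cancel₀ X.ne']
  · rw [min_mul_of_nonneg _ _ X.le]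
    refine le_min hR.le ?_
    rw [inv_mul_eq_div, Real.div_sqrt]
    exact Real.le_sqrt_of_sq_le (h₁.le.trans
      (pow_le_pow_right₀ one_le_two ((le_max_right _ _).trans hk)))
  · have q := h.nonneg d hd
    have m₁ : 0 ≤ min 2 ((4 : ℝ) ^ k * d) := le_min zero_le_two (by positivity)
    refine (mul_le_mul_of_nonneg_right (min_le_left _ _) m₁).trans ?_
    rcases le_total ((1 / 4 : ℝ) ^ k) d with c | c
    · have := h.mono (mem_Ici.2 Y.le) (mem_Ici.2 hd) c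
      have := mul_le_mul this (min_le_left 2 ((4 : ℝ) ^ k * d)) m₁ q
      linarith
    rcases hd.eq_or_lt with rfl | hd'
    · simpa using q
    obtain ⟨n, hn⟩ := Nat.exists_eq_succ_of_ne_zero (Nat.ceil_pos.2 (div_pos Y hd')).ne'
    have a := Nat.le_ceil ((1 / 4 : ℝ) ^ k / d)
    have b := Nat.ceil_lt_add_one (div_pos Y hd').le
    rw [hn, Nat.cast_succ] at a b
    rw [div_le_iff₀ hd'] at a
    rw [add_lt_add_iff_right, lt_div_iff₀ hd'] at b
    have u := (h.mono (mem_Ici.2 Y.le) (mem_Ici.2 (Y.le.trans a)) a).trans (mul_Amp h hd n)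
    have v : (n + 1) * d * 4 ^ k ≤ 2 * (1 / 4 : ℝ) ^ k * 4 ^ k :=
      mul_le_mul_of_nonneg_right (by linarith) (by positivity)
    rw [mul_assoc 2, e] at v
    calc _ ≤ (n + 1) * θ d * (4 ^ k * d) := mul_le_mul u (min_le_right _ _) m₁ (by positivity)
      _ = (n + 1) * d * 4 ^ k * θ d := by ring
      _ ≤ _ := mul_le_mul_of_nonneg_right (by linarith) q

end Pool.Agent.MP_954c34_an.Rank

end

section
set_option linter.all false
set_option maxSynthPendingDepth 3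

open MeasureTheory Set Filter Topology
open scoped InnerProductSpace ComplexConjugate ContDiff BoundedContinuousFunction

noncomputable section

namespace Pool.Agent.MP_954c34_an.Rank

open Pool.Agent.MP_954c34_an.Sharp Pool.Agent.MP_954c34_an.Sob

lemma clamp_Prof (x y L : ℝ) : |max (min x L) 0 - max (min y L) 0| ≤ |x - y| := by
  refine (abs_max_sub_max_le_abs _ _ _).trans ((abs_min_sub_min_le_max _ _ _ _).trans ?_)
  rw [sub_self, abs_zero, max_eq_left (abs_nonneg _)]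

lemma sin_Prof (u v : ℝ) : |Real.sin u - Real.sin v| ≤ min 2 |u - v| := by
  refine le_min ?_ (Real.abs_sin_sub_sin_le u v)
  have := Real.abs_sin_le_one u
  have := Real.abs_sin_le_one v
  have := abs_sub (Real.sin u) (Real.sin v)
  linarith

lemma nat_Prof {x : ℝ} (hx : 64 ≤ x) : ∃ n : ℕ, x / 2 ≤ n * Real.pi ∧ n * Real.pi ≤ x := by
  have hp := Real.pi_pos
  have h4 := Real.pi_le_four
  refine ⟨⌊x / Real.pi⌋₊, ?_, ?_⟩
  · have := Nat.lt_floor_add_one (x / Real.pi)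
    rw [div_lt_iff₀ hp] at this
    linarith
  · rw [← le_div_iff₀ hp]
    exact Nat.floor_le (by positivity)

theorem prof_st : ProfSt := by
  intro θ T δ k η hT hδ hk hη hθ
  choose n hn1 hn2 using fun j => nat_Prof (hk j)
  obtain ⟨f, hf⟩ : ∃ f : ℕ → ℝ → ℝ, ∀ j t, f j t = δ / 2 ^ (j + 1) * η j *
      Real.sin (max (min (4 ^ k j * (t - T / 2 ^ (j + 1))) (n j * Real.pi)) 0) :=
    ⟨_, fun _ _ => rfl⟩
  have hb : ∀ j t, ‖f j t‖ ≤ δ / 2 / 2 ^ j := by
    intro j t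
    have h0 := (hη j).1
    rw [hf, Real.norm_eq_abs, abs_mul, abs_of_nonneg (by positivity : 0 ≤ δ / 2 ^ (j + 1) * η j),
      div_div, ← pow_succ']
    exact (mul_le_of_le_one_right (by positivity) (Real.abs_sin_le_one _)).trans
      (mul_le_of_le_one_right (by positivity) (hη j).2)
  have hs : ∀ t, Summable fun j => f j t := fun t =>
    Summable.of_norm_bounded (hasSum_geometric_two' δ).summable fun j => hb j t
  refine ⟨fun t => ∑' j, f j t, ?_, fun t => ?_, fun t s => ?_, fun j t ht => ?_⟩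
  · refine continuous_tsum (fun j => ?_) (hasSum_geometric_two' δ).summable hb
    rw [show f j = _ from funext (hf j)]
    fun_prop
  · exact tsum_of_norm_bounded (f := fun j => f j t) (hasSum_geometric_two' δ) fun j => hb j t
  · rw [← (hs t).tsum_sub (hs s)]
    refine tsum_of_norm_bounded (f := fun j => f j t - f j s)
      (hasSum_geometric_two' (4 * δ * θ |t - s|)) fun j => ?_
    have h0 := (hη j).1
    rw [hf, hf, ← mul_sub, Real.norm_eq_abs, abs_mul,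
      abs_of_nonneg (by positivity : 0 ≤ δ / 2 ^ (j + 1) * η j), mul_assoc]
    have e : 4 * δ * θ |t - s| / 2 / 2 ^ j = δ / 2 ^ (j + 1) * (4 * θ |t - s|) := by
      field_simp
      ring
    rw [e]
    refine mul_le_mul_of_nonneg_left (le_trans ?_ (hθ j _ (abs_nonneg _))) (by positivity)
    refine mul_le_mul_of_nonneg_left ((sin_Prof _ _).trans (min_le_min le_rfl ?_)) h0
    refine (clamp_Prof _ _ _).trans (le_of_eq ?_)
    rw [← mul_sub, sub_sub_sub_cancel_right, abs_mul, abs_of_nonneg (by positivity)]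
  · have ht1 := ht.1
    have ht2 := ht.2
    have mono : ∀ i j : ℕ, i < j → 2 * (T / 2 ^ (j + 1)) ≤ T / 2 ^ (i + 1) := by
      intro i j hij
      have e : 2 * (T / 2 ^ (j + 1)) = T / 2 ^ j := by
        field_simp
        ring
      rw [e]
      exact div_le_div_of_nonneg_left hT.le (by positivity)
        (pow_le_pow_right₀ (by norm_num) hij)
    have hpos : ∀ i : ℕ, 0 < T / 2 ^ (i + 1) := fun i => by positivity
    show ∑' i, f i t = _
    rw [tsum_eq_single j, hf]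
    · have h4 : (0 : ℝ) < 4 ^ k j := by positivity
      have e1 : 4 ^ k j * (t - T / 2 ^ (j + 1)) ≤ n j * Real.pi := by
        refine le_trans ?_ (hn1 j)
        rw [mul_div_assoc]
        exact mul_le_mul_of_nonneg_left (by linarith) h4.le
      rw [min_eq_left e1, max_eq_left (mul_nonneg h4.le (by linarith))]
    · intro i hi
      have h4 : (0 : ℝ) < 4 ^ k i := by positivity
      rw [hf]
      rcases lt_or_gt_of_ne hi with h | h
      · have e1 : 4 ^ k i * (t - T / 2 ^ (i + 1)) ≤ 0 :=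
          mul_nonpos_of_nonneg_of_nonpos h4.le (by linarith [mono i j h, hpos j])
        rw [max_eq_right ((min_le_left _ _).trans e1), Real.sin_zero, mul_zero]
      · have e1 : n i * Real.pi ≤ 4 ^ k i * (t - T / 2 ^ (i + 1)) :=
          (hn2 i).trans (mul_le_mul_of_nonneg_left (by linarith [mono j i h]) h4.le)
        rw [min_eq_right e1, max_eq_left (by positivity), Real.sin_nat_mul_pi, mul_zero]

end Pool.Agent.MP_954c34_an.Rank

end

section
set_option linter.all false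
set_option maxSynthPendingDepth 3

open MeasureTheory Set Filter Topology
open scoped InnerProductSpace ComplexConjugate ContDiff BoundedContinuousFunction

noncomputable section

namespace Pool.Agent.MP_954c34_an.Rank

open Pool.Agent.MP_954c34_an.Sharp Pool.Agent.MP_954c34_an.Sob

theorem var_st {X : Type} [NormedAddCommGroup X] [NormedSpace ℝ X] [CompleteSpace X] :
    VarSt X := by
  rintro T y hy h0 ⟨-, g, hg, hw⟩
  have h2 : IntegrableOn (fun s => ‖g s‖ ^ 2) (Ioo 0 T) := hg.integrable_norm_pow (by norm_num)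
  refine ⟨∫ s in Ioo 0 T, ‖g s‖ ^ 2, ?_⟩
  rintro a ρ ha hT hρ ⟨p, d, N, h3, hd, h4, h5, h6⟩
  have step : ∀ i : ℕ, i < N → ρ ^ 2 * d ≤ (∫ s in Ioo 0 (p + ((i + 1 : ℕ) : ℝ) * d), ‖g s‖ ^ 2) -
      ∫ s in Ioo 0 (p + (i : ℝ) * d), ‖g s‖ ^ 2 := by
    intro i hi
    have i0 : 0 ≤ (i : ℝ) * d := by positivity
    have i1 : ((i : ℝ) + 1) * d ≤ N * d :=
      mul_le_mul_of_nonneg_right (by exact_mod_cast hi) hd.le
    have k0 : 0 < p + i * d := by linarith
    have k1 : p + i * d < p + (i + 1) * d := by linarith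
    have k2 : p + (i + 1) * d < T := by linarith
    have hsub : Ioo (p + i * d) (p + (i + 1) * d) ⊆ Ioo 0 T := Ioo_subset_Ioo k0.le k2.le
    have k3 := norm_integral_sq_le k1 (hg.integrableOn.mono_set hsub) (h2.mono_set hsub)
    have k4 := h6 i hi
    rw [eq_primitive hy.continuousOn h0 hg.integrableOn hw ⟨k0, k1.trans k2⟩,
      eq_primitive hy.continuousOn h0 hg.integrableOn hw ⟨k0.trans k1, k2⟩,
      integral_Ioo_sub hg.integrableOn k0.le k1.le k2.le] at k4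
    rw [← integral_Ioo_sub h2 k0.le k1.le k2.le, show p + (i + 1) * d - (p + i * d) = d by ring]
      at k3
    have k5 := (pow_le_pow_left₀ (by positivity) k4 2).trans k3
    rw [Nat.cast_succ]
    refine le_of_mul_le_mul_left (le_trans (le_of_eq ?_) k5) hd
    ring
  have s1 := Finset.sum_le_sum fun i (hi : i ∈ Finset.range N) => step i (Finset.mem_range.1 hi)
  rw [Finset.sum_range_sub fun i : ℕ => ∫ s in Ioo 0 (p + (i : ℝ) * d), ‖g s‖ ^ 2,
    Finset.sum_const, Finset.card_range, nsmul_eq_mul] at s1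
  have s2 : 0 ≤ ∫ s in Ioo 0 (p + ((0 : ℕ) : ℝ) * d), ‖g s‖ ^ 2 :=
    integral_nonneg fun s => sq_nonneg _
  have s3 : ∫ s in Ioo 0 (p + (N : ℝ) * d), ‖g s‖ ^ 2 ≤ ∫ s in Ioo 0 T, ‖g s‖ ^ 2 :=
    setIntegral_mono_set h2 (Eventually.of_forall fun s => sq_nonneg _)
      (Ioo_subset_Ioo_right (by linarith)).eventuallyLE
  have s4 := mul_le_mul_of_nonneg_right h5 (sq_nonneg ρ)
  linarith

end Pool.Agent.MP_954c34_an.Rank

end

section
set_option linter.all false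
set_option maxSynthPendingDepth 3

open MeasureTheory Set Filter Topology
open scoped InnerProductSpace ComplexConjugate ContDiff BoundedContinuousFunction

noncomputable section

namespace Pool.Agent.MP_954c34_an.Rank

open Pool.Agent.MP_954c34_an.Sharp Pool.Agent.MP_954c34_an.Sob

theorem bump_TBlock {a : ℝ} (ha : 0 < a) : ∃ (σ σ' : ℝ → ℝ) (L : ℝ), 0 ≤ L ∧
    (∀ t, HasDerivAt σ (σ' t) t) ∧ Continuous σ' ∧ (∀ t, |σ t| ≤ 1) ∧ (∀ t, |σ' t| ≤ L) ∧
    (∀ t, t ∉ Ioo a (3 / 2 * a) → σ t = 0) ∧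
    ∀ t, 9 / 8 * a ≤ t → t ≤ 11 / 8 * a → σ t = 1 := by
  let b : ContDiffBump (5 / 4 * a) := ⟨a / 8, a / 4, by positivity, by linarith⟩
  have hb : ContDiff ℝ 1 b := b.contDiff
  have hc : Continuous (deriv b) := hb.continuous_deriv le_rfl
  obtain ⟨L, hL⟩ := hc.bounded_above_of_compact_support b.hasCompactSupport.deriv
  refine ⟨b, deriv b, L, (norm_nonneg _).trans (hL 0),
    fun t => (hb.differentiable one_ne_zero t).hasDerivAt, hc,
    fun t => abs_le.2 ⟨by linarith [b.nonneg' t], b.le_one⟩, hL, fun t ht => ?_,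
    fun t h1 h2 => ?_⟩
  · refine b.zero_of_le_dist ?_
    change a / 4 ≤ _
    rw [Real.dist_eq, le_abs]
    rw [mem_Ioo, not_and_or, not_lt, not_lt] at ht
    rcases ht with h | h
    · right; linarith
    · left; linarith
  · refine b.one_of_mem_closedBall ?_
    change dist _ _ ≤ a / 8
    rw [Real.dist_eq, abs_le]
    constructor <;> linarith

theorem grid_TBlock {a d : ℝ} (hd : 0 < d) (h : d ≤ a / 16) : ∃ i₀ N : ℕ,
    a / 8 ≤ i₀ * d ∧ i₀ * d + N * d ≤ 5 / 16 * a ∧ a / 16 ≤ N * d := by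
  have h0 : 0 ≤ a / 8 / d := div_nonneg (by linarith) hd.le
  have e : a / 8 / d * d = a / 8 := div_mul_cancel₀ _ hd.ne'
  have h1 := mul_le_mul_of_nonneg_right (Nat.le_ceil (a / 8 / d)) hd.le
  have h2 := mul_le_mul_of_nonneg_right (Nat.ceil_lt_add_one h0).le hd.le
  have h3 := mul_le_mul_of_nonneg_right (Nat.floor_le h0) hd.le
  have h4 := mul_le_mul_of_nonneg_right (Nat.lt_floor_add_one (a / 8 / d)).le hd.le
  rw [add_mul, one_mul] at h2 h4
  exact ⟨⌈a / 8 / d⌉₊, ⌊a / 8 / d⌋₊, by linarith, by linarith, by linarith⟩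

section Abstract

variable {V H : Type} [NormedAddCommGroup V] [InnerProductSpace ℂ V] [CompleteSpace V]
  [NormedAddCommGroup H] [InnerProductSpace ℂ H] [CompleteSpace H]

theorem nsm_TBlock {x : H} {r R X : ℝ} (hr : |r| ≤ R) (hx : ‖x‖ ≤ X) :
    ‖(r : ℂ) • x‖ ≤ R * X := by
  rw [norm_smul, Complex.norm_real, Real.norm_eq_abs]
  exact mul_le_mul hr hx (norm_nonneg _) ((abs_nonneg _).trans hr)

theorem tblock_st : TBlockSt V H := by
  intro val a M ha hM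
  obtain ⟨σ, σ', L, hL, dσ, cσ', bσ, bσ', zσ, oσ⟩ := bump_TBlock ha
  have cσ : Continuous σ := continuous_iff_continuousAt.2 fun t => (dσ t).continuousAt
  have hLM : 0 ≤ L * (‖val‖ * (2 * M)) := by positivity
  refine ⟨L * (‖val‖ * (2 * M)) + 3 * M + 1, by positivity, ?_⟩
  intro ι A B m w η k G Φ h0 h1 h2 g hB hm hw0 hw1 hη hη2 hk hg
  have q0 : (0 : ℝ) < 4 ^ k := by positivity
  have p1 : (1 : ℝ) ≤ 2 ^ k := one_le_pow₀ one_le_two
  have hη1 : η ≤ 1 := by nlinarith [sq_nonneg η]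
  obtain ⟨c, hc⟩ : ∃ c : ℝ, c = w * η / (2 * 4 ^ k) := ⟨_, rfl⟩
  have c0 : 0 ≤ c := by rw [hc]; positivity
  have c2 : 2 * c * 4 ^ k = w * η := by rw [hc]; field_simp
  have c3 : 2 * c * 4 ^ k ≤ η := by rw [c2]; exact mul_le_of_le_one_left hη hw1
  obtain ⟨φ, hφ⟩ : ∃ φ : ℝ → ℝ, φ = fun t =>
      c * (Real.sin (4 ^ k * (t - a)) - Real.cos (4 ^ k * (t - a))) := ⟨_, rfl⟩
  have cφ : Continuous φ := by rw [hφ]; fun_prop
  have bφ : ∀ t, |φ t| ≤ 2 * c := fun t => by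
    rw [hφ, abs_mul, abs_of_nonneg c0, mul_comm]
    refine mul_le_mul_of_nonneg_right ((abs_sub _ _).trans ?_) c0
    linarith [Real.abs_sin_le_one (4 ^ k * (t - a)), Real.abs_cos_le_one (4 ^ k * (t - a))]
  have dφ : ∀ t, HasDerivAt φ (w * η * Real.sin (4 ^ k * (t - a)) - 4 ^ k * φ t) t := fun t => by
    have hs : HasDerivAt (fun t : ℝ => 4 ^ k * (t - a)) (4 ^ k) t := by
      simpa using ((hasDerivAt_id t).sub_const a).const_mul ((4 : ℝ) ^ k)
    rw [hφ]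
    refine ((hs.sin.sub hs.cos).const_mul c).congr_deriv ?_
    rw [← c2]; ring
  have bM : 2 * c * (M * 4 ^ k) ≤ M := by nlinarith
  have bX : ∀ t, ‖G + (φ t : ℂ) • Φ‖ ≤ 2 * M := fun t =>
    (norm_add_le _ _).trans (by linarith [hB.bG, nsm_TBlock (bφ t) hB.bΦ])
  refine ⟨fun t => (σ t : ℂ) • (G + (φ t : ℂ) • Φ),
    fun t => (σ' t : ℂ) • val (G + (φ t : ℂ) • Φ) + (σ t : ℂ) • (h0 + (φ t : ℂ) • h1 +
      ((η * Real.sin (4 ^ k * (t - a)) * φ t * w : ℝ) : ℂ) • h2),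
    by fun_prop, by fun_prop, fun t => ?_, fun t => ?_, fun t ht => ?_, fun t => ?_, ?_⟩
  · linarith [nsm_TBlock (bσ t) (bX t)]
  · have b1 := nsm_TBlock (bσ' t) (val.le_opNorm_of_le (bX t))
    have b2 := nsm_TBlock (bφ t) hB.b1
    have b3 : |η * Real.sin (4 ^ k * (t - a)) * φ t * w| ≤ η * 1 * (2 * c) * 1 := by
      rw [abs_mul, abs_mul, abs_mul, abs_of_nonneg hη, abs_of_nonneg hw0]
      gcongr
      · exact Real.abs_sin_le_one _
      · exact bφ t
    have b4 := nsm_TBlock b3 hB.b2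
    have b5 : η * 1 * (2 * c) * 1 * (M * 8 ^ k) ≤ M := by
      have e : (8 : ℝ) ^ k = 4 ^ k * 2 ^ k := by rw [← mul_pow]; norm_num
      calc _ = M * (η * 2 ^ k * (2 * c * 4 ^ k)) := by rw [e]; ring
        _ ≤ M * (η * 2 ^ k * η) := by gcongr
        _ ≤ M * 1 := by gcongr; linarith
        _ = M := mul_one M
    have b6 := nsm_TBlock (bσ t) (norm_add₃_le.trans
      (add_le_add (add_le_add hB.b0 (b2.trans bM)) (b4.trans b5)))
    exact (norm_add_le _ _).trans (by linarith)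
  · simp only [zσ t ht, Complex.ofReal_zero, zero_smul]
  · have hσg : σ t * g t = σ t * (η * Real.sin (4 ^ k * (t - a))) := by
      by_cases ht : t ∈ Ioo a (3 / 2 * a)
      · rw [hg t (Ioo_subset_Icc_self ht)]
      · rw [zσ t ht, zero_mul, zero_mul]
    have hC := congrArg (fun x : ℝ => (x : ℂ)) hσg
    have e : (fun t => ι (val ((σ t : ℂ) • (G + (φ t : ℂ) • Φ)))) =
        fun t => (σ t : ℂ) • ι (val G) + ((σ t * φ t : ℝ) : ℂ) • ι (val Φ) := by
      funext t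
      simp only [map_add, map_smul, smul_add, smul_smul, Complex.ofReal_mul]
    rw [e]
    refine (((dσ t).ofReal_comp.smul_const _).add
      (((dσ t).mul (dφ t)).ofReal_comp.smul_const _)).congr_deriv ?_
    simp only [map_add, map_smul, ContinuousLinearMap.add_apply, ContinuousLinearMap.smul_apply,
      hB.e0, hB.e1, hB.e2, hB.e3]
    generalize Real.sin (4 ^ k * (t - a)) = S at hC ⊢
    push_cast at hC ⊢
    match_scalars
    · ring
    · linear_combination (-(w : ℂ)) * hC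
    · ring
    · ring
    · linear_combination (φ t * w : ℂ) * hC
  · obtain ⟨d, hd⟩ : ∃ d : ℝ, d = Real.pi / 4 ^ k := ⟨_, rfl⟩
    have d0 : 0 < d := by rw [hd]; positivity
    have d1 : 4 ^ k * d = Real.pi := by rw [hd]; field_simp
    have d2 : d ≤ a / 16 := by
      refine le_of_mul_le_mul_left ?_ q0
      linarith [Real.pi_le_four]
    obtain ⟨i₀, N, g1, g2, g3⟩ := grid_TBlock d0 d2
    have pt : ∀ j : ℕ, j ≤ N → val ((σ (a + i₀ * d + j * d) : ℂ) •
        (G + (φ (a + i₀ * d + j * d) : ℂ) • Φ)) =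
        val G + ((-(c * (-1) ^ (i₀ + j)) : ℝ) : ℂ) • val Φ := fun j hj => by
      have hj' : (j : ℝ) * d ≤ N * d := mul_le_mul_of_nonneg_right (Nat.cast_le.2 hj) d0.le
      have hj0 : 0 ≤ (j : ℝ) * d := by positivity
      have es : 4 ^ k * (a + i₀ * d + j * d - a) = ((i₀ + j : ℕ) : ℝ) * Real.pi := by
        rw [← d1]; push_cast; ring
      rw [oσ _ (by linarith) (by linarith), Complex.ofReal_one, one_smul, map_add, map_smul, hφ]
      simp only [es, Real.sin_nat_mul_pi, Real.cos_nat_mul_pi, zero_sub, mul_neg]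
    refine ⟨a + i₀ * d, d, N, by linarith, d0, by linarith, g3, fun i hi => ?_⟩
    have p1 := pt (i + 1) hi
    push_cast at p1
    have p2 := pt i hi.le
    push_cast at p2
    beta_reduce
    rw [p1, p2, add_sub_add_left_eq_sub, ← sub_smul, norm_smul,
      show -((c : ℂ) * (-1) ^ (i₀ + (i + 1))) - -(c * (-1) ^ (i₀ + i)) =
        ((2 * c : ℝ) : ℂ) * (-1) ^ (i₀ + i) by push_cast; ring,
      norm_mul, norm_pow, norm_neg, norm_one, one_pow, mul_one, Complex.norm_real,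
      Real.norm_of_nonneg (by positivity)]
    calc _ = 2 * c * (m * 2 ^ k) * (Real.pi / 4) := by rw [← c2, ← d1]; ring
      _ ≤ 2 * c * ‖val Φ‖ * 1 := by
        gcongr
        · exact hB.low
        · linarith [Real.pi_le_four]
      _ = _ := mul_one _

end Abstract

end Pool.Agent.MP_954c34_an.Rank

end

section
set_option linter.all false
set_option maxSynthPendingDepth 3

open MeasureTheory Set Filter Topology
open scoped InnerProductSpace ComplexConjugate ContDiff BoundedContinuousFunction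

noncomputable section

namespace Pool.Agent.MP_954c34_an.Rank

open Pool.Agent.MP_954c34_an.Sharp Pool.Agent.MP_954c34_an.Sob

variable {V H : Type} [NormedAddCommGroup V] [InnerProductSpace ℂ V] [CompleteSpace V]
  [NormedAddCommGroup H] [InnerProductSpace ℂ H] [CompleteSpace H]

lemma half_Ser {T : ℝ} (hT : 0 < T) {i j : ℕ} (h : i < j) :
    2 * (T / 2 ^ (j + 1)) ≤ T / 2 ^ (i + 1) := by
  have : (2 : ℝ) ^ (i + 1) ≤ 2 ^ j := pow_le_pow_right₀ (by norm_num) h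
  calc 2 * (T / 2 ^ (j + 1)) = T / 2 ^ j := by rw [pow_succ]; field_simp
    _ ≤ _ := by gcongr

lemma norm_Ser {X : Type} [NormedAddCommGroup X] [NormedSpace ℂ X] {K : ℝ} (hK : 0 < K) (j : ℕ)
    (x : X) : ‖((1 / (2 ^ j * K) : ℝ) : ℂ) • x‖ = ‖x‖ / (2 ^ j * K) := by
  rw [norm_smul, Complex.norm_real, Real.norm_of_nonneg (by positivity)]
  ring

lemma bd_Ser {X : Type} [NormedAddCommGroup X] [NormedSpace ℂ X] {K : ℝ} (hK : 0 < K) (j : ℕ)
    {x : X} (hx : ‖x‖ ≤ K) : ‖((1 / (2 ^ j * K) : ℝ) : ℂ) • x‖ ≤ (1 / 2) ^ j := by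
  rw [norm_Ser hK, div_le_iff₀ (by positivity), ← mul_assoc, ← mul_pow]
  simpa using hx

theorem ser_st (h : VarSt H) : SerSt V H := by
  intro val ι 𝔄 T Λ K ρ u f hι hT h𝔄 bΛ hK hρ hP hj
  obtain ⟨c, hc⟩ : ∃ c : ℕ → ℂ, ∀ j, c j = ((1 / (2 ^ j * K j) : ℝ) : ℂ) := ⟨_, fun _ => rfl⟩
  have bu : ∀ j t, ‖c j • u j t‖ ≤ (1 / 2) ^ j := fun j t => by
    rw [hc]; exact bd_Ser (hK j) j ((hP j).bu t)
  have bf : ∀ j t, ‖c j • f j t‖ ≤ (1 / 2) ^ j := fun j t => by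
    rw [hc]; exact bd_Ser (hK j) j ((hP j).bf t)
  have su : ∀ t, Summable fun j => c j • u j t := fun t =>
    .of_norm_bounded summable_geometric_two fun j => bu j t
  have sf : ∀ t, Summable fun j => c j • f j t := fun t =>
    .of_norm_bounded summable_geometric_two fun j => bf j t
  obtain ⟨v, hv⟩ : ∃ v : ℝ → V, v = fun t => ∑' j, c j • u j t := ⟨_, rfl⟩
  obtain ⟨F, hF⟩ : ∃ F : ℝ → H, F = fun t => ∑' j, c j • f j t := ⟨_, rfl⟩
  have Su : ∀ t, HasSum (fun j => c j • u j t) (v t) := fun t => hv ▸ (su t).hasSum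
  have Sf : ∀ t, HasSum (fun j => c j • f j t) (F t) := fun t => hF ▸ (sf t).hasSum
  have cv : Continuous v := hv ▸
    continuous_tsum (fun j => (hP j).cu.const_smul (c j)) summable_geometric_two bu
  have cF : Continuous F := hF ▸
    continuous_tsum (fun j => (hP j).cf.const_smul (c j)) summable_geometric_two bf
  have a0 : ∀ j : ℕ, 0 < T / 2 ^ (j + 1) := fun j => by positivity
  have v0 : v 0 = 0 := (Su 0).unique (by
    have : ∀ j, c j • u j 0 = 0 := fun j => by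
      rw [(hP j).zero 0 fun a => lt_asymm a.1 (a0 j), smul_zero]
    simpa only [this] using hasSum_zero)
  have S1 : ∀ t, HasSum (fun j => ι (val (c j • u j t))) (ι (val (v t))) := fun t =>
    ((Su t).mapL val).mapL ι
  have der : ∀ t, HasDerivAt (fun t => ι (val (v t))) (ι (F t) - 𝔄 t (v t)) t := fun t => by
    have hΛ : 0 ≤ Λ := (norm_nonneg _).trans (bΛ 0)
    have d := hasDerivAt_tsum (g := fun j t => ι (val (c j • u j t)))
      (g' := fun j t => ι (c j • f j t) - 𝔄 t (c j • u j t))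
      (summable_geometric_two.mul_left (‖ι‖ + Λ))
      (fun j s => by
        simp only [map_smul, ← smul_sub]
        exact ((hP j).der s).const_smul (c j))
      (fun j s => (norm_sub_le _ _).trans (by
        rw [add_mul]
        exact add_le_add (ι.le_opNorm_of_le (bf j s)) (((𝔄 s).le_opNorm _).trans
          (mul_le_mul (bΛ s) (bu j s) (norm_nonneg _) hΛ))))
      (S1 0).summable t
    rw [(((Sf t).mapL ι).sub ((Su t).mapL (𝔄 t))).tsum_eq] at d
    simpa only [fun s => (S1 s).tsum_eq] using d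
  have cg : Continuous fun t => ι (F t) - 𝔄 t (v t) :=
    (ι.continuous.comp cF).sub (h𝔄.clm_apply cv)
  have cw : Continuous fun t => ι (val (v t)) := ι.continuous.comp (val.continuous.comp cv)
  refine ⟨F, v, memL2_of_continuous cF, ⟨memL2_of_continuous cv, ?_,
    ⟨_, memL2_of_continuous cg, ?_, ?_⟩, ?_⟩, fun hm => ?_⟩
  · simp only [hι]
    exact memL2_of_continuous cw
  · simp only [hι]
    exact hasWeakDeriv_of_hasDerivAt hT der cg
  · exact ae_of_all _ fun t => by rw [hι, sub_add_cancel]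
  · simp only [hι]
    exact ⟨_, cw.continuousOn, EventuallyEq.rfl, by simp only [v0, map_zero]⟩
  obtain ⟨C, hC⟩ := h T _ (val.continuous.comp cv) (by simp [v0]) hm
  obtain ⟨j, hjC⟩ := exists_nat_gt C
  have win : ∀ t, T / 2 ^ (j + 1) < t → t < 3 / 2 * (T / 2 ^ (j + 1)) → v t = c j • u j t :=
    fun t h1 h2 => (Su t).unique (hasSum_single j fun i hi => by
      rw [(hP i).zero t fun a => ?_, smul_zero]
      have := a0 i
      have := a0 j
      have := a.1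
      have := a.2
      rcases lt_or_gt_of_ne hi with e | e
      · linarith [half_Ser hT e]
      · linarith [half_Ser hT e])
  obtain ⟨p, d, N, o1, o2, o3, o4, o5⟩ := (hP j).osc
  have aT : 2 * (T / 2 ^ (j + 1)) ≤ T := by
    rw [pow_succ, ← div_div, mul_div_cancel₀ _ two_ne_zero]
    exact div_le_self hT.le (one_le_pow₀ one_le_two)
  have hKj := hK j
  have := hC _ (ρ j / (2 ^ j * K j)) (a0 j) (by linarith [a0 j]) (div_nonneg (hρ j) (by positivity))
    ⟨p, d, N, o1, o2, o3, o4, fun i hi => by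
      have i0 : 0 ≤ (i : ℝ) * d := by positivity
      have i1 : ((i : ℝ) + 1) * d ≤ N * d :=
        mul_le_mul_of_nonneg_right (by exact_mod_cast hi) o2.le
      simp only [Function.comp]
      rw [win _ (by linarith) (by linarith), win _ (by linarith) (by linarith), map_smul, map_smul,
        ← smul_sub, hc, norm_Ser hKj, div_mul_eq_mul_div]
      gcongr
      exact o5 i hi⟩
  linarith [hj j]

end Pool.Agent.MP_954c34_an.Rank

end

section
set_option linter.all false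
set_option maxSynthPendingDepth 3

open MeasureTheory Set Filter Topology
open scoped InnerProductSpace ComplexConjugate ContDiff BoundedContinuousFunction

noncomputable section

namespace Pool.Agent.MP_954c34_an.Rank

open Pool.Agent.MP_954c34_an.Sharp Pool.Agent.MP_954c34_an.Sob

variable {V H : Type} [NormedAddCommGroup V] [InnerProductSpace ℂ V] [CompleteSpace V]
  [NormedAddCommGroup H] [InnerProductSpace ℂ H] [CompleteSpace H]

lemma single_Glue {Z : Type} [NormedAddCommGroup Z] [NormedSpace ℝ Z]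
    (S : Z →L[ℝ] V →L[ℂ] V →L⋆[ℂ] ℂ) {w : ℕ → ℝ} {z : ℕ → Z} {β : Z}
    (hs : HasSum (fun i => w i • z i) β) (j : ℕ) {x : V} (hx : ∀ i, i ≠ j → S (z i) x = 0) :
    S β x = (w j : ℂ) • S (z j) x := by
  have h1 := (hs.mapL S).mapL (ContinuousLinearMap.apply ℂ (V →L⋆[ℂ] ℂ) x)
  have e : ∀ i, ContinuousLinearMap.apply ℂ (V →L⋆[ℂ] ℂ) x (S (w i • z i)) =
      (w i : ℂ) • S (z i) x := fun i => by
    rw [ContinuousLinearMap.apply_apply, map_smul, ContinuousLinearMap.smul_apply,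
      Complex.coe_smul]
  simp only [e] at h1
  rw [ContinuousLinearMap.apply_apply] at h1
  exact h1.unique (hasSum_single j fun i hi => by rw [hx i hi, smul_zero])

lemma num_Glue {a x : ℝ} (j : ℕ) (ha : 0 < a) (hx : (j : ℝ) + 1 + 16 / a ≤ x) :
    (j : ℝ) ≤ a / 16 * x ^ 2 := by
  have h0 : (0 : ℝ) ≤ j := Nat.cast_nonneg j
  have h1 : 0 < 16 / a := by positivity
  have h2 : 1 ≤ a / 16 * x := by
    calc (1 : ℝ) = a / 16 * (16 / a) := by field_simp
      _ ≤ a / 16 * x := by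
        gcongr
        linarith
  have h3 : (j : ℝ) ≤ x := by linarith
  calc (j : ℝ) ≤ 1 * x := by linarith
    _ ≤ a / 16 * x * x := by
      gcongr
      linarith
    _ = _ := by ring

theorem glue_st (h1 : ProfSt) (h2 : TBlockSt V H) (h3 : SerSt V H) : GlueSt V H := by
  intro Z _ _ _ val ι A S θ T δ hι hB hA hT hδ hδ1
  obtain ⟨M, m, c, G, Φ, p0, p1, p2, hM, hm, hc, hB, hO⟩ := hB
  have ha : ∀ j : ℕ, 0 < T / 2 ^ (j + 1) := fun j => by positivity
  have hM0 : ∀ j, 0 < M j := fun j => lt_of_lt_of_le one_pos (hM j)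
  choose K hK hKp using fun j : ℕ => h2 val (T / 2 ^ (j + 1)) (M j) (ha j) (hM0 j).le
  obtain ⟨w, hw⟩ : ∃ w : ℕ → ℝ, ∀ j, w j = 1 / (2 ^ (j + 1) * M j) := ⟨_, fun _ => rfl⟩
  have hw0 : ∀ j, 0 < w j := fun j => by
    have := hM0 j
    rw [hw]
    positivity
  have h2j : ∀ j : ℕ, (1 : ℝ) ≤ 2 ^ (j + 1) := fun j => one_le_pow₀ one_le_two
  have hw1 : ∀ j, w j ≤ 1 := fun j => by
    rw [hw]
    exact (div_le_one (mul_pos (by positivity) (hM0 j))).2 (one_le_mul_of_one_le_of_one_le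
      (h2j j) (hM j))
  choose k₀ hk₀ using fun j : ℕ =>
    pow_unbounded_of_one_lt (64 / (T / 2 ^ (j + 1))) (show (1 : ℝ) < 4 by norm_num)
  choose k η hk hη0 hη1 hR hθ using fun j : ℕ =>
    hA (((j : ℝ) + 1 + 16 / (T / 2 ^ (j + 1))) * (2 ^ j * K j) * 4 /
      (w j * (δ / 2 ^ (j + 1)) * m j)) (k₀ j)
  have h64 : ∀ j, 64 ≤ 4 ^ k j * (T / 2 ^ (j + 1)) := fun j => by
    rw [← div_le_iff₀ (ha j)]
    exact (hk₀ j).le.trans (pow_le_pow_right₀ (by norm_num) (hk j))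
  have hle : ∀ j, η j ≤ 1 := fun j => by
    have e1 : (1 : ℝ) ≤ 2 ^ k j := one_le_pow₀ one_le_two
    have e2 : η j ^ 2 ≤ 1 := (le_mul_of_one_le_right (sq_nonneg _) e1).trans (hη1 j)
    nlinarith [hη0 j]
  obtain ⟨g, hg, hgb, hgm, hgs⟩ := h1 θ T δ k η hT hδ h64 (fun j => ⟨hη0 j, hle j⟩) hθ
  have hn : ∀ j, ‖w j • c j (k j)‖ ≤ 1 / 2 / 2 ^ j := fun j => by
    have := hM0 j
    rw [norm_smul, Real.norm_eq_abs, abs_of_pos (hw0 j)]
    refine (mul_le_mul_of_nonneg_left (hc j _) (hw0 j).le).trans (le_of_eq ?_)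
    rw [hw, pow_succ]
    field_simp
  have hsum : Summable fun j => w j • c j (k j) :=
    Summable.of_norm_bounded (hasSum_geometric_two' 1).summable hn
  obtain ⟨β, hs⟩ := hsum
  have hβ : ‖β‖ ≤ 1 := by
    rw [← hs.tsum_eq]
    exact tsum_of_norm_bounded (hasSum_geometric_two' 1) hn
  have hblk : ∀ j, Block val ι A (S β) (M j) (m j) (w j) (k j) (G j) (Φ j (k j)) (p0 j)
      (p1 j (k j)) (p2 j (k j)) := fun j => by
    have b := hB j (k j)
    refine ⟨b.e0, ?_, b.e2, ?_, b.bG, b.b0, b.bΦ, b.bv, b.low, b.b1, b.b2⟩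
    · rw [single_Glue S hs j fun i hi => (hO i j hi (k i) 0).1, b.e1, Complex.ofReal_one,
        one_smul, smul_neg]
    · rw [single_Glue S hs j fun i hi => (hO i j hi (k i) (k j)).2, b.e3, Complex.ofReal_one,
        one_smul]
  have hd : ∀ j : ℕ, 0 < δ / 2 ^ (j + 1) := fun j => by positivity
  have hd1 : ∀ j : ℕ, δ / 2 ^ (j + 1) ≤ 1 := fun j =>
    (div_le_self hδ.le (h2j j)).trans hδ1
  choose u f hP using fun j : ℕ => hKp j ι A (S β) (m j) (w j) (δ / 2 ^ (j + 1) * η j) (k j) _ _ _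
    _ _ g (hblk j) (hm j).le (hw0 j).le (hw1 j) (mul_nonneg (hd j).le (hη0 j)) (by
      have e1 : (δ / 2 ^ (j + 1)) ^ 2 ≤ 1 := pow_le_one₀ (hd j).le (hd1 j)
      rw [mul_pow, mul_assoc]
      exact mul_le_one₀ e1 (by positivity) (hη1 j)) (h64 j) (hgs j)
  refine ⟨β, g, hβ, hg, hgb, hgm, h3 val ι _ T (‖A‖ + δ * ‖S β‖) K _ u f hι hT ?_ (fun t => ?_) hK
    (fun j => ?_) hP fun j => num_Glue j (ha j) ?_⟩
  · exact continuous_const.add ((Complex.continuous_ofReal.comp hg).smul continuous_const)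
  · refine (norm_add_le _ _).trans (add_le_add le_rfl ?_)
    rw [norm_smul, Complex.norm_real, Real.norm_eq_abs]
    exact mul_le_mul_of_nonneg_right (hgb t) (norm_nonneg _)
  · have := hw0 j
    have := hd j
    have := hη0 j
    have := hm j
    positivity
  · have e0 : 0 < w j * (δ / 2 ^ (j + 1)) * m j := mul_pos (mul_pos (hw0 j) (hd j)) (hm j)
    have e1 := (div_le_iff₀ e0).1 (hR j)
    rw [le_div_iff₀ (mul_pos (by positivity) (hK j)), le_div_iff₀ (by norm_num)]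
    refine e1.trans (le_of_eq ?_)
    ring

end Pool.Agent.MP_954c34_an.Rank

end

section
set_option linter.all false
set_option maxSynthPendingDepth 3

open MeasureTheory Set Filter Topology
open scoped InnerProductSpace ComplexConjugate ContDiff BoundedContinuousFunction

noncomputable section

namespace Pool.Agent.MP_954c34_an.Rank

open Pool.Agent.MP_954c34_an.Sharp Pool.Agent.MP_954c34_an.Sob

lemma mono_OneBlock {V H : Type} [NormedAddCommGroup V] [InnerProductSpace ℂ V] [CompleteSpace V]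
    [NormedAddCommGroup H] [InnerProductSpace ℂ H] [CompleteSpace H] {val : V →L[ℂ] H}
    {ι : H →L[ℂ] V →L⋆[ℂ] ℂ} {A B : V →L[ℂ] V →L⋆[ℂ] ℂ} {M M' m w : ℝ} {k : ℕ} {G Φ : V}
    {h0 h1 h2 : H} (h : Block val ι A B M m w k G Φ h0 h1 h2) (hM : M ≤ M') :
    Block val ι A B M' m w k G Φ h0 h1 h2 :=
  ⟨h.e0, h.e1, h.e2, h.e3, h.bG.trans hM, h.b0.trans hM, h.bΦ.trans (by gcongr),
    h.bv.trans (by gcongr), h.low, h.b1.trans (by gcongr), h.b2.trans (by gcongr)⟩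

variable {E : Type} [NormedAddCommGroup E] [InnerProductSpace ℝ E] [FiniteDimensional ℝ E]
  [MeasurableSpace E] [BorelSpace E] {n : ℕ}

variable {μ : Measure E} [μ.IsAddHaarMeasure] {b : OrthonormalBasis (Fin n) ℝ E} {i₀ : Fin n}
  {Ω D K : Set E}

lemma div_OneBlock (hK : IsCompact K) (hKD : K ⊆ Dᶜ) (hKΩ : K ⊆ Ω) (p : E →ᵇ ℝ) {F : E → ℝ}
    (hF : Test K F) {Y : Fin n → E → ℝ} (hY : ∀ i, Test K (Y i))
    (e : ∀ i x, p x * pd b i F x = Y i x) :
    scalOp μ b Ω D p (jetV μ b Ω D hK hKD hF) =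
      dualOf μ b Ω D none (-cut μ Ω hK (∑ i, bcf (pd b i (Y i)))) := by
  rw [scalOp_apply, map_neg, map_sum, map_sum, ← Finset.sum_neg_distrib]
  refine Finset.sum_congr rfl fun i _ => ?_
  have : p * bcf (pd b i F) = bcf (Y i) := by
    ext x
    rw [BoundedContinuousFunction.mul_apply, (hF.pd b i).bcf_apply hK, (hY i).bcf_apply hK, e]
  rw [comp_jetV_some, mulOp_cut, this, (hY i).dualOf_pd hK hKΩ i, neg_neg]

lemma bd_OneBlock (hK : IsCompact K) {j : ℕ} {F : Fin n → ℕ → E → ℝ}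
    (h : ∀ i, Gen b i₀ K j (F i)) : ∃ M, 0 ≤ M ∧ ∀ i k x, |F i k x| ≤ M * (2 ^ j) ^ k := by
  choose M hM using fun i => (h i).reg hK
  refine ⟨∑ i, |M i|, by positivity, fun i k x => ((hM i k).sup x).trans ?_⟩
  rw [← pow_mul, mul_comm k j, pow_mul]
  exact mul_le_mul_of_nonneg_right ((le_abs_self _).trans (Finset.single_le_sum
    (fun i _ => abs_nonneg (M i)) (Finset.mem_univ i))) (by positivity)

lemma sum_OneBlock (hK : IsCompact K) {T : Fin n → E → ℝ} (hT : ∀ i, Test K (T i)) {C q : ℝ}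
    (h : ∀ i x, |T i x| ≤ C * q) :
    ‖-cut μ Ω hK (∑ i, bcf (T i))‖ ≤ ‖cut μ Ω hK‖ * (n * C) * q := by
  rw [norm_neg, mul_assoc, mul_assoc]
  refine ((cut μ Ω hK).le_opNorm _).trans (mul_le_mul_of_nonneg_left ?_ (norm_nonneg _))
  refine (norm_sum_le _ _).trans ((Finset.sum_le_sum fun i _ =>
    (hT i).norm_bcf_le hK (h i)).trans (le_of_eq ?_))
  simp

lemma pd_mul_OneBlock {F G : E → ℝ} (hF : Differentiable ℝ F) (hG : Differentiable ℝ G)
    (i : Fin n) (x : E) :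
    pd b i (fun x => F x * G x) x = pd b i F x * G x + F x * pd b i G x := by
  rw [pd_of_hasFDerivAt ((hF x).hasFDerivAt.fun_mul (hG x).hasFDerivAt)]
  simp [pd]
  ring

lemma fam_OneBlock (hK : IsCompact K) (hKD : K ⊆ Dᶜ) (hKΩ : K ⊆ Ω) {g : E → ℝ} (hg : Test K g)
    {c : ℕ → E → ℝ} (hc : Gen b i₀ K 0 c) (hcg : ∀ k i x, c k x * pd b i g x = kron i₀ i * c k x)
    (hc1 : Gen b i₀ K 1 fun k x => pd b i₀ (pd b i₀ (c k)) x + 4 ^ k * c k x) :
    ∃ M : ℝ, 1 ≤ M ∧ ∀ (k : ℕ) (m : ℝ), m * 2 ^ k ≤ ‖cut μ Ω hK (bcf (pd b i₀ (c k)))‖ →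
      ∃ h1 h2 : L2 μ Ω, ‖bcf (c k)‖ ≤ M ∧
        Block (toH μ b Ω D) (dualOf μ b Ω D none) (scalOp μ b Ω D 1) (scalOp μ b Ω D (bcf (c k)))
          M m 1 k (jetV μ b Ω D hK hKD hg) (jetV μ b Ω D hK hKD ((hc.test k).pd b i₀))
          (-cut μ Ω hK (∑ i, bcf (pd b i (pd b i g)))) h1 h2 := by
  have hF := hc.pd_succ i₀
  have gT : ∀ i, Gen b i₀ K 2 fun k x =>
      pd b i (pd b i (pd b i₀ (c k))) x + kron i₀ i * (4 ^ k * pd b i₀ (c k) x) := fun i => by
    by_cases hi : i₀ = i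
    · subst hi
      have := hc1.pd_succ i₀
      simp only [fun k => pd_add (b := b) ((hF.pd_succ i₀).test k).differentiable
        ((hc.test k).const_mul (4 ^ k)).differentiable i₀,
        fun k => pd_const_mul (b := b) (hc.test k).differentiable (4 ^ k) i₀] at this
      simpa only [kron, if_true, one_mul] using this
    · simpa only [kron, if_neg hi, zero_mul, add_zero] using ((hF.pd_ne hi).pd_ne hi).succ
  obtain ⟨C0, p0, b0⟩ := bd_OneBlock hK fun _ : Fin n => hc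
  obtain ⟨C1, p1, b1⟩ := bd_OneBlock hK fun i => hc.pd_succ i
  obtain ⟨C2, p2, b2⟩ := bd_OneBlock hK fun i => hF.pd_succ i
  obtain ⟨C3, p3, b3⟩ := bd_OneBlock hK fun i => (hF.pd_succ i).pd_succ i
  obtain ⟨C4, p4, b4⟩ := bd_OneBlock hK gT
  norm_num at b0 b1 b2 b3 b4
  set a1 := ‖jetV μ b Ω D hK hKD hg‖ with ha1
  set a2 := ‖-cut μ Ω hK (∑ i, bcf (pd b i (pd b i g)))‖ with ha2
  set a3 := ‖jetL n μ Ω hK‖ * (C1 + C2) with ha3
  set a4 := ‖cut μ Ω hK‖ * C1 with ha4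
  set a5 := ‖cut μ Ω hK‖ * (n * C4) with ha5
  set a6 := ‖cut μ Ω hK‖ * (n * (C1 * C2 + C0 * C3)) with ha6
  have q1 : 0 ≤ a1 := norm_nonneg _
  have q2 : 0 ≤ a2 := norm_nonneg _
  have q3 : 0 ≤ a3 := by positivity
  have q4 : 0 ≤ a4 := by positivity
  have q5 : 0 ≤ a5 := by positivity
  have q6 : 0 ≤ a6 := by positivity
  refine ⟨1 + C0 + a1 + a2 + a3 + a4 + a5 + a6, by linarith, fun k m hm => ?_⟩
  have tc := hc.test k
  have tF := tc.pd b i₀
  have tY : ∀ i, Test K fun x => c k x * pd b i (pd b i₀ (c k)) x := fun i =>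
    ⟨tc.smooth.mul (tF.pd b i).smooth, tsupport_mul_subset_left.trans tc.supp⟩
  have h24 : (2 : ℝ) ^ k ≤ 4 ^ k := pow_le_pow_left₀ zero_le_two (by norm_num) k
  have h4 : (0 : ℝ) < 4 ^ k := by positivity
  refine ⟨-cut μ Ω hK (∑ i, bcf fun x =>
      pd b i (pd b i (pd b i₀ (c k))) x + kron i₀ i * (4 ^ k * pd b i₀ (c k) x)),
    -cut μ Ω hK (∑ i, bcf (pd b i fun x => c k x * pd b i (pd b i₀ (c k)) x)),
    (tc.norm_bcf_le hK (b0 i₀ k)).trans (by linarith), ?_, ?_, ?_, ?_, by linarith, by linarith,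
    ?_, ?_, hm, ?_, ?_⟩
  · exact div_OneBlock hK hKD hKΩ 1 hg (fun i => hg.pd b i) fun i x => one_mul _
  · rw [div_OneBlock hK hKD hKΩ (bcf (c k)) hg (fun i => tc.const_mul (kron i₀ i))
      fun i x => by rw [tc.bcf_apply hK, hcg]]
    have : ∑ i, bcf (pd b i fun x => kron i₀ i * c k x) = bcf (pd b i₀ (c k)) := by
      ext x
      rw [BoundedContinuousFunction.sum_apply, tF.bcf_apply hK,
        ← sum_kron_mul i₀ fun i => pd b i (c k) x]
      refine Finset.sum_congr rfl fun i _ => ?_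
      rw [((tc.const_mul _).pd b i).bcf_apply hK, pd_const_mul tc.differentiable]
    rw [this, map_neg, Complex.ofReal_one, one_smul]
    rfl
  · rw [div_OneBlock hK hKD hKΩ 1 tF (fun i => tF.pd b i) fun i x => one_mul _]
    have : (∑ i, bcf fun x =>
        pd b i (pd b i (pd b i₀ (c k))) x + kron i₀ i * (4 ^ k * pd b i₀ (c k) x)) =
        ∑ i, bcf (pd b i (pd b i (pd b i₀ (c k)))) + (4 : ℝ) ^ k • bcf (pd b i₀ (c k)) := by
      ext x
      rw [BoundedContinuousFunction.add_apply, BoundedContinuousFunction.smul_apply,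
        BoundedContinuousFunction.sum_apply, BoundedContinuousFunction.sum_apply,
        tF.bcf_apply hK, smul_eq_mul, ← sum_kron_mul i₀ fun _ => 4 ^ k * pd b i₀ (c k) x,
        ← Finset.sum_add_distrib]
      refine Finset.sum_congr rfl fun i _ => ?_
      rw [((gT i).test k).bcf_apply hK, ((tF.pd b i).pd b i).bcf_apply hK]
    have e : (4 : ℝ) ^ k • cut μ Ω hK (bcf (pd b i₀ (c k))) =
        (4 : ℂ) ^ k • toH μ b Ω D (jetV μ b Ω D hK hKD tF) := by
      rw [← algebraMap_smul ℂ ((4 : ℝ) ^ k), map_pow, map_ofNat]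
      rfl
    rw [this, map_add, map_smul, e, ← map_smul, ← map_add]
    congr 1
    abel
  · rw [Complex.ofReal_one, one_smul]
    exact div_OneBlock hK hKD hKΩ _ tF tY fun i x => by rw [tc.bcf_apply hK]
  · refine (norm_jetV_le μ b Ω D hK hKD tF (C := (C1 + C2) * 4 ^ k) (fun x => (b1 i₀ k x).trans ?_)
      fun i x => (b2 i k x).trans ?_).trans ?_
    · exact mul_le_mul (by linarith) h24 (by positivity) (by positivity)
    · exact mul_le_mul_of_nonneg_right (by linarith) h4.le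
    · rw [← mul_assoc]
      exact mul_le_mul_of_nonneg_right (by linarith) h4.le
  · refine ((cut μ Ω hK).le_opNorm _).trans ((mul_le_mul_of_nonneg_left
      (tF.norm_bcf_le hK (b1 i₀ k)) (norm_nonneg _)).trans ?_)
    rw [← mul_assoc]
    exact mul_le_mul_of_nonneg_right (by linarith) (by positivity)
  · exact (sum_OneBlock hK (fun i => (gT i).test k) fun i => b4 i k).trans
      (mul_le_mul_of_nonneg_right (by linarith) h4.le)
  · refine (sum_OneBlock hK (fun i => (tY i).pd b i) (C := C1 * C2 + C0 * C3) (q := 8 ^ k)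
      fun i x => ?_).trans (mul_le_mul_of_nonneg_right (by linarith) (by positivity))
    rw [pd_mul_OneBlock tc.differentiable (tF.pd b i).differentiable]
    refine (abs_add_le _ _).trans ?_
    rw [abs_mul, abs_mul]
    refine (add_le_add (mul_le_mul (b1 i k x) (b2 i k x) (abs_nonneg _) (by positivity))
      (mul_le_mul (b0 i k x) (b3 i k x) (abs_nonneg _) p0)).trans (le_of_eq ?_)
    rw [show (8 : ℝ) = 2 * 4 by norm_num, mul_pow]
    ring

theorem oneBlock_st (μ : Measure E) [μ.IsAddHaarMeasure] (b : OrthonormalBasis (Fin n) ℝ E)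
    (Ω D : Set E) : OneBlockSt μ b Ω D := by
  intro i₀ K hK hKD χ g hg hΩ hKΩ hχ ⟨x₀, hx₀⟩ hpd
  have t1 := hχ.pd b i₀
  have t2 := t1.pd b i₀
  have h4 : ∀ k : ℕ, (4 : ℝ) ^ k = 2 ^ k * 2 ^ k := fun k => by rw [← mul_pow]; norm_num
  have hz : ∀ (i : Fin n) (x : E) (r : ℝ), χ x * r * pd b i g x = kron i₀ i * (χ x * r) :=
    fun i x r => by
      by_cases hx : x ∈ tsupport χ
      · rw [hpd x hx, mul_comm]
      · simp [image_eq_zero_of_notMem_tsupport hx]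
  have hp : ∀ k : ℕ, |(2 : ℝ) ^ k| ≤ 2 ^ k := fun k => (abs_of_pos (by positivity)).le
  have hn : ∀ k : ℕ, |-(2 : ℝ) ^ k| ≤ 2 ^ k := fun k => (abs_neg _).trans_le (hp k)
  obtain ⟨Mc, hMc, hc⟩ := fam_OneBlock (μ := μ) hK hKD hKΩ hg (Gen.cos (b := b) (i₀ := i₀) hχ)
    (fun k i x => hz i x _) (by
      convert ((Gen.cos (b := b) (i₀ := i₀) t2).succ.add ((Gen.sin t1).mul _ hn)).add
        ((Gen.sin t1).mul _ hn) using 3 with k x
      rw [pd_cosOsc hχ.differentiable, pd_add (t1.cosOsc _ _).differentiable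
        ((hχ.sinOsc _ _).const_mul _).differentiable, pd_const_mul (hχ.sinOsc _ _).differentiable,
        pd_cosOsc t1.differentiable, pd_sinOsc hχ.differentiable, h4]
      simp only [kron, if_true]
      ring)
  obtain ⟨Ms, hMs, hs⟩ := fam_OneBlock (μ := μ) hK hKD hKΩ hg (Gen.sin (b := b) (i₀ := i₀) hχ)
    (fun k i x => hz i x _) (by
      convert ((Gen.sin (b := b) (i₀ := i₀) t2).succ.add ((Gen.cos t1).mul _ hp)).add
        ((Gen.cos t1).mul _ hp) using 3 with k x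
      rw [pd_sinOsc hχ.differentiable, pd_add (t1.sinOsc _ _).differentiable
        ((hχ.cosOsc _ _).const_mul _).differentiable, pd_const_mul (hχ.cosOsc _ _).differentiable,
        pd_sinOsc t1.differentiable, pd_cosOsc hχ.differentiable, h4]
      simp only [kron, if_true]
      ring)
  have hχ0 : 0 < ‖cut μ Ω hK (bcf χ)‖ := by
    rw [norm_pos_iff]
    intro h0
    have h1 : (fun x => (χ x : ℂ)) =ᵐ[μ.restrict Ω] fun _ => 0 := by
      filter_upwards [hχ.coeFn_cut μ Ω hK, Lp.coeFn_zero ℂ 2 (μ.restrict Ω)] with x h1 h2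
      rw [← h1, h0, h2]
      rfl
    have h2 := Measure.eqOn_open_of_ae_eq h1 hΩ
      (Complex.continuous_ofReal.comp hχ.smooth.continuous).continuousOn continuousOn_const
      (hKΩ (hχ.supp (subset_tsupport _ hx₀)))
    exact hx₀ (by simpa using h2)
  refine ⟨Mc + Ms, ‖cut μ Ω hK (bcf χ)‖ / 2, -cut μ Ω hK (∑ i, bcf (pd b i (pd b i g))),
    by linarith, by positivity, fun k => ?_⟩
  have tc := hχ.cosOsc (b := b) i₀ (2 ^ k)
  have ts := hχ.sinOsc (b := b) i₀ (2 ^ k)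
  set u := cut μ Ω hK (bcf (pd b i₀ (sinOsc b i₀ χ (2 ^ k)))) with hu
  set v := cut μ Ω hK (bcf (pd b i₀ (cosOsc b i₀ χ (2 ^ k)))) with hv
  have hlow : ‖((2 : ℝ) ^ k) • cut μ Ω hK (bcf χ)‖ ≤ ‖u - Complex.I • v‖ := by
    refine Lp.norm_le_norm_of_ae_le ?_
    filter_upwards [hχ.coeFn_cut μ Ω hK, (ts.pd b i₀).coeFn_cut μ Ω hK,
      (tc.pd b i₀).coeFn_cut μ Ω hK, Lp.coeFn_sub u (Complex.I • v), Lp.coeFn_smul Complex.I v,
      Lp.coeFn_smul ((2 : ℝ) ^ k) (cut μ Ω hK (bcf χ))] with x h1 h2 h3 h4 h5 h6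
    rw [h6, Pi.smul_apply, h1, h4, Pi.sub_apply, h5, Pi.smul_apply, h2, h3, norm_smul,
      Complex.norm_real, Real.norm_eq_abs, Real.norm_eq_abs, ← abs_mul, smul_eq_mul]
    exact le_norm_pd_osc hχ.differentiable i₀ _ x
  have h2 := hlow.trans (norm_sub_le _ _)
  rw [norm_smul, norm_smul, Complex.norm_I, one_mul, Real.norm_of_nonneg (by positivity)] at h2
  by_cases huv : ‖u‖ ≤ ‖v‖
  · obtain ⟨h1, h2, h3, h4⟩ := hc k (‖cut μ Ω hK (bcf χ)‖ / 2) (by linarith)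
    exact ⟨_, _, _, h1, h2, tc, by linarith, mono_OneBlock h4 (by linarith)⟩
  · obtain ⟨h1, h2, h3, h4⟩ := hs k (‖cut μ Ω hK (bcf χ)‖ / 2) (by linarith)
    exact ⟨_, _, _, h1, h2, ts, by linarith, mono_OneBlock h4 (by linarith)⟩

end Pool.Agent.MP_954c34_an.Rank

end

section
set_option linter.all false
set_option maxSynthPendingDepth 3

open MeasureTheory Set Filter Topology
open scoped InnerProductSpace ComplexConjugate ContDiff BoundedContinuousFunction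

noncomputable section

namespace Pool.Agent.MP_954c34_an.Rank

open Pool.Agent.MP_954c34_an.Sharp Pool.Agent.MP_954c34_an.Sob

variable {E : Type} [NormedAddCommGroup E] [InnerProductSpace ℝ E] [FiniteDimensional ℝ E]
  [MeasurableSpace E] [BorelSpace E] {n : ℕ}

lemma shells_Blocks (b : OrthonormalBasis (Fin n) ℝ E) (i₀ : Fin n) {Ω : Set E} (hΩ : IsOpen Ω)
    (hne : Ω.Nonempty) : ∃ O : ℕ → Set E, (∀ j, IsOpen (O j) ∧ (O j).Nonempty ∧ O j ⊆ Ω) ∧
      ∀ i j, i ≠ j → ∀ x ∈ O i, x ∉ O j := by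
  obtain ⟨x₀, hx₀⟩ := hne
  obtain ⟨r, hr, hball⟩ := Metric.isOpen_iff.1 hΩ x₀ hx₀
  have hc : Continuous fun x : E => ‖x - x₀‖ := by fun_prop
  have ho : ∀ p q : ℝ, IsOpen {x : E | p < ‖x - x₀‖ ∧ ‖x - x₀‖ < q} := fun p q =>
    isOpen_Ioo.preimage hc
  refine ⟨fun j => Ω ∩ {x | r / ((j : ℝ) + 2) < ‖x - x₀‖ ∧ ‖x - x₀‖ < r / ((j : ℝ) + 1)},
    fun j => ⟨hΩ.inter (ho _ _), ?_, inter_subset_left⟩, ?_⟩
  · have hj : (0 : ℝ) ≤ j := Nat.cast_nonneg j
    have hs : 0 < r / ((j : ℝ) + 3 / 2) := by positivity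
    have hn : ‖x₀ + (r / ((j : ℝ) + 3 / 2)) • b i₀ - x₀‖ = r / ((j : ℝ) + 3 / 2) := by
      rw [add_sub_cancel_left, norm_smul, b.orthonormal.1 i₀, mul_one, Real.norm_eq_abs,
        abs_of_pos hs]
    refine ⟨x₀ + (r / ((j : ℝ) + 3 / 2)) • b i₀, hball ?_, ?_, ?_⟩
    · rw [mem_ball_iff_norm, hn]
      exact div_lt_self hr (by linarith)
    · rw [hn]
      exact div_lt_div_of_pos_left hr (by positivity) (by linarith)
    · rw [hn]
      exact div_lt_div_of_pos_left hr (by positivity) (by linarith)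
  · have key : ∀ i j : ℕ, i < j → r / ((j : ℝ) + 1) ≤ r / ((i : ℝ) + 2) := by
      intro i j h
      have : (i : ℝ) + 1 ≤ j := by exact_mod_cast h
      exact div_le_div_of_nonneg_left hr.le (by positivity) (by linarith)
    rintro i j hij x ⟨-, h1, h2⟩ ⟨-, h3, h4⟩
    rcases lt_or_gt_of_ne hij with h | h
    · linarith [key i j h]
    · linarith [key j i h]

lemma orth_Blocks (μ : Measure E) [μ.IsAddHaarMeasure] (b : OrthonormalBasis (Fin n) ℝ E)
    (Ω D : Set E) {K K' : Set E} (hK : IsCompact K) (hK' : IsCompact K') (hD : K' ⊆ Dᶜ)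
    (hd : ∀ x ∈ K, x ∉ K') {c F : E → ℝ} (hc : Test K c) (hF : Test K' F) :
    scalOp μ b Ω D (bcf c) (jetV μ b Ω D hK' hD hF) = 0 := by
  rw [scalOp_apply]
  refine Finset.sum_eq_zero fun l _ => ?_
  have h0 : bcf c * bcf (pd b l F) = 0 := by
    ext x
    rw [BoundedContinuousFunction.mul_apply, hc.bcf_apply hK, (hF.pd b l).bcf_apply hK']
    by_cases hx : x ∈ K
    · rw [(hF.pd b l).eq_zero (hd x hx), mul_zero]
      rfl
    · rw [hc.eq_zero hx, zero_mul]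
      rfl
  rw [comp_jetV_some, mulOp_cut, h0, map_zero, map_zero]

theorem blocks_st (μ : Measure E) [μ.IsAddHaarMeasure] (b : OrthonormalBasis (Fin n) ℝ E)
    (Ω D : Set E) (h : OneBlockSt μ b Ω D) : BlocksSt μ b Ω D := by
  intro S hS hn hΩ hne hD
  let i₀ : Fin n := ⟨0, hn⟩
  obtain ⟨O, hO, hdis⟩ := shells_Blocks b i₀ hΩ hne
  choose K χ g hK hKO hK0 hχ hg hχ0 hpd using fun j =>
    exists_bumps b i₀ (D := ∅) (hO j).1 (hO j).2.1 (empty_subset _)
  have hKΩ : ∀ j, K j ⊆ Ω := fun j => (hKO j).trans (hO j).2.2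
  have hKD : ∀ j, K j ⊆ Dᶜ := fun j x hx hxD => by
    have := hD hxD
    rw [hΩ.frontier_eq] at this
    exact this.2 (hKΩ j hx)
  choose M m h0 hM hm hk using fun j =>
    h i₀ (K j) (hK j) (hKD j) (χ j) (g j) (hg j) hΩ (hKΩ j) (hχ j) (hχ0 j) (hpd j)
  choose c F hF h1 h2 hc hcM hB using hk
  refine ⟨M, m, fun j k => bcf (c j k), fun j => jetV μ b Ω D (hK j) (hKD j) (hg j),
    fun j k => jetV μ b Ω D (hK j) (hKD j) (hF j k), h0, h1, h2, hM, hm, hcM, fun j k => ?_,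
    fun i j hij k l => ?_⟩
  · rw [hS]
    exact hB j k
  · have hd : ∀ x ∈ K i, x ∉ K j := fun x hx hx' => hdis i j hij x (hKO i hx) (hKO j hx')
    rw [hS]
    exact ⟨orth_Blocks μ b Ω D (hK i) (hK j) (hKD j) hd (hc i k) (hg j),
      orth_Blocks μ b Ω D (hK i) (hK j) (hKD j) hd (hc i k) (hF j l)⟩

end Pool.Agent.MP_954c34_an.Rank

end

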