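import Pool.Agent.MP_954c34_an.Rk.B
import Pool.Agent.MP_954c34_an.RDefs

set_option linter.all false
set_option maxSynthPendingDepth 3

open MeasureTheory Set Filter Topology
open scoped InnerProductSpace ComplexConjugate ContDiff

noncomputable section

namespace Pool.Agent.MP_954c34_an.Rank

open Pool.Agent.MP_954c34_an.Sharp

section Rep

variable {X Y : Type} [NormedAddCommGroup X] [InnerProductSpace ℂ X] [CompleteSpace X]
  [NormedAddCommGroup Y] [InnerProductSpace ℂ Y] [CompleteSpace Y]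

lemma Coer.mono {c c' : ℝ} {B : X →L[ℂ] X} (h : Coer c B) (hc : c' ≤ c) : Coer c' B := fun x =>
  (mul_le_mul_of_nonneg_right hc (sq_nonneg _)).trans (h x)

lemma Kato.mono {J : X →L[ℂ] Y} {K B : X →L[ℂ] X} {C C' : ℝ} {N : ℕ} (h : Kato J K B C N)
    (hC : C ≤ C') : Kato J K B C' N := fun v r hr =>
  (h v r hr).trans (mul_le_mul_of_nonneg_right hC (sq_nonneg _))

lemma IsGram.unique {J : X →L[ℂ] Y} {K K' : X →L[ℂ] X} (h : IsGram J K) (h' : IsGram J K') :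
    K = K' := ContinuousLinearMap.ext fun y => ext_inner_left ℂ fun x => by rw [h, h']

lemma exists_rep (c Λ C j0 : ℝ) (hc : 0 < c) (hC : 0 ≤ C) : ∃ c' Λ' : ℝ, 0 < c' ∧ c' ≤ c ∧ Λ ≤ Λ' ∧
    ∀ (J : X →L[ℂ] Y) (K B : X →L[ℂ] X) (N : ℕ), IsGram J K → Coer c B → ‖B‖ ≤ Λ → ‖J‖ ≤ j0 →
      Kato J K B C (N + 1) → ∃ W Z, IsRep J K B c' Λ' (2 ^ N) W Z := by
  obtain ⟨a, ha, hO⟩ := orb_st (X := X) (Y := Y) c Λ hc
  set q := (1 + a) ^ 2 * C with hq
  have hq0 : 0 ≤ q := by positivity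
  have ha0 : 0 < a := by linarith
  refine ⟨min c (min (1 / a ^ 3) (c ^ 2 / (8 * a * q + 1))), max Λ ((a * j0) ^ 2), by positivity,
    min_le_left _ _, le_max_left _ _, fun J K B N hK hB hΛ hJ hKa => ?_⟩
  set c' := min c (min (1 / a ^ 3) (c ^ 2 / (8 * a * q + 1))) with hc'
  have hc'0 : 0 < c' := by positivity
  have h1 : c' * a ^ 3 ≤ 1 := by
    rw [← le_div_iff₀ (by positivity)]
    exact (min_le_right _ _).trans (min_le_left _ _)
  have h2 : c' * (8 * a * q + 1) ≤ c ^ 2 := by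
    rw [← le_div_iff₀ (by positivity)]
    exact (min_le_right _ _).trans (min_le_right _ _)
  have hL : 1 ≤ 2 ^ N := Nat.one_le_two_pow
  have hunit : IsUnit (((2 ^ N : ℕ) : ℂ) • K + B) := by
    have h3 := hK.exists_res hc (s := (1 / 2) ^ N) (by positivity) hB
    have h4 : ((2 ^ N : ℕ) : ℂ) • K + B =
        ((2 ^ N : ℕ) : ℂ) • (K + (((1 / 2 : ℝ) ^ N : ℝ) : ℂ) • B) := by
      rw [smul_add, smul_smul]
      push_cast
      rw [← mul_pow]
      norm_num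
    rw [h4]
    exact h3.smul (Units.mk0 ((2 ^ N : ℕ) : ℂ) (Nat.cast_ne_zero.2 (by positivity)))
  obtain ⟨u, hu⟩ := hunit
  have hS : IsStep K B (2 ^ N) ↑u⁻¹ := ⟨by rw [← hu, u.inv_mul], by rw [← hu, u.mul_inv]⟩
  have o1 := hO J K B _ _ hK hB hΛ hL hS
  have o2 := hO J K (star B) _ _ hK hB.star (by rwa [norm_star]) hL (hS.star hK.sa)
  obtain ⟨a1, a2⟩ := nid_st K B _ _ hL hS
  obtain ⟨a3, a4⟩ := ndec_st J K B _ _ a hK hL hS ha o1 o2
  have a5 := nsq_st J K B _ _ c a q hK hL hc hB hS ha o2 hq0 fun v =>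
    (katoOrb_st J K B _ N c a C hK hc hB hS ha o1 hKa v).trans_eq (by push_cast; ring)
  refine ⟨Wn (2 ^ N) K ↑u⁻¹, -Ds (2 ^ N) K (↑u⁻¹) (2 ^ N - 1), a1,
    fun S h1 h2 => ⟨(a2 S h1 h2).1, ((a2 S h1 h2).2 _).neg_right⟩, fun j hj x => ?_,
    fun x => (a4 x).trans (mul_le_mul_of_nonneg_right ?_ (sq_nonneg _)),
    fun n Γ γ hγ hcm hr x => ?_⟩
  · have h3 := mul_le_mul_of_nonneg_left (a3 j hj x) hc'0.le
    have h4 := mul_le_mul_of_nonneg_right h1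
      (by positivity : (0 : ℝ) ≤ ((2 ^ N : ℕ) : ℝ) * ‖x‖ ^ 2)
    have h5 : (0 : ℝ) ≤ ((2 ^ N : ℕ) : ℝ) * ‖x‖ ^ 2 := by positivity
    nlinarith
  · refine le_trans ?_ (le_max_right _ _)
    exact pow_le_pow_left₀ (by positivity) (mul_le_mul_of_nonneg_left hJ ha0.le) 2
  · have h3 := mul_le_mul_of_nonneg_left (a5 n Γ γ hγ hcm hr x) hc'0.le
    have h5 : 0 ≤ γ * ∑ i, ‖x i‖ ^ 2 := by positivity
    have h4 := mul_le_mul_of_nonneg_right h2 h5
    refine le_of_mul_le_mul_left ?_ (by positivity : 0 < c ^ 2)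
    nlinarith [mul_nonneg hc'0.le h5]

end Rep

variable {V H : Type} [NormedAddCommGroup V] [InnerProductSpace ℂ V] [CompleteSpace V]
  [NormedAddCommGroup H] [InnerProductSpace ℂ H] [CompleteSpace H]

lemma IsFam.continuous {T c Λ κ γ : ℝ} {B : ℝ → V →L[ℂ] V} {n : ℕ} {Bi : Fin n → V →L[ℂ] V}
    {g : ℝ → Fin n → ℝ} (h : IsFam T c Λ κ γ B n Bi g) : Continuous B := by
  have e : B = fun t => B 0 + ∑ i, ((g t i - g 0 i : ℝ) : ℂ) • Bi i := by
    funext t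
    rw [← h.eq, add_sub_cancel]
  rw [e]
  exact continuous_const.add (continuous_finset_sum _ fun i _ =>
    (Complex.continuous_ofReal.comp ((h.cont i).sub continuous_const)).smul continuous_const)

lemma IsFam.mono {T c Λ c' Λ' κ γ : ℝ} {B : ℝ → V →L[ℂ] V} {n : ℕ} {Bi : Fin n → V →L[ℂ] V}
    {g : ℝ → Fin n → ℝ} (h : IsFam T c Λ κ γ B n Bi g) (hc : c' ≤ c) (hΛ : Λ ≤ Λ') :
    IsFam T c' Λ' κ γ B n Bi g :=
  ⟨fun t => (h.coer t).mono hc, fun t => (h.bound t).trans hΛ, h.eq, h.col, h.hol, h.cont, h.clamp⟩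

lemma scheme_of_approx (val : V →L[ℂ] H) {T c₀ Λ₀ κ γ Ck : ℝ} (hT : 0 < T) (hc₀ : 0 < c₀)
    (hκ : 0 ≤ κ) (hγ : 0 ≤ γ) (hCk : 0 ≤ Ck) {B : ℝ → V →L[ℂ] V}
    (happ : ∀ (N : ℕ) (ε : ℝ), 0 < ε → ∃ B' n Bi g, IsFam T c₀ Λ₀ κ γ B' n Bi g ∧
      (∀ t, ‖B' t - B t‖ ≤ ε) ∧
      ∀ t, Kato val ((ContinuousLinearMap.adjoint val).comp val) (B' t) Ck N) :
    SchemeBound val B := by
  intro F A hAB
  have hA : GivASt V := givA_st
  have hB : GivBSt V H := givB_st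
  have hI : InstSt V H := inst_st hA hB
  have hD : DiscSt (LL V) (LL H) := disc_st inc_st (abs_st half_st auto_st)
  set J : LL V →L[ℂ] LL H := val.compLpL 2 volume with hJdef
  obtain ⟨c, Λ, hc, hcc, hΛΛ, hrep⟩ := exists_rep (X := LL V) (Y := LL H) c₀ Λ₀ Ck ‖J‖ hc₀ hCk
  obtain ⟨M, hM⟩ := hI T c κ γ hT hc hκ hγ
  obtain ⟨C, hC⟩ := hD c Λ κ γ ‖J‖ ‖F‖ M hc hκ hγ (norm_nonneg _)
  refine ⟨C, fun N a ha => ?_⟩
  have hJ : ∀ r x, J (sh V r x) = sh H r (J x) := by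
    intro r x
    refine Lp.ext ?_
    filter_upwards [val.coeFn_compLpL (sh V r x), coeFn_sh r x, coeFn_sh r (J x),
      ae_shift (val.coeFn_compLpL x) r] with t h1 h2 h3 h4
    rw [h1, h2, h3, h4]
  set L : ℕ := 2 ^ N with hLdef
  have hL : 1 ≤ L := Nat.one_le_two_pow
  have hLr : (L : ℝ) = 2 ^ N := by rw [hLdef]; push_cast; rfl
  have hstep : (1 / 2 : ℝ) ^ N = 1 / L := by rw [hLr, one_div, one_div, inv_pow]
  set U := sh V (1 / L) with hU
  have hdq : ∀ x, J (dq L U x) = (2 : ℂ) ^ N • dif (sh H ((1 / 2) ^ N)) 0 (J x) := by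
    intro x
    rw [dq_apply, map_smul, map_sub, hU, hJ, dif_apply, pow_zero, pow_one, hstep, hLr]
    push_cast
    rfl
  have hX : ∀ x, ‖J (dq L U x)‖ = 2 ^ N * ‖dif (sh H ((1 / 2) ^ N)) 0 (J x)‖ := by
    intro x
    rw [hdq, norm_smul, norm_pow, Complex.norm_ofNat]
  rw [← hX]
  refine le_of_forall_pos_le_add fun η hη => ?_
  set q := ‖J‖ * ‖dq L U‖ * ‖a‖ / c + 1 with hq
  have hq0 : 0 < q := by positivity
  obtain ⟨B', n, Bi, g, hF, hε, hKa⟩ := happ (N + 1) (η / q) (by positivity)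
  obtain ⟨A', hA'⟩ := exists_mulOp hF.continuous hF.bound
  obtain ⟨K, Ai, Γ, E, P, Δ, δ, hS⟩ := hM val Λ B' n Bi g A' L (hF.mono hcc hΛΛ) hA' hL
  obtain ⟨K', hK', gK'⟩ := hB.gram val
  obtain rfl := hS.gram.unique hK'
  have hR := hrep J K A' N hK' (hB.coer hA' hF.coer) (hA.norm hA' hF.bound) le_rfl
    (katoLine_st val _ K A' B' Ck (N + 1) gK' hA' hKa)
  set G := ContinuousLinearMap.adjoint J F with hG
  have hGb : ∀ x, ‖⟪x, G⟫_ℂ‖ ≤ ‖F‖ * ‖J x‖ := by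
    intro x
    rw [hG, ContinuousLinearMap.adjoint_inner_right, mul_comm]
    exact norm_inner_le_norm _ _
  have hL0 : (0 : ℝ) ≤ L := by positivity
  obtain ⟨a', ha'⟩ := hS.gram.exists_sol hS.unit hS.UK hL0 hc hS.coer G
  have h1 := hC J K U L A' n Ai Γ E P Δ δ a' G hS hR hL le_rfl hGb ha'
  have h2 : K (dq L U a) + A a = G := by
    refine ext_inner_left ℂ fun v => ?_
    rw [inner_add_right, hS.gram, hdq, inner_smul_right, ha, hG,
      ContinuousLinearMap.adjoint_inner_right]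
  have h3 : ‖A' - A‖ ≤ η / q := hA.norm (hA.sub hA' hAB) hε
  have h4 : K (dq L U (a - a')) + A' (a - a') = (A' - A) a := by
    rw [map_sub, map_sub, map_sub, ContinuousLinearMap.sub_apply]
    have := h2.trans ha'.symm
    linear_combination (norm := module) this
  have h5 := hS.gram.norm_sol hS.unit hS.UK hL0 hS.coer (a - a')
  rw [h4] at h5
  have h6 : c * ‖a - a'‖ ^ 2 ≤ ‖a - a'‖ * (η / q * ‖a‖) :=
    h5.trans ((re_inner_le_norm (𝕜 := ℂ) _ _).trans (mul_le_mul_of_nonneg_left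
      (((A' - A).le_opNorm a).trans (mul_le_mul_of_nonneg_right h3 (norm_nonneg _)))
      (norm_nonneg _)))
  have h7 : ‖a - a'‖ ≤ η / q * ‖a‖ / c := by
    rw [le_div_iff₀ hc]
    rcases (norm_nonneg (a - a')).eq_or_lt with h0 | h0
    · rw [← h0, zero_mul]
      positivity
    · nlinarith
  have h8 : J (dq L U a) = J (dq L U a') + J (dq L U (a - a')) := by
    rw [map_sub, map_sub, add_sub_cancel]
  have h9 : ‖J (dq L U (a - a'))‖ ≤ η :=
    calc _ ≤ ‖J‖ * (‖dq L U‖ * ‖a - a'‖) := (J.le_opNorm _).trans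
          (mul_le_mul_of_nonneg_left ((dq L U).le_opNorm _) (norm_nonneg _))
      _ ≤ ‖J‖ * (‖dq L U‖ * (η / q * ‖a‖ / c)) := by gcongr
      _ = (‖J‖ * ‖dq L U‖ * ‖a‖ / c) * (η / q) := by ring
      _ ≤ q * (η / q) := by gcongr; linarith
      _ = η := by field_simp
  rw [h8]
  exact (norm_add_le _ _).trans (add_le_add h1 h9)

lemma exists_near {T : ℝ} (hT : 0 < T) {p : ℝ → Prop}
    (h : ∀ᵐ t ∂(volume.restrict (Icc 0 T)), p t) {t : ℝ} (ht : t ∈ Icc 0 T) {U : Set ℝ}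
    (hU : U ∈ 𝓝 t) : ∃ s ∈ U, s ∈ Icc 0 T ∧ p s := by
  have hd := Measure.dense_of_ae ((ae_restrict_iff' measurableSet_Icc).1 h)
  rw [← closure_Ioo hT.ne] at ht
  obtain ⟨s, hs1, hs2⟩ := hd.inter_open_nonempty (interior U ∩ Ioo 0 T)
    (isOpen_interior.inter isOpen_Ioo) (mem_closure_iff_nhds.1 ht _ (interior_mem_nhds.2 hU))
  exact ⟨s, interior_subset hs1.1, Ioo_subset_Icc_self hs1.2, hs2 (Ioo_subset_Icc_self hs1.2)⟩

theorem hasMaxReg_fact (val : V →L[ℂ] H) {T : ℝ} (hT : 0 < T) (𝔄 : ℝ → V →L[ℂ] V →L⋆[ℂ] ℂ)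
    (hKato : IsKato val T 𝔄) {ι : Type}
    (𝔅 : ι → V →L[ℂ] V →L⋆[ℂ] ℂ) (g : ℝ → ι → ℝ) (k γ : ℝ)
    (hcol : ∀ (s : Finset ι) v, ∑ i ∈ s, ‖𝔅 i v‖ ^ 2 ≤ k * ‖v‖ ^ 2)
    (hhol : ∀ s : Finset ι, ∀ t ∈ Icc 0 T, ∀ r ∈ Icc 0 T,
      ∑ i ∈ s, (g t i - g r i) ^ 2 ≤ γ * |t - r|)
    (hsum : ∀ t ∈ Icc 0 T, ∀ u v,
      HasSum (fun i => ((g t i - g 0 i : ℝ) : ℂ) * 𝔅 i u v) (𝔄 t u v - 𝔄 0 u v)) :
    HasMaxReg val T 𝔄 := by
  classical
  obtain ⟨c, κ, Ck, hc, hKato⟩ := hKato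
  have hco := hKato.mono fun t ht => ht.1
  obtain ⟨R, hR, hRn⟩ := exists_riesz (V := V)
  obtain ⟨K, hK⟩ : ∃ K : V →L[ℂ] V, ∀ v a, ⟪v, K a⟫_ℂ = ⟪val v, (κ : ℂ) • val a⟫_ℂ :=
    ⟨(ContinuousLinearMap.adjoint val).comp ((κ : ℂ) • val), fun v a =>
      ContinuousLinearMap.adjoint_inner_right val v ((κ : ℂ) • val a)⟩
  obtain ⟨τ, hτd⟩ : ∃ τ : ℝ → ℝ, ∀ t, τ t = max 0 (min t T) := ⟨_, fun _ => rfl⟩
  have hτ : ∀ t, τ t ∈ Icc 0 T := fun t => by
    rw [hτd]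
    exact ⟨le_max_left _ _, max_le hT.le (min_le_right _ _)⟩
  have hτ1 : ∀ t ∈ Icc 0 T, τ t = t := fun t ht => by
    rw [hτd, min_eq_left ht.2, max_eq_right ht.1]
  have hτ2 : ∀ t s, |τ t - τ s| ≤ |t - s| := fun t s => by
    rw [hτd, hτd, max_comm 0, max_comm 0]
    exact (abs_max_sub_max_le_abs _ _ _).trans (abs_min_sub_min_le_max _ _ _ _ |>.trans (by simp))
  have h0T : (0 : ℝ) ∈ Icc 0 T := ⟨le_rfl, hT.le⟩
  obtain ⟨B, hB⟩ : ∃ B : ℝ → V →L[ℂ] V, ∀ t, B t = R.comp (𝔄 (τ t)) + K := ⟨_, fun _ => rfl⟩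
  have hBa : ∀ t v a, ⟪v, B t a⟫_ℂ = 𝔄 (τ t) a v + ⟪val v, (κ : ℂ) • val a⟫_ℂ := by
    intro t v a
    rw [hB, ContinuousLinearMap.add_apply, inner_add_right, ContinuousLinearMap.comp_apply, hR, hK]
  have hBτ : ∀ t, B (τ t) = B t := fun t => by rw [hB, hB, hτ1 _ (hτ t)]
  obtain ⟨Bi, hBi⟩ : ∃ Bi : ι → V →L[ℂ] V, ∀ i, Bi i = R.comp (𝔅 i) := ⟨_, fun _ => rfl⟩
  have hBia : ∀ i v a, ⟪v, Bi i a⟫_ℂ = 𝔅 i a v := fun i v a => by
    rw [hBi, ContinuousLinearMap.comp_apply, hR]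
  have hcol' : ∀ (s : Finset ι) v, ∑ i ∈ s, ‖Bi i v‖ ^ 2 ≤ |k| * ‖v‖ ^ 2 := by
    intro s v
    refine le_trans (Finset.sum_le_sum fun i _ => ?_) ((hcol s v).trans
      (mul_le_mul_of_nonneg_right (le_abs_self k) (sq_nonneg _)))
    rw [hBi]
    exact pow_le_pow_left₀ (norm_nonneg _) (hRn _) 2
  have hhol' : ∀ s : Finset ι, ∀ t ∈ Icc 0 T, ∀ r ∈ Icc 0 T,
      ∑ i ∈ s, (g t i - g r i) ^ 2 ≤ |γ| * |t - r| := fun s t ht r hr =>
    (hhol s t ht r hr).trans (mul_le_mul_of_nonneg_right (le_abs_self γ) (abs_nonneg _))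
  have hhol2 : ∀ (s : Finset ι) t r, ∑ i ∈ s, (g (τ t) i - g (τ r) i) ^ 2 ≤ |γ| * |t - r| :=
    fun s t r => (hhol' s _ (hτ t) _ (hτ r)).trans
      (mul_le_mul_of_nonneg_left (hτ2 t r) (abs_nonneg _))
  have htr := trunc_st ι T |k| |γ| B Bi g hT (abs_nonneg _) (abs_nonneg _) hcol' hhol'
    fun t ht v a => by
      simp only [hBia, hBa, hτ1 t ht, hτ1 0 h0T, add_sub_add_right_eq_sub]
      exact hsum t ht a v
  have hgc : ∀ i, Continuous fun t => g (τ t) i := by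
    intro i
    refine continuous_iff_continuousAt.2 fun r => tendsto_iff_norm_sub_tendsto_zero.2 ?_
    have hb : ∀ t, ‖g (τ t) i - g (τ r) i‖ ≤ √(|γ| * |t - r|) := fun t => by
      have := hhol2 {i} t r
      rw [Finset.sum_singleton] at this
      exact Real.abs_le_sqrt this
    refine squeeze_zero (fun _ => norm_nonneg _) hb ?_
    have : Continuous fun t => √(|γ| * |t - r|) := by fun_prop
    simpa using this.tendsto r
  obtain ⟨Bs, hBs⟩ : ∃ Bs : Finset ι → ℝ → V →L[ℂ] V,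
      ∀ s t, Bs s t = B 0 + ∑ i ∈ s, ((g (τ t) i - g 0 i : ℝ) : ℂ) • Bi i := ⟨_, fun _ _ => rfl⟩
  have hBsc : ∀ s, Continuous (Bs s) := by
    intro s
    rw [show Bs s = _ from funext (hBs s)]
    exact continuous_const.add (continuous_finset_sum _ fun i _ =>
      (Complex.continuous_ofReal.comp ((hgc i).sub continuous_const)).smul continuous_const)
  have happ : ∀ ε : ℝ, 0 < ε → ∃ s, ∀ t, ‖Bs s t - B t‖ ≤ ε := by
    intro ε hε
    obtain ⟨s, hs⟩ := htr ε hε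
    refine ⟨s, fun t => ?_⟩
    have := hs _ (hτ t)
    rw [hBτ, sub_sub, norm_sub_rev] at this
    rwa [hBs]
  have hBc : Continuous B := by
    refine continuous_of_uniform_approx_of_continuous fun u hu => ?_
    obtain ⟨ε, hε, hu⟩ := Metric.mem_uniformity_dist.1 hu
    obtain ⟨s, hs⟩ := happ (ε / 2) (by positivity)
    refine ⟨Bs s, hBsc s, fun t => hu ?_⟩
    rw [dist_comm, dist_eq_norm]
    linarith [hs t]
  obtain ⟨Λ, hΛ⟩ := isCompact_Icc.exists_bound_of_continuousOn (hBc.continuousOn (s := Icc 0 T))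
  have hBΛ : ∀ t, ‖B t‖ ≤ Λ := fun t => by
    rw [← hBτ]
    exact hΛ _ (hτ t)
  have hBco : ∀ t v, c * ‖v‖ ^ 2 ≤ (⟪v, B t v⟫_ℂ).re := by
    intro t v
    have hφ : Continuous fun t => min (c * ‖v‖ ^ 2) (⟪v, B t v⟫_ℂ).re :=
      continuous_const.min (Complex.continuous_re.comp
        (continuous_const.inner (hBc.clm_apply continuous_const)))
    have hae : (fun t => min (c * ‖v‖ ^ 2) (⟪v, B t v⟫_ℂ).re)
        =ᵐ[volume.restrict (Icc 0 T)] fun _ => c * ‖v‖ ^ 2 := by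
      filter_upwards [hco, ae_restrict_mem measurableSet_Icc] with s h1 h2
      have : (⟪val v, val v⟫_ℂ).re = ‖val v‖ ^ 2 := inner_self_eq_norm_sq (𝕜 := ℂ) _
      rw [hBa, hτ1 s h2, Complex.add_re, inner_smul_right, Complex.re_ofReal_mul, this,
        min_eq_left (h1 v)]
    have h3 := Measure.eqOn_Icc_of_ae_eq volume hT.ne hae hφ.continuousOn continuousOn_const (hτ t)
    simp only [hBτ] at h3
    exact min_eq_left_iff.1 h3
  set K₀ : V →L[ℂ] V := (ContinuousLinearMap.adjoint val).comp val with hK₀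
  have hG : IsGram val K₀ := fun x y => ContinuousLinearMap.adjoint_inner_right val x (val y)
  have hKa : ∀ᵐ t ∂(volume.restrict (Icc 0 T)), ∀ N, Kato val K₀ (B t) |Ck| N := by
    filter_upwards [hKato, ae_restrict_mem measurableSet_Icc] with t h1 h2 N v r hr
    have hex : ∀ k : ℕ, ∃ y, (K₀ (y : V) + ((1 / 2 : ℂ) ^ k) • B t y = K₀ v) ∧
        (k < N → y = r k) := by
      intro k
      by_cases hk : k < N
      · exact ⟨r k, hr k hk, fun _ => rfl⟩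
      · obtain ⟨y, hy⟩ := (ContinuousLinearMap.isUnit_iff_bijective.1
          (hG.exists_res hc (s := (1 / 2) ^ k) (by positivity) (hBco t))).2 (K₀ v)
        refine ⟨y, ?_, fun h => absurd h hk⟩
        rw [← hy]
        push_cast
        rfl
    choose y hy1 hy2 using hex
    have h3 := h1.2 v y (fun k φ => by
      have := congrArg (fun z => ⟪φ, z⟫_ℂ) (hy1 k)
      simpa only [inner_add_right, inner_smul_right, hG φ, hBa, hτ1 t h2] using this) N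
    rw [Finset.sum_congr rfl fun k hk => by rw [hy2 k (Finset.mem_range.1 hk)]] at h3
    exact h3.trans (mul_le_mul_of_nonneg_right (le_abs_self _) (sq_nonneg _))
  have hΛ0 : 0 ≤ Λ := (norm_nonneg _).trans (hBΛ 0)
  refine hasMaxReg_of_scheme val hT 𝔄 hBc hBΛ hc hBco (κ := κ)
    (fun t ht v a => by rw [hBa, hτ1 t ht])
    (scheme_of_approx val (c₀ := c / 2) (Λ₀ := Λ + c / 2) (Ck := 2 * |Ck| + 1) hT (by positivity)
      (abs_nonneg k) (abs_nonneg γ) (by positivity) fun N ε₀ hε₀ => ?_)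
  obtain ⟨ε₁, hε₁, hε₁'⟩ : ∃ ε₁ : ℝ, 0 < ε₁ ∧
      2 * 2 ^ N * (‖val‖ * (2 * ε₁) * (Λ + c / 2) / (c / 2) ^ 2) ^ 2 ≤ 1 := by
    have h1 : Continuous fun e : ℝ =>
        2 * 2 ^ N * (‖val‖ * (2 * e) * (Λ + c / 2) / (c / 2) ^ 2) ^ 2 := by fun_prop
    have h2 := (h1.tendsto 0).eventually (gt_mem_nhds (a := 1) (by simp))
    obtain ⟨e, he1, he2⟩ := ((h2.filter_mono nhdsWithin_le_nhds).and
      (self_mem_nhdsWithin (s := Ioi 0))).exists
    exact ⟨e, he2, he1.le⟩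
  set ε := min ε₀ ε₁ with hεdef
  obtain ⟨s, hs⟩ := happ (min ε (c / 2)) (by positivity)
  have hco' : ∀ t, Coer (c / 2) (Bs s t) := by
    intro t v
    have h1 := hBco t v
    have h2 : ‖⟪v, (Bs s t - B t) v⟫_ℂ‖ ≤ ‖v‖ * (c / 2 * ‖v‖) :=
      (norm_inner_le_norm _ _).trans (mul_le_mul_of_nonneg_left
        (((Bs s t - B t).le_opNorm v).trans
          (mul_le_mul_of_nonneg_right ((hs t).trans (min_le_right _ _)) (norm_nonneg _)))
        (norm_nonneg _))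
    have h3 := (neg_abs_le _).trans' (neg_le_neg ((Complex.abs_re_le_norm _).trans h2))
    rw [ContinuousLinearMap.sub_apply, inner_sub_right, Complex.sub_re] at h3
    nlinarith
  have hbd' : ∀ t, ‖Bs s t‖ ≤ Λ + c / 2 := by
    intro t
    have h1 := norm_add_le (B t) (Bs s t - B t)
    rw [add_sub_cancel] at h1
    linarith [hBΛ t, (hs t).trans (min_le_right _ _)]
  have hsum' : ∀ {Z : Type} [AddCommMonoid Z] (f : ι → Z),
      ∑ i : Fin s.card, f (s.equivFin.symm i) = ∑ i ∈ s, f i := fun f => by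
    rw [← Finset.sum_coe_sort s f]
    exact s.equivFin.symm.sum_comp fun i => f i
  refine ⟨Bs s, s.card, fun i => Bi (s.equivFin.symm i), fun t i => g (τ t) (s.equivFin.symm i),
    ⟨hco', hbd', fun t r => ?_, fun v => ?_, fun t r => ?_, fun i => hgc _, fun t => ?_⟩,
    fun t => (hs t).trans ((min_le_left _ _).trans (min_le_left _ _)), fun t => ?_⟩
  · rw [hsum' fun i => ((g (τ t) i - g (τ r) i : ℝ) : ℂ) • Bi i, hBs, hBs,
      add_sub_add_left_eq_sub, ← Finset.sum_sub_distrib]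
    refine Finset.sum_congr rfl fun i _ => ?_
    rw [← sub_smul, ← Complex.ofReal_sub, sub_sub_sub_cancel_right]
  · rw [hsum' fun i => ‖Bi i v‖ ^ 2]
    exact hcol' s v
  · rw [hsum' fun i => (g (τ t) i - g (τ r) i) ^ 2]
    exact hhol2 s t r
  · rw [← hτd, hτ1 _ (hτ t)]
  · obtain ⟨t', h1, -, h2⟩ := exists_near hT hKa (hτ t)
      (hBc.continuousAt.preimage_mem_nhds (Metric.closedBall_mem_nhds _ hε₁))
    rw [mem_preimage, mem_closedBall_iff_norm', hBτ] at h1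
    have h3 : ‖Bs s t - B t'‖ ≤ 2 * ε₁ := by
      have h4 := norm_sub_le_norm_sub_add_norm_sub (Bs s t) (B t) (B t')
      linarith [(hs t).trans ((min_le_left _ _).trans (min_le_right _ _))]
    exact (katoPert_st val K₀ (B t') (Bs s t) N (c / 2) (Λ + c / 2) (2 * ε₁) |Ck| hG
      (by positivity) (Coer.mono (hBco t') (by linarith)) (hco' t) (hbd' t) h3 (h2 N)).mono
      (by linarith)

end Pool.Agent.MP_954c34_an.Rank
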