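import Pool.Agent.MP_954c34_an.Rk.C
import Pool.Agent.MP_954c34_an.Rk.D

set_option linter.all false
set_option maxSynthPendingDepth 3

open MeasureTheory Set Filter Topology
open scoped InnerProductSpace ComplexConjugate ContDiff BoundedContinuousFunction Matrix

noncomputable section

namespace Pool.Agent.MP_954c34_an.Rank

open Pool.Agent.MP_954c34_an.Sharp Pool.Agent.MP_954c34_an.Sob

section Abstract

variable {V H : Type} [NormedAddCommGroup V] [InnerProductSpace ℂ V] [CompleteSpace V]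
  [NormedAddCommGroup H] [InnerProductSpace ℂ H] [CompleteSpace H]

lemma sq_le_of_sqrt {θ : ℝ → ℝ} (hθ : IsModulus θ) {C : ℝ}
    (h : ∀ t ∈ Ioc (0 : ℝ) 1, θ t ≤ C * √t) {T : ℝ} (hT : 0 < T) :
    ∃ C' : ℝ, ∀ d ∈ Icc 0 T, θ d ^ 2 ≤ C' * d := by
  refine ⟨C ^ 2 + θ T ^ 2, fun d hd => ?_⟩
  have h0 := hθ.nonneg d hd.1
  have h1 : ∀ t ∈ Ioc (0 : ℝ) 1, θ t ^ 2 ≤ C ^ 2 * t := fun t ht => by
    have := pow_le_pow_left₀ (hθ.nonneg t ht.1.le) (h t ht) 2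
    rwa [mul_pow, Real.sq_sqrt ht.1.le] at this
  rcases hd.1.eq_or_lt with h2 | h2
  · subst h2
    rw [mul_zero]
    refine ge_of_tendsto (f := fun t : ℝ => C ^ 2 * t) (x := 𝓝[>] 0)
      ((Continuous.tendsto' (by fun_prop) 0 0 (by simp)).mono_left nhdsWithin_le_nhds) ?_
    filter_upwards [Ioc_mem_nhdsGT (zero_lt_one' ℝ)] with t ht
    exact (pow_le_pow_left₀ h0 (hθ.mono (mem_Ici.2 le_rfl) (mem_Ici.2 ht.1.le) ht.1.le) 2).trans
      (h1 t ht)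
  rcases le_total d 1 with h3 | h3
  · nlinarith [h1 d ⟨h2, h3⟩, mul_nonneg (sq_nonneg (θ T)) hd.1]
  · have h4 := pow_le_pow_left₀ h0 (hθ.mono (mem_Ici.2 hd.1) (mem_Ici.2 hT.le) hd.2) 2
    nlinarith [mul_nonneg (sq_nonneg C) hd.1, mul_le_mul_of_nonneg_left h3 (sq_nonneg (θ T))]

lemma isKato_of_hermitian (val : V →L[ℂ] H) {T Λ : ℝ} {𝔄 : ℝ → V →L[ℂ] V →L⋆[ℂ] ℂ}
    (hco : IsQuasiCoercive val T 𝔄) (hs : IsHermitianOn T 𝔄) (hb : ∀ t ∈ Icc 0 T, ‖𝔄 t‖ ≤ Λ) :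
    IsKato val T 𝔄 := by
  obtain ⟨c, κ, hc, hco⟩ := hco
  obtain ⟨R, hR, hRn⟩ := exists_riesz (V := V)
  set K₀ : V →L[ℂ] V := (ContinuousLinearMap.adjoint val).comp val with hK₀
  have hG : IsGram val K₀ := fun x y => ContinuousLinearMap.adjoint_inner_right val x (val y)
  refine ⟨c, κ, 4 * (Λ + ‖(κ : ℂ) • K₀‖) ^ 2 / c, hc, ?_⟩
  filter_upwards [hco, ae_restrict_mem measurableSet_Icc] with t h1 h2
  refine ⟨h1, fun v r hr N => ?_⟩
  set B : V →L[ℂ] V := R.comp (𝔄 t) + (κ : ℂ) • K₀ with hB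
  have hBa : ∀ v a, ⟪v, B a⟫_ℂ = 𝔄 t a v + κ * ⟪val v, val a⟫_ℂ := fun v a => by
    rw [hB, ContinuousLinearMap.add_apply, inner_add_right, ContinuousLinearMap.comp_apply, hR,
      ContinuousLinearMap.smul_apply, inner_smul_right, hG]
  refine katoSa_st val K₀ B N c _ hG hc ?_ (fun x => ?_) ?_ v r fun k _ => ?_
  · rw [ContinuousLinearMap.isSelfAdjoint_iff_isSymmetric]
    intro x y
    change ⟪B x, y⟫_ℂ = ⟪x, B y⟫_ℂ
    rw [← inner_conj_symm, hBa, hBa, hs t h2 y x, map_add, map_mul, Complex.conj_ofReal,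
      inner_conj_symm]
  · have : (⟪val x, val x⟫_ℂ).re = ‖val x‖ ^ 2 := inner_self_eq_norm_sq (𝕜 := ℂ) _
    rw [hBa, Complex.add_re, Complex.re_ofReal_mul, this]
    exact h1 x
  · refine (norm_add_le _ _).trans (add_le_add (le_trans ?_ (hb t h2)) le_rfl)
    exact ContinuousLinearMap.opNorm_le_bound _ (norm_nonneg _) fun v =>
      (hRn _).trans ((𝔄 t).le_opNorm v)
  · refine ext_inner_left ℂ fun φ => ?_
    rw [inner_add_right, inner_smul_right, hG, hG, hBa]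
    exact hr k φ

lemma bound_of_factors {T : ℝ} (hT : 0 < T) {θ : ℝ → ℝ} (hθ : IsModulus θ)
    {𝔄 : ℝ → V →L[ℂ] V →L⋆[ℂ] ℂ} (h : Factors T θ 𝔄) : ∃ Λ, ∀ t ∈ Icc 0 T, ‖𝔄 t‖ ≤ Λ := by
  obtain ⟨ι, 𝔅, g, k, C, h1, h2, h3⟩ := h
  refine ⟨‖𝔄 0‖ + √(|C| * θ T ^ 2 * |k|), fun t ht => ?_⟩
  have h4 : ‖𝔄 t - 𝔄 0‖ ≤ √(|C| * θ T ^ 2 * |k|) := by
    refine ContinuousLinearMap.opNorm_le_bound₂ _ (Real.sqrt_nonneg _) fun u v => ?_
    refine le_of_tendsto' (h3 t ht u v).norm fun s => ?_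
    have e1 : ‖∑ i ∈ s, ((g t i - g 0 i : ℝ) : ℂ) * 𝔅 i u v‖ ≤
        (∑ i ∈ s, |g t i - g 0 i| * ‖𝔅 i u‖) * ‖v‖ := by
      rw [Finset.sum_mul]
      refine (norm_sum_le _ _).trans (Finset.sum_le_sum fun i _ => ?_)
      rw [norm_mul, Complex.norm_real, Real.norm_eq_abs, mul_assoc]
      exact mul_le_mul_of_nonneg_left ((𝔅 i u).le_opNorm v) (abs_nonneg _)
    refine e1.trans (mul_le_mul_of_nonneg_right ?_ (norm_nonneg _))
    have e2 := Finset.sum_mul_sq_le_sq_mul_sq s (fun i => |g t i - g 0 i|) fun i => ‖𝔅 i u‖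
    simp only [sq_abs] at e2
    have e3 : ∑ i ∈ s, (g t i - g 0 i) ^ 2 ≤ |C| * θ T ^ 2 := by
      refine (h2 s t ht 0 ⟨le_rfl, hT.le⟩).trans ?_
      rw [sub_zero, abs_of_nonneg ht.1]
      exact mul_le_mul (le_abs_self _) (pow_le_pow_left₀ (hθ.nonneg _ ht.1)
        (hθ.mono (mem_Ici.2 ht.1) (mem_Ici.2 hT.le) ht.2) 2) (sq_nonneg _) (abs_nonneg _)
    have e4 := (h1 s u).trans (mul_le_mul_of_nonneg_right (le_abs_self k) (sq_nonneg _))
    rw [← Real.sqrt_sq (norm_nonneg u), ← Real.sqrt_mul (by positivity)]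
    refine Real.le_sqrt_of_sq_le (e2.trans ?_)
    rw [mul_assoc]
    exact mul_le_mul e3 e4 (Finset.sum_nonneg fun _ _ => sq_nonneg _) (by positivity)
  have h5 := norm_add_le (𝔄 0) (𝔄 t - 𝔄 0)
  rw [add_sub_cancel] at h5
  linarith

lemma factors_of_rank {T : ℝ} (hT : 0 < T) {θ : ℝ → ℝ} {𝔄 : ℝ → V →L[ℂ] V →L⋆[ℂ] ℂ}
    (h : HasFiniteRank T 𝔄) (hm : HasModulus T θ 𝔄) : Factors T θ 𝔄 := by
  classical
  obtain ⟨m, 𝔅, h⟩ := h
  obtain ⟨C, hC⟩ := hm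
  set W : Submodule ℂ (V →L[ℂ] V →L⋆[ℂ] ℂ) := Submodule.span ℂ (range 𝔅) with hW
  have : FiniteDimensional ℂ W := FiniteDimensional.span_of_finite ℂ (finite_range 𝔅)
  have hA : ∀ t ∈ Icc 0 T, 𝔄 t ∈ W := fun t ht => by
    obtain ⟨z, hz⟩ := h t ht
    refine (Submodule.mem_span_range_iff_exists_fun ℂ).2 ⟨z, ?_⟩
    ext u v
    simp only [hz, ContinuousLinearMap.sum_apply, ContinuousLinearMap.smul_apply, smul_eq_mul]
  let A' : ℝ → W := fun t => if h : 𝔄 t ∈ W then ⟨𝔄 t, h⟩ else 0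
  have e : ∀ t ∈ Icc 0 T, (A' t : V →L[ℂ] V →L⋆[ℂ] ℂ) = 𝔄 t := fun t ht => by
    simp only [A', dif_pos (hA t ht)]
  obtain ⟨n, τ, g, γ, h0, h1, h2, h3⟩ := real_Fin (Icc 0 T) A'
  have hg : ∀ t ∈ Icc 0 T, 𝔄 t = ∑ i, ((g t i : ℝ) : ℂ) • 𝔄 (τ i) := fun t ht => by
    rw [← e t ht, h2 t ht, Submodule.coe_sum]
    refine Finset.sum_congr rfl fun i _ => ?_
    rw [← e _ (h1 i), ← Complex.coe_smul, Submodule.coe_smul]
  refine ⟨Fin n, fun i => 𝔄 (τ i), g, ∑ i, ‖𝔄 (τ i)‖ ^ 2, γ * C ^ 2, fun s v => ?_,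
    fun s t ht r hr => ?_, fun t ht u v => ?_⟩
  · rw [Finset.sum_mul]
    refine le_trans (Finset.sum_le_sum fun i _ => ?_)
      (Finset.sum_le_sum_of_subset_of_nonneg (Finset.subset_univ s) fun i _ _ => by positivity)
    rw [← mul_pow]
    exact pow_le_pow_left₀ (norm_nonneg _) ((𝔄 (τ i)).le_opNorm v) 2
  · refine (Finset.sum_le_sum_of_subset_of_nonneg (Finset.subset_univ s)
      fun i _ _ => sq_nonneg _).trans ((h3 t ht r hr).trans ?_)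
    rw [mul_assoc]
    refine mul_le_mul_of_nonneg_left ?_ h0
    have h4 := pow_le_pow_left₀ (norm_nonneg _) (hC t ht r hr) 2
    rwa [mul_pow, ← e t ht, ← e r hr] at h4
  · have := hasSum_fintype fun i => ((g t i - g 0 i : ℝ) : ℂ) * 𝔄 (τ i) u v
    convert this using 1
    rw [hg t ht, hg 0 ⟨le_rfl, hT.le⟩]
    simp only [ContinuousLinearMap.sum_apply, ContinuousLinearMap.smul_apply, smul_eq_mul,
      ← Finset.sum_sub_distrib, Complex.ofReal_sub, sub_mul]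

end Abstract

variable {E : Type} [NormedAddCommGroup E] [InnerProductSpace ℝ E] [FiniteDimensional ℝ E]
  [MeasurableSpace E] [BorelSpace E] {n : ℕ} {V : Type} [NormedAddCommGroup V]
  [InnerProductSpace ℂ V]

theorem top (μ : Measure E) [μ.IsAddHaarMeasure] (hn : 1 ≤ n) (b : OrthonormalBasis (Fin n) ℝ E)
    (Ω D : Set E) (hΩ : IsOpen Ω) (hne : Ω.Nonempty) (hD : D ⊆ frontier Ω) (T : ℝ) (hT : 0 < T)
    (val : V →L[ℂ] Lp ℂ 2 (μ.restrict Ω)) (grad : Fin n → V →L[ℂ] Lp ℂ 2 (μ.restrict Ω))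
    (hV : IsFormDomain μ b Ω D val grad) (θ : ℝ → ℝ) (hθ : IsModulus θ) (δ : ℝ) (hδ : 0 < δ) :
    List.TFAE
      [∃ C : ℝ, ∀ t ∈ Ioc (0 : ℝ) 1, θ t ≤ C * √t,
        ∀ (V' H' : Type) [NormedAddCommGroup V'] [InnerProductSpace ℂ V'] [CompleteSpace V']
          [NormedAddCommGroup H'] [InnerProductSpace ℂ H'] [CompleteSpace H']
          (val' : V' →L[ℂ] H') (𝔄 : ℝ → V' →L[ℂ] V' →L⋆[ℂ] ℂ),
          IsKato val' T 𝔄 ∨ IsQuasiCoercive val' T 𝔄 ∧ IsHermitianOn T 𝔄 →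
          Factors T θ 𝔄 → HasMaxReg val' T 𝔄,
        ∀ (A : ℝ → E → Matrix (Fin n) (Fin n) ℂ) (𝔄 : ℝ → V →L[ℂ] V →L⋆[ℂ] ℂ),
          IsDivForm μ Ω grad T A 𝔄 → IsKato val T 𝔄 ∨ IsHermitianOn T 𝔄 →
          HasFiniteRank T 𝔄 → HasModulus T θ 𝔄 → HasMaxReg val T 𝔄,
        ∀ (g : ℝ → ℝ) (β : E → ℝ) (𝔄 : ℝ → V →L[ℂ] V →L⋆[ℂ] ℂ),
          (∀ t, |g t| ≤ δ) → (∃ C : ℝ, ∀ t s, |g t - g s| ≤ C * θ |t - s|) →
          Continuous β → (∀ x, |β x| ≤ 1) →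
          IsDivForm μ Ω grad T
            (fun t x => ((1 + g t * β x : ℝ) : ℂ) • (1 : Matrix (Fin n) (Fin n) ℂ)) 𝔄 →
          HasMaxReg val T 𝔄] := by
  have := hV.complete
  obtain ⟨e, he0, he1⟩ := exists_equiv hV
  obtain ⟨S, hS⟩ := exists_scalL μ b Ω D
  have hform : ∀ (r : ℝ) (β : E →ᵇ ℝ) (u v : V), (S 1 + (r : ℂ) • S β) (e u) (e v) =
      ∫ x in Ω, ∑ i, ∑ j, (((1 + r * β x : ℝ) : ℂ) • (1 : Matrix (Fin n) (Fin n) ℂ)) i j *
        grad j u x * conj (grad i v x) ∂μ := by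
    intro r β u v
    rw [Complex.coe_smul, ← map_smul, ← map_add, hS, scalOp_eq_form, form]
    simp only [he1]
    rfl
  tfae_have 1 → 2 := by
    rintro ⟨C, hC⟩ V' H' _ _ _ _ _ _ val' 𝔄 hK hF
    obtain ⟨Λ, hΛ⟩ := bound_of_factors hT hθ hF
    obtain ⟨ι, 𝔅, g, k, C₁, h1, h2, h3⟩ := hF
    obtain ⟨C', hC'⟩ := sq_le_of_sqrt hθ hC hT
    refine hasMaxReg_fact val' hT 𝔄 (hK.elim id fun h => isKato_of_hermitian val' h.1 h.2 hΛ)
      𝔅 g k (|C₁| * C') h1 (fun s t ht r hr => (h2 s t ht r hr).trans ?_) h3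
    rw [mul_assoc]
    exact mul_le_mul (le_abs_self _) (hC' _ ⟨abs_nonneg _,
      abs_le.2 ⟨by linarith [ht.1, hr.2], by linarith [ht.2, hr.1]⟩⟩) (sq_nonneg _) (abs_nonneg _)
  tfae_have 2 → 3 := fun h A 𝔄 hA hK hr hm =>
    h V _ val 𝔄 (hK.imp id fun h' => ⟨isQuasiCoercive_of_isDivForm hV hA, h'⟩)
      (factors_of_rank hT hr hm)
  tfae_have 3 → 4 := by
    rintro h g β 𝔄 - ⟨C, hC⟩ hβ hβ1 hA
    set β' : E →ᵇ ℝ := BoundedContinuousFunction.ofNormedAddCommGroup β hβ 1 hβ1 with hβ'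
    obtain ⟨𝔈, h1, -, -⟩ := exists_transfer e val (toH μ b Ω D) he0 T
      fun t => if t = 0 then S 1 else S β'
    have h2 : ∀ t ∈ Icc 0 T, 𝔄 t = 𝔈 0 + (g t : ℂ) • 𝔈 1 := by
      intro t ht
      ext u v
      rw [hA.apply_eq t ht]
      refine (hform (g t) β' u v).symm.trans ?_
      simp [h1]
    refine h _ 𝔄 hA (Or.inr fun t ht u v => ?_) ⟨2, ![𝔈 0, 𝔈 1], fun t ht => ⟨![1, g t], ?_⟩⟩
      ⟨C * ‖𝔈 1‖, fun t ht s hs => ?_⟩
    · rw [hA.apply_eq t ht, hA.apply_eq t ht, ← integral_conj]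
      refine integral_congr_ae (Eventually.of_forall fun x => ?_)
      simp only [map_sum, map_mul, Complex.conj_conj]
      rw [Finset.sum_comm]
      refine Finset.sum_congr rfl fun i _ => Finset.sum_congr rfl fun j _ => ?_
      by_cases hij : i = j
      · subst hij
        simp only [Matrix.smul_apply, Matrix.one_apply_eq, smul_eq_mul, mul_one,
          Complex.conj_ofReal]
        ring
      · simp [Matrix.one_apply_ne hij, Matrix.one_apply_ne (Ne.symm hij)]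
    · intro u v
      simp [h2 t ht]
    · rw [h2 t ht, h2 s hs, add_sub_add_left_eq_sub, ← sub_smul, norm_smul, ← Complex.ofReal_sub,
        Complex.norm_real, Real.norm_eq_abs, mul_right_comm]
      exact mul_le_mul_of_nonneg_right (hC t s) (norm_nonneg _)
  tfae_have 4 → 1 := by
    intro h
    by_contra hn1
    obtain ⟨β, g, hβ, hg, hg1, hg2, F, v, hF, hv, hH⟩ :=
      glue_st prof_st tblock_st (ser_st var_st) (E →ᵇ ℝ) (toH μ b Ω D) (dualOf μ b Ω D none) _ S θ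
        T (min δ (1 / 2)) (toAntidual_eq μ b Ω D)
        (blocks_st μ b Ω D (oneBlock_st μ b Ω D) S hS hn hΩ hne hD) (amp_st θ hθ hn1) hT
        (lt_min hδ (by norm_num)) ((min_le_right _ _).trans (by norm_num))
    rw [← hS] at hv
    obtain ⟨𝔄, h1, -, h3⟩ := exists_transfer e val (toH μ b Ω D) he0 T
      fun t => S 1 + (g t : ℂ) • S β
    have hβ1 : ∀ x, |β x| ≤ 1 := fun x => (β.norm_coe_le_norm x).trans hβ
    have h4 := h g β 𝔄 (fun t => (hg1 t).trans (min_le_left _ _)) ⟨_, hg2⟩ β.continuous hβ1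
      ⟨fun i j => ?_, ⟨1 / 2, 2, by norm_num, by norm_num, Eventually.of_forall fun p =>
        isElliptic_smul_one ?_⟩, fun t _ u w => by rw [h1, hform]⟩ F hF _ (h3 F v hv)
    · simp only [← he0, e.apply_symm_apply] at h4
      exact hH h4
    · have : Continuous fun p : ℝ × E => 1 + g p.1 * β p.2 := by fun_prop
      exact ((Complex.continuous_ofReal.comp this).smul continuous_const).measurable
    · rw [add_sub_cancel_left, abs_mul]
      exact (mul_le_of_le_one_right (abs_nonneg _) (hβ1 _)).trans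
        ((hg1 _).trans (min_le_right _ _))
  tfae_finish

end Pool.Agent.MP_954c34_an.Rank
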